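import Pool.Agent.Lib.MP_7903c7_al.RF.Cor
import Pool.Agent.Lib.MP_7903c7_al.RF.Geo

set_option autoImplicit false

/-!
Heights attached to a finite set normalised by `g` and finitely many cosets of the group that it
generates.
-/

namespace Pool.Agent.Lib.MP_7903c7_al.F

open Finset RF
open scoped Classical

variable {G : Type} [Group G]

/-- The action on pairs of a set of links and a set of points. -/
def act (c : G) (w : Set G × Set G) : Set G × Set G :=
  ({a | c⁻¹ * a * c ∈ w.1}, {y | c⁻¹ * y ∈ w.2})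

/-- A finite set normalised by `g` that generates `g`, and at most `n` right cosets. -/
def Ok (g : G) (n : ℕ) (w : Set G × Set G) : Prop :=
  w.1.Finite ∧ g ∈ Subgroup.closure w.1 ∧ (∀ a ∈ w.1, g * a * g⁻¹ ∈ w.1) ∧ w.2.Nonempty ∧
    ∃ X : Finset G, X.card ≤ n ∧ ∀ y, y ∈ w.2 ↔ ∃ x ∈ X, y * x⁻¹ ∈ Subgroup.closure w.1

theorem act_one (w : Set G × Set G) : act 1 w = w := by simp [act]

theorem act_mul (a b : G) (w : Set G × Set G) : act (a * b) w = act a (act b w) := by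
  simp [act, mul_assoc]

theorem act_inv (a : G) (w : Set G × Set G) : act a⁻¹ (act a w) = w := by
  rw [← act_mul, inv_mul_cancel, act_one]

theorem mem_cl (c : G) (w : Set G × Set G) (z : G) :
    z ∈ Subgroup.closure (act c w).1 ↔ c⁻¹ * z * c ∈ Subgroup.closure w.1 := by
  have k : ∀ (c : G) (w : Set G × Set G) (z : G), z ∈ Subgroup.closure (act c w).1 →
      c⁻¹ * z * c ∈ Subgroup.closure w.1 := fun c w z h => by
    have := MonoidHom.closure_preimage_le (MulAut.conj c⁻¹).toMonoidHom w.1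
      (x := z) (by simpa [act, Set.preimage] using h)
    simpa using this
  refine ⟨k c w z, fun h => ?_⟩
  have := k c⁻¹ (act c w) _ (by rwa [act_inv])
  simpa [mul_assoc] using this

theorem Ok.act {g c : G} {n : ℕ} {w : Set G × Set G} (h : Ok g n w) (hc : c * g = g * c) :
    Ok g n (act c w) := by
  obtain ⟨h1, h2, h3, ⟨y, hy⟩, X, h4, h5⟩ := h
  have e : c⁻¹ * g * c = g := by rw [mul_assoc, ← hc, inv_mul_cancel_left]
  refine ⟨h1.preimage (f := fun a => c⁻¹ * a * c) fun a _ b _ h => by simpa using h,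
    (mem_cl _ _ _).2 (by rwa [e]), fun a ha => ?_, ⟨c * y, by simpa [F.act] using hy⟩,
    X.image (c * ·), card_image_le.trans h4, fun y => (h5 _).trans ?_⟩
  · have := h3 _ ha
    rw [← e] at this
    simpa [F.act, mul_assoc] using this
  · simp only [mem_cl, mem_image, exists_exists_and_eq_and]
    simp [mul_assoc]

namespace Chi

/-- The transfer to a commutative subgroup of finite index. -/
theorem chi0 {Γ : Type} [Group Γ] (K : Subgroup Γ) [K.FiniteIndex]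
    (hK : ∀ a ∈ K, ∀ b ∈ K, a * b = b * a) (g : Γ) (hg : orderOf g = 0) {m : ℕ} (hm : 0 < m)
    (hc : ∀ c, Commute (g ^ m) c) : ∃ χ : Γ → ℝ, χ g = 1 ∧ ∀ a b, χ (a * b) = χ a + χ b := by
  have key : ∀ (k : ℕ) (g₀ : Γ), g₀⁻¹ * (g ^ m) ^ k * g₀ ∈ K → g₀⁻¹ * (g ^ m) ^ k * g₀ =
      (g ^ m) ^ k := fun k c _ => by
    rw [mul_assoc, ((hc c).pow_left k).eq, inv_mul_cancel_left]
  obtain ⟨χ, h1, h2⟩ := Cor.char_of_ab K _ (MonoidHom.transfer_eq_pow_aux (g ^ m) key)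
    fun j hj h => by
      rw [Subgroup.commutator_eq_bot_iff_le_centralizer.2 fun a ha b hb => hK b hb a ha,
        Subgroup.mem_bot, ← pow_mul, ← pow_mul] at h
      exact orderOf_eq_zero_iff'.1 hg _ (Nat.mul_pos hm (Nat.mul_pos
        (Nat.pos_of_ne_zero Subgroup.FiniteIndex.index_ne_zero) hj)) h
  let φ : K →* Multiplicative ℝ := MonoidHom.mk' (fun k => Multiplicative.ofAdd (χ k))
    fun a b => congrArg Multiplicative.ofAdd (h2 _ a.2 _ b.2)
  have h3 := congrArg Multiplicative.toAdd (MonoidHom.transfer_eq_pow φ (g ^ m) key)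
  rw [map_pow, toAdd_pow, nsmul_eq_mul] at h3
  exact ⟨fun x => m * Multiplicative.toAdd (MonoidHom.transfer φ x), h3.trans h1, fun a b => by
    simp only [map_mul, toAdd_mul, mul_add]⟩

/-- The group of symmetries. -/
def Gam (g : G) (w : Set G × Set G) : Subgroup G where
  carrier := {c | act c w = w ∧ ∀ k : ℕ, (∀ a ∈ w.1, Commute (g ^ k) a) → Commute (g ^ k) c}
  mul_mem' ha hb := ⟨by rw [act_mul, hb.1, ha.1], fun k h => (ha.2 k h).mul_right (hb.2 k h)⟩
  one_mem' := ⟨act_one w, fun _ _ => Commute.one_right _⟩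
  inv_mem' {a} ha := ⟨by rw [← ha.1, act_inv, ha.1], fun k h => (ha.2 k h).inv_right⟩

theorem comm_cl {A : Set G} {z y : G} (h : ∀ a ∈ A, Commute z a) (hy : y ∈ Subgroup.closure A) :
    Commute z y :=
  (Subgroup.closure_le (Subgroup.centralizer {z})).2 (fun a ha =>
    Subgroup.mem_centralizer_singleton_iff.2 (h a ha).symm) hy z rfl

variable {g : G} {n : ℕ} {w : Set G × Set G}

theorem mem_gam (h : Ok g n w) {t : G} (ht : t ∈ Subgroup.closure w.1)
    (e : ∀ a, t⁻¹ * a * t ∈ w.1 ↔ a ∈ w.1) : t ∈ Gam g w := by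
  obtain ⟨-, -, -, -, X, -, h5⟩ := h
  refine ⟨Prod.ext (Set.ext e) (Set.ext fun y => (h5 _).trans (Iff.trans ?_ (h5 _).symm)),
    fun k hk => comm_cl hk ht⟩
  simp only [mul_assoc, Subgroup.mul_mem_cancel_left _ (inv_mem ht)]

theorem g_mem (h : Ok g n w) : g ∈ Gam g w := by
  have b : Set.BijOn (fun a => g * a * g⁻¹) w.1 w.1 :=
    (h.1.injOn_iff_bijOn_of_mapsTo h.2.2.1).1 fun a _ b _ h => by simpa using h
  refine mem_gam h h.2.1 fun a => ⟨fun k => by simpa [mul_assoc] using h.2.2.1 _ k, fun k => ?_⟩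
  obtain ⟨a', ha, rfl⟩ := b.surjOn k
  simpa [mul_assoc] using ha

theorem ex_pow (h : Ok g n w) : ∃ m, 0 < m ∧ ∀ a ∈ w.1, Commute (g ^ m) a := by
  have k : ∀ a, ∃ m, 0 < m ∧ (a ∈ w.1 → Commute (g ^ m) a) := fun a => by
    by_cases ha : a ∈ w.1
    · have it : ∀ j : ℕ, g ^ j * a * (g ^ j)⁻¹ ∈ w.1 := fun j => by
        induction j with
        | zero => simpa using ha
        | succ j ih => simpa [pow_succ', mul_assoc] using h.2.2.1 _ ih
      obtain ⟨i, j, hij, e⟩ := h.1.exists_lt_map_eq_of_forall_mem it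
      obtain ⟨d, rfl⟩ := Nat.exists_eq_add_of_lt hij
      refine ⟨d + 1, d.succ_pos, fun _ => ?_⟩
      rw [add_assoc, pow_add, mul_inv_rev, mul_assoc, mul_assoc, mul_assoc, mul_right_inj,
        ← mul_assoc a, ← mul_assoc, mul_left_inj, ← mul_assoc, eq_mul_inv_iff_mul_eq] at e
      exact e.symm
    · exact ⟨1, one_pos, fun k => absurd k ha⟩
  choose m m0 hm using k
  refine ⟨∏ a ∈ h.1.toFinset, m a, prod_pos fun a _ => m0 a, fun a ha => ?_⟩
  obtain ⟨d, hd⟩ := dvd_prod_of_mem m (h.1.mem_toFinset.2 ha)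
  rw [hd, pow_mul]
  exact (hm a ha).pow_left d

theorem ex_chi (hg : orderOf g = 0) (h : Ok g n w) :
    ∃ χ : Gam g w → ℝ, χ ⟨g, g_mem h⟩ = 1 ∧ ∀ a b, χ (a * b) = χ a + χ b := by
  obtain ⟨m, m0, hm⟩ := ex_pow h
  obtain ⟨h1, -, -, ⟨y, hy⟩, X, -, h5⟩ := id h
  set K : Subgroup (Gam g w) :=
    (Subgroup.closure w.1 ⊓ Subgroup.centralizer w.1).subgroupOf (Gam g w) with hK
  have a1 : ∀ (c : Gam g w) (a : w.1), (c : G) * a * (c : G)⁻¹ ∈ w.1 := fun c a => by
    have : (a : G) ∈ (act (c : G)⁻¹ w).1 := by rw [(inv_mem c.2).1]; exact a.2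
    simpa [act] using this
  have a2 : ∀ c : Gam g w, ∃ x : X, (c : G) * y * (x : G)⁻¹ ∈ Subgroup.closure w.1 := fun c => by
    have : y ∈ (act (c : G)⁻¹ w).2 := by rw [(inv_mem c.2).1]; exact hy
    obtain ⟨x, hx, e⟩ := (h5 _).1 this
    exact ⟨⟨x, hx⟩, by simpa using e⟩
  choose f hf using a2
  have : Finite w.1 := h1
  have : Finite (Gam g w ⧸ K) := Finite.of_injective (fun q : Gam g w ⧸ K =>
    ((fun a : w.1 => (⟨_, a1 q.out a⟩ : w.1)), f q.out)) fun q q' e => by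
      rw [← q.out_eq', ← q'.out_eq', QuotientGroup.eq]
      obtain ⟨e1, e2⟩ := Prod.ext_iff.1 e
      refine Subgroup.mem_subgroupOf.2 ⟨?_, fun a ha => ?_⟩
      · have k := mul_mem (hf q'.out) (inv_mem (hf q.out))
        have k' := (mem_cl (q.out : G) w _).1 (by rw [q.out.2.1]; exact k)
        rw [show f q.out = f q'.out from e2] at k'
        simpa [mul_assoc] using k'
      · have k : (q.out : G) * a * (q.out : G)⁻¹ = (q'.out : G) * a * (q'.out : G)⁻¹ :=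
          congrArg Subtype.val (congrFun e1 ⟨a, ha⟩)
        rw [mul_inv_eq_iff_eq_mul, ← eq_inv_mul_iff_mul_eq] at k
        push_cast
        nth_rw 1 [k]
        simp [mul_assoc]
  have : K.FiniteIndex := Subgroup.finiteIndex_of_finite_quotient
  exact chi0 K (fun a ha b hb => Subtype.ext (comm_cl (fun x hx => (ha.2 x hx).symm) hb.1)) _
    (by rw [← Subgroup.orderOf_coe]; exact hg) m0 fun c => Subtype.ext (c.2.2 m hm)

theorem ex_eta (hg : orderOf g = 0) (w : Set G × Set G) : ∃ η χ : G → ℝ,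
    (∀ t ∈ Gam g w, ∀ y, η (t * y) = χ t + η y) ∧ ∀ n, Ok g n w → χ g = 1 := by
  by_cases h : ∃ n, Ok g n w
  · obtain ⟨n, h⟩ := h
    obtain ⟨χ, h1, h2⟩ := ex_chi hg h
    let rep : G → G := fun z => (Quotient.mk (QuotientGroup.rightRel (Gam g w)) z).out
    have hr : ∀ z, z * (rep z)⁻¹ ∈ Gam g w := fun z =>
      QuotientGroup.rightRel_apply.1 (Quotient.mk_out (s := QuotientGroup.rightRel (Gam g w)) z)
    refine ⟨fun y => χ ⟨_, hr y⟩, fun t => if k : t ∈ Gam g w then χ ⟨t, k⟩ else 0,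
      fun t ht y => ?_, fun _ _ => (dif_pos (g_mem h)).trans h1⟩
    have e : rep (t * y) = rep y := congrArg Quotient.out
      (Quotient.sound (QuotientGroup.rightRel_apply.2 (by simpa using ht)))
    simp only [dif_pos ht, ← h2]
    exact congrArg χ (Subtype.ext (by simp [e, mul_assoc]))
  · exact ⟨0, 0, by simp, fun n k => absurd ⟨n, k⟩ h⟩

theorem dir {η χ : G → ℝ} (hη : ∀ t ∈ Gam g w, ∀ y, η (t * y) = χ t + η y) (n : ℕ)
    (B U : Finset G) (P : ℤ) : ∃ i : ℕ, (1 ≤ i ∧ i ≤ 6 ^ (n * 2 ^ B.card * U.card)) ∧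
      (Ok g n w → ∀ y ∈ w.2, (∀ a ∈ w.1, y⁻¹ * a * y ∈ B) → ∀ u ∈ U,
        ∃ k : ℤ, |(i : ℝ) * P * (η y - η (y * u)) - k| ≤ 1 / 6) := by
  by_cases h : Ok g n w
  swap
  · exact ⟨1, ⟨le_rfl, Nat.one_le_pow _ _ (by norm_num)⟩, fun k => absurd k h⟩
  obtain ⟨-, -, -, -, X, h4, h5⟩ := id h
  let R : G × Finset G → G → Prop := fun q y => y * q.1⁻¹ ∈ Subgroup.closure w.1 ∧
    ∀ a, a ∈ w.1 ↔ y⁻¹ * a * y ∈ q.2
  let r : G × Finset G → G := fun q => @Classical.epsilon G ⟨1⟩ (R q)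
  obtain ⟨i, i1, i2, hi⟩ := GeoAux.dirichlet ((X ×ˢ B.powerset) ×ˢ U)
    (fun q => P * (η (r q.1) - η (r q.1 * q.2))) (n * 2 ^ B.card * U.card) (by
      rw [card_product, card_product, card_powerset]
      gcongr)
  refine ⟨i, ⟨i1, i2⟩, fun _ y hy hB u hu => ?_⟩
  obtain ⟨x, hx, e⟩ := (h5 y).1 hy
  have k : R (x, B.filter fun b => y * b * y⁻¹ ∈ w.1) y := ⟨e, fun a => by
    simp only [mem_filter, mul_assoc, mul_inv_cancel, mul_one, mul_inv_cancel_left]
    exact ⟨fun k => ⟨by simpa [mul_assoc] using hB a k, k⟩, And.right⟩⟩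
  obtain ⟨k', hk⟩ := hi ((x, B.filter fun b => y * b * y⁻¹ ∈ w.1), u)
    (by simp [hx, hu, filter_subset])
  have k1 : R _ (r _) := Classical.epsilon_spec ⟨y, k⟩
  set z := r (x, B.filter fun b => y * b * y⁻¹ ∈ w.1)
  have t : y * z⁻¹ ∈ Gam g w := mem_gam h (by simpa [mul_assoc] using mul_mem k.1 (inv_mem k1.1))
    fun a => by rw [k1.2, k.2 a]; simp [mul_assoc]
  have e1 := hη _ t z
  have e2 := hη _ t (z * u)
  rw [inv_mul_cancel_right] at e1
  rw [← mul_assoc, inv_mul_cancel_right] at e2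
  exact ⟨k', by rwa [e1, e2, add_sub_add_left_eq_sub, mul_assoc]⟩

/-- A representative of the orbit under the centraliser. -/
noncomputable def o (g : G) (w : Set G × Set G) : Set G × Set G :=
  Classical.epsilon fun w' => ∃ c, c * g = g * c ∧ w = act c w'

theorem o_spec (g : G) (w : Set G × Set G) : ∃ c, c * g = g * c ∧ w = act c (o g w) :=
  Classical.epsilon_spec (p := fun w' => ∃ c, c * g = g * c ∧ w = act c w')
    ⟨w, 1, by simp, (act_one w).symm⟩

theorem o_act {c : G} (hc : c * g = g * c) (w : Set G × Set G) : o g (act c w) = o g w := by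
  have hc' : Commute c g := hc
  refine congrArg Classical.epsilon (funext fun w' => propext ⟨?_, ?_⟩)
  · rintro ⟨d, hd, e⟩
    exact ⟨c⁻¹ * d, hc'.inv_left.mul_left hd, by rw [act_mul, ← e, act_inv]⟩
  · rintro ⟨d, hd, e⟩
    exact ⟨c * d, hc'.mul_left hd, by rw [act_mul, ← e]⟩

theorem bound (η : Set G × Set G → G → ℝ) (H : ∀ c, c * g = g * c → ∀ w y y',
    η (act c w) (c * y) - η (act c w) (c * y') = η w y - η w y') (V : Finset G) :
    ∃ M, 0 ≤ M ∧ ∀ w y, y⁻¹ * g * y ∈ V → (∀ a ∈ w.1, y⁻¹ * a * y ∈ V) →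
      (∃ X ⊆ V, ∀ z, z ∈ w.2 ↔ ∃ x ∈ X, z * (y * x)⁻¹ ∈ Subgroup.closure w.1) →
      ∀ v ∈ V, |η w y - η w (y * v)| ≤ M := by
  let r : G → G := fun h => @Classical.epsilon G ⟨1⟩ fun y => y⁻¹ * g * y = h
  let W : Finset G × Finset G → Set G × Set G := fun q =>
    (q.1, {z | ∃ x ∈ q.2, z * x⁻¹ ∈ Subgroup.closure (q.1 : Set G)})
  let f : (G × G) × Finset G × Finset G → ℝ := fun q =>
    |η (act (r q.1.1) (W q.2)) (r q.1.1) - η (act (r q.1.1) (W q.2)) (r q.1.1 * q.1.2)|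
  refine ⟨∑ q ∈ (V ×ˢ V) ×ˢ V.powerset ×ˢ V.powerset, f q, sum_nonneg fun _ _ => abs_nonneg _, ?_⟩
  rintro w y h1 h2 ⟨X, h3, h4⟩ v hv
  have k : (r (y⁻¹ * g * y))⁻¹ * g * r (y⁻¹ * g * y) = y⁻¹ * g * y :=
    Classical.epsilon_spec (p := fun z => z⁻¹ * g * z = y⁻¹ * g * y) ⟨y, rfl⟩
  have e1 : ((V.filter fun b => y * b * y⁻¹ ∈ w.1 : Finset G) : Set G) = (act y⁻¹ w).1 := by
    ext b
    simp only [coe_filter, act, inv_inv, Set.mem_setOf_eq, and_iff_right_iff_imp]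
    exact fun k => by simpa [mul_assoc] using h2 _ k
  have e2 : W (V.filter fun b => y * b * y⁻¹ ∈ w.1, X) = act y⁻¹ w := Prod.ext e1 (by
    ext z
    simp only [W, e1, mem_cl]
    simp [act, h4, mul_assoc])
  refine le_trans (le_of_eq ?_) (single_le_sum (f := f) (fun _ _ => abs_nonneg _)
    (a := ((y⁻¹ * g * y, v), V.filter fun b => y * b * y⁻¹ ∈ w.1, X))
    (by simp [h1, hv, h3, filter_subset]))
  simp only [f, e2]
  generalize r (y⁻¹ * g * y) = z at k
  rw [← act_mul, ← H (z * y⁻¹) (by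
    rw [mul_assoc, mul_assoc, inv_mul_eq_iff_eq_mul] at k
    rw [← mul_assoc g, k]
    simp [mul_assoc]) w y (y * v)]
  simp [mul_assoc]

end Chi

open Chi in
/-- The height functions. -/
theorem height (g : G) (hg : orderOf g = 0) : ∃ η : Set G × Set G → G → ℝ,
    (∀ c, c * g = g * c → ∀ w y y',
      η (act c w) (c * y) - η (act c w) (c * y') = η w y - η w y') ∧
    (∀ n w, Ok g n w → ∀ y, η w (g * y) = η w y + 1) ∧
    (∀ (n : ℕ) (B U : Finset G) (P : ℤ), ∃ i : Set G × Set G → ℕ,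
      (∀ w, 1 ≤ i w ∧ i w ≤ 6 ^ (n * 2 ^ B.card * U.card)) ∧
      (∀ c, c * g = g * c → ∀ w, i (act c w) = i w) ∧
      ∀ w, Ok g n w → ∀ y ∈ w.2, (∀ a ∈ w.1, y⁻¹ * a * y ∈ B) → ∀ u ∈ U,
        ∃ k : ℤ, |(i w : ℝ) * P * (η w y - η w (y * u)) - k| ≤ 1 / 6) ∧
    ∀ V : Finset G, ∃ M, 0 ≤ M ∧ ∀ w y, y⁻¹ * g * y ∈ V → (∀ a ∈ w.1, y⁻¹ * a * y ∈ V) →
      (∃ X ⊆ V, ∀ z, z ∈ w.2 ↔ ∃ x ∈ X, z * (y * x)⁻¹ ∈ Subgroup.closure w.1) →
      ∀ v ∈ V, |η w y - η w (y * v)| ≤ M := by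
  choose η χ h1 h2 using ex_eta hg
  choose c hc e using o_spec g
  have hc' : ∀ w, Commute (c w) g := hc
  have eo : ∀ w, o g w = act (c w)⁻¹ w := fun w => by
    nth_rw 3 [e w]
    rw [act_inv]
  have ok : ∀ n w, Ok g n w → Ok g n (o g w) := fun n w h => eo w ▸ h.act (hc' w).inv_left
  have H : ∀ d, d * g = g * d → ∀ w y y',
      η (o g (act d w)) ((c (act d w))⁻¹ * (d * y)) - η (o g (act d w)) ((c (act d w))⁻¹ * (d * y')) =
        η (o g w) ((c w)⁻¹ * y) - η (o g w) ((c w)⁻¹ * y') := fun d hd w y y' => by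
    have t : (c (act d w))⁻¹ * d * c w ∈ Gam g (o g w) :=
      ⟨by rw [act_mul, ← e, act_mul, ← eo, o_act hd], fun k _ =>
        ((((hc' _).inv_left.mul_left hd).mul_left (hc' w)).pow_right k).symm⟩
    have k := fun y => h1 _ _ t ((c w)⁻¹ * y)
    simp only [mul_assoc, mul_inv_cancel_left] at k
    rw [o_act hd, k, k, add_sub_add_left_eq_sub]
  refine ⟨fun w y => η (o g w) ((c w)⁻¹ * y), H, fun n w h y => ?_, fun n B U P => ?_,
    bound _ H⟩
  · simp only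
    rw [← mul_assoc, (hc' w).inv_left.eq, mul_assoc, h1 _ _ (g_mem (ok n w h)), h2 _ n (ok n w h),
      add_comm]
  · choose i i1 i2 using fun w => dir (h1 w) n B U P
    refine ⟨fun w => i (o g w), fun w => i1 _, fun d hd w => congrArg i (o_act hd w),
      fun w h y hy hB u hu => ?_⟩
    simp only [← mul_assoc (c w)⁻¹]
    refine i2 _ (ok n w h) _ (by simpa [eo, act] using hy) (fun a ha => ?_) u hu
    rw [eo] at ha
    simpa [mul_assoc] using hB _ ha

end Pool.Agent.Lib.MP_7903c7_al.F
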