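import Mathlib

set_option autoImplicit false

/-!
Random labels with a truncated geometric law, and a union bound.
-/

namespace Pool.Agent.Lib.MP_7903c7_al.F

open Finset
open scoped Classical

namespace Lab

/-- The tail of the law. -/
noncomputable def tl (z : ℝ) (m y : ℕ) : ℝ := if y ≤ m then ((1 + 1 / z) ^ y)⁻¹ else 0

/-- The law. -/
noncomputable def pr (z : ℝ) (m y : ℕ) : ℝ := tl z m y - tl z m (y + 1)

theorem tl_le {z : ℝ} (hz : 0 < z) (m : ℕ) {a y : ℕ} (h : a ≤ y) :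
    tl z m y ≤ ((1 + 1 / z) ^ a)⁻¹ := by
  unfold tl
  split_ifs
  · exact inv_anti₀ (by positivity) (pow_le_pow_right₀ (le_add_of_nonneg_right (by positivity)) h)
  · positivity

theorem pr_nonneg {z : ℝ} (hz : 0 < z) (m : ℕ) (y : Fin (m + 1)) : 0 ≤ pr z m y := by
  rw [pr, tl, if_pos (Nat.lt_succ_iff.1 y.2), sub_nonneg]
  exact tl_le hz m (Nat.le_succ _)

theorem sum_pr (z : ℝ) (m a : ℕ) :
    ∑ y : Fin (m + 1), pr z m y * (if a ≤ (y : ℕ) then 1 else 0) = tl z m a := by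
  rw [Fin.sum_univ_eq_sum_range (fun y => pr z m y * if a ≤ y then 1 else 0)]
  have k : ∀ n, ∑ y ∈ range n, pr z m y * (if a ≤ y then 1 else 0) =
      tl z m a - tl z m (max a n) := fun n => by
    induction n with
    | zero => simp
    | succ n ih =>
      rw [sum_range_succ, ih]
      split_ifs with h
      · rw [max_eq_right h, max_eq_right (by omega), pr]; ring
      · rw [max_eq_left (by omega), max_eq_left (by omega)]; ring
  rw [k, tl.eq_1 z m (max _ _), if_neg (by omega), sub_zero]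

theorem pow_le {t : ℝ} (h0 : 0 ≤ t) (h1 : t ≤ 1) (k : ℕ) : (1 + t) ^ k ≤ 1 + (2 ^ k - 1) * t := by
  induction k with
  | zero => simp
  | succ k ih =>
    have a : (1 : ℝ) ≤ 2 ^ k := one_le_pow₀ one_le_two
    have b := mul_le_mul_of_nonneg_right ih (show 0 ≤ 1 + t by linarith)
    rw [pow_succ, pow_succ]
    nlinarith [mul_nonneg (mul_nonneg (sub_nonneg.2 a) h0) (sub_nonneg.2 h1)]

/-- The weight. -/
noncomputable def wg (a : ℝ) (lo hi y : ℕ) : ℝ :=
  Real.exp (Real.log (1 + a) * (if lo ≤ y then 1 else 0) -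
    (Real.log (1 + a) + Real.log 2) * if hi ≤ y then 1 else 0)

theorem wg_eq {a : ℝ} (ha : 0 ≤ a) {lo hi : ℕ} (h : lo ≤ hi) (y : ℕ) : wg a lo hi y =
    1 + a * (if lo ≤ y then 1 else 0) - (a + 1 / 2) * if hi ≤ y then 1 else 0 := by
  unfold wg
  split_ifs with h1 h2 h2
  · rw [mul_one, mul_one, sub_add_cancel_left, Real.exp_neg, Real.exp_log two_pos]; ring
  · rw [mul_one, mul_zero, sub_zero, Real.exp_log (by linarith)]; ring
  · omega
  · simp

theorem mean {z h j lo hi : ℕ} (hz : 64 ≤ z) (hz' : z ≤ 2 ^ h) (hj : j ≤ h + 1) (h1 : lo ≤ hi)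
    (h2 : hi ≤ lo + (j + 5)) :
    ∑ y : Fin (z * (2 * h) + h + 5 + 1), pr z (z * (2 * h) + h + 5) y *
      wg (z / 2 ^ (j + 6)) lo hi y ≤ 1 + 1 / 2 ^ h := by
  set m := z * (2 * h) + h + 5 with hm
  have z1 : (64 : ℝ) ≤ z := by exact_mod_cast hz
  have z0 : (0 : ℝ) < z := by linarith
  set a : ℝ := z / 2 ^ (j + 6) with ha
  have a0 : 0 ≤ a := by positivity
  have e : ∑ y : Fin (m + 1), pr z m y * wg a lo hi y =
      1 + a * tl z m lo - (a + 1 / 2) * tl z m hi := by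
    have e0 : tl z m 0 = 1 := by simp [tl]
    refine Eq.trans ?_ (congrArg (· + a * tl z m lo - (a + 1 / 2) * tl z m hi) e0)
    rw [← sum_pr, ← sum_pr, ← sum_pr, mul_sum, mul_sum, ← sum_add_distrib, ← sum_sub_distrib]
    exact sum_congr rfl fun y _ => by rw [wg_eq a0 h1, if_pos (Nat.zero_le _)]; ring
  rw [e]
  have t0 : (0 : ℝ) ≤ 1 / z := by positivity
  by_cases c : hi ≤ m
  · obtain ⟨d, rfl⟩ := Nat.exists_eq_add_of_le h1
    have k := (pow_le_pow_right₀ (le_add_of_nonneg_right t0) (show d ≤ j + 5 by omega)).trans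
      (pow_le t0 ((div_le_one z0).2 (by linarith)) (j + 5))
    have e1 : tl z m lo = (1 + 1 / z) ^ d * tl z m (lo + d) := by
      rw [tl, tl, if_pos c, if_pos (by omega), pow_add]
      field_simp
    have p0 : 0 ≤ tl z m (lo + d) := by rw [tl, if_pos c]; positivity
    have e2 : a * (2 ^ (j + 5) * (1 / z)) = 1 / 2 := by
      rw [ha, pow_succ _ (j + 5)]
      field_simp
    have k2 : a * (1 + 1 / z) ^ d ≤ a + 1 / 2 := by
      nlinarith [mul_le_mul_of_nonneg_left k a0, mul_nonneg a0 t0]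
    have : (0 : ℝ) ≤ 1 / 2 ^ h := by positivity
    rw [e1]
    nlinarith [mul_le_mul_of_nonneg_right k2 p0]
  · rw [tl.eq_1 z m hi, if_neg c, mul_zero, sub_zero, add_le_add_iff_left]
    have k1 : (2 : ℝ) ≤ (1 + 1 / z) ^ z := by
      have := one_add_mul_le_pow (show (-2 : ℝ) ≤ 1 / z by linarith) z
      rwa [mul_one_div_cancel z0.ne', one_add_one_eq_two] at this
    have k2 : ((1 + 1 / (z : ℝ)) ^ (z * (2 * h)))⁻¹ ≤ (2 ^ h * 2 ^ h)⁻¹ := by
      rw [pow_mul, ← pow_add, ← two_mul]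
      exact inv_anti₀ (by positivity) (pow_le_pow_left₀ zero_le_two k1 _)
    have k3 : a ≤ 2 ^ h := (div_le_self z0.le (one_le_pow₀ one_le_two)).trans (by exact_mod_cast hz')
    refine (mul_le_mul_of_nonneg_left ((tl_le z0 m (by omega)).trans k2) a0).trans
      ((mul_le_mul_of_nonneg_right k3 (by positivity)).trans_eq ?_)
    field_simp

theorem win (t : ℝ) (j : ℕ) : ∃ lo hi : ℕ, lo ≤ hi ∧ hi ≤ lo + (j + 5) ∧
    (∀ y : ℕ, t - (j + 1) ≤ y ↔ lo ≤ y) ∧ ∀ y : ℕ, t + 3 < y ↔ hi ≤ y := by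
  have ex := exists_nat_gt (t + 3)
  have j0 : (0 : ℝ) ≤ j := Nat.cast_nonneg j
  have k : ∀ y : ℕ, t + 3 < y ↔ Nat.find ex ≤ y := fun y =>
    ⟨fun h => Nat.find_min' ex h, fun h => (Nat.find_spec ex).trans_le (Nat.cast_le.2 h)⟩
  refine ⟨⌈t - (j + 1)⌉₊, Nat.find ex, Nat.ceil_le.2 ?_, (k _).1 ?_, fun y => Nat.ceil_le.symm, k⟩
  · linarith [Nat.find_spec ex]
  · push_cast
    linarith [Nat.le_ceil (t - (j + 1))]

theorem big {z : ℝ} (hz : 64 ≤ z) (i : ℕ) {s n A U : ℝ} (h1 : s * 4 ^ i ≤ n) (h2 : n / 2 ≤ A)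
    (h3 : 0 ≤ U) (h4 : U ≤ n / 4 ^ (i + 1 + 1)) :
    Real.log (1 + z / 128) * (s / 4) ≤ Real.log (1 + z / 2 ^ (i + 1 + 6)) * A -
      (Real.log (1 + z / 2 ^ (i + 1 + 6)) + Real.log 2) * U := by
  set a := z / 2 ^ (i + 1 + 6) with ha
  have a0 : 0 ≤ a := by positivity
  have t1 : (1 : ℝ) ≤ 2 ^ i := one_le_pow₀ one_le_two
  have e4 : (4 : ℝ) ^ i = 2 ^ i * 2 ^ i := by rw [← mul_pow]; norm_num
  have ea : 2 ^ i * a = z / 128 := by
    rw [ha, show i + 1 + 6 = i + 7 from rfl, pow_add]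
    field_simp
    norm_num
  have be : ∀ k : ℕ, Real.log (1 + 4 ^ k * a) ≤ 4 ^ k * Real.log (1 + a) := fun k => by
    have := Real.log_le_log (by positivity) (one_add_mul_le_pow (show -2 ≤ a by linarith) (4 ^ k))
    rw [Real.log_pow] at this
    exact_mod_cast this
  have l0 : 0 ≤ Real.log (1 + a) := Real.log_nonneg (by linarith)
  have b1 : Real.log (1 + z / 128) ≤ 4 ^ i * Real.log (1 + a) := by
    refine (Real.log_le_log (by positivity) ?_).trans (be i)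
    rw [e4, mul_assoc, ea]
    nlinarith
  have b2 : Real.log (1 + a) + Real.log 2 ≤ 4 ^ (i + 1) * Real.log (1 + a) := by
    rw [← Real.log_mul (by positivity) two_ne_zero]
    refine (Real.log_le_log (by positivity) ?_).trans (be (i + 1))
    have : a ≤ z / 128 := ea ▸ le_mul_of_one_le_left a0 t1
    rw [pow_succ, e4, mul_right_comm, mul_assoc _ _ a, ea]
    nlinarith
  rw [le_div_iff₀ (by positivity), pow_succ] at h4
  have n0 : 0 ≤ n := le_trans (by positivity) h4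
  have b3 : Real.log (1 + z / 128) * s ≤ Real.log (1 + a) * n := by
    rcases le_total 0 s with c | c
    · nlinarith [mul_le_mul_of_nonneg_right b1 c, mul_le_mul_of_nonneg_left h1 l0]
    · exact (mul_nonpos_of_nonneg_of_nonpos (Real.log_nonneg (by linarith)) c).trans (by positivity)
  nlinarith [mul_le_mul_of_nonneg_right b2 h3, mul_le_mul_of_nonneg_left h4 l0,
    mul_le_mul_of_nonneg_left h2 l0]

theorem pow_le3 {D : ℝ} {m : ℕ} (hD : 0 < D) (hm : (m : ℝ) ≤ D) : (1 + 1 / D) ^ m ≤ 3 := by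
  have h1 : (1 + 1 / D) ^ m ≤ Real.exp (1 / D) ^ m :=
    pow_le_pow_left₀ (by positivity) (by linarith [Real.add_one_le_exp (1 / D)]) m
  rw [← Real.exp_nat_mul, mul_one_div] at h1
  linarith [Real.exp_le_exp.2 ((div_le_one hD).2 hm), Real.exp_one_lt_d9]

end Lab

open Lab in
/-- Labels that avoid the bad events of all data. -/
theorem labels (Q D : Type) [Fintype Q] (h z : ℕ) (hz : 64 ≤ z) (hz' : z ≤ 2 ^ h)
    (hQ : Fintype.card Q ≤ 2 ^ h) (DD : Finset D) (s : D → ℝ) (th : D → Q → ℝ)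
    (hs : ∑ d ∈ DD, 3 * ((h : ℝ) + 1) / (1 + (z : ℝ) / 128) ^ (s d / 4) < 1) :
    ∃ Y : Q → ℕ, (∀ q, Y q ≤ 4 * z * h) ∧ ∀ d ∈ DD, ∀ j ∈ Icc 1 (h + 1), ∀ n : ℝ,
      s d * 4 ^ (j - 1) ≤ n →
      n / 2 ≤ ((univ.filter fun q => th d q - (j + 1) ≤ Y q).card : ℝ) →
      n / 4 ^ (j + 1) < ((univ.filter fun q => th d q + 3 < Y q).card : ℝ) := by
  by_contra con
  push Not at con
  set m := z * (2 * h) + h + 5 with hm
  have z1 : (64 : ℝ) ≤ z := by exact_mod_cast hz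
  have z0 : (0 : ℝ) < z := by linarith
  have hm' : m ≤ 4 * z * h := by
    rcases h with _ | h
    · omega
    · rw [hm]; nlinarith
  choose lo hi w1 w2 w3 w4 using win
  let P : (Q → Fin (m + 1)) → ℝ := fun φ => ∏ q, pr z m (φ q)
  let W : D → ℕ → (Q → Fin (m + 1)) → ℝ := fun d j φ =>
    ∏ q, wg (z / 2 ^ (j + 6)) (lo (th d q) j) (hi (th d q) j) (φ q)
  let Z : D → ℝ := fun d => (1 + (z : ℝ) / 128) ^ (s d / 4)
  have Z0 : ∀ d, 0 < Z d := fun d => by positivity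
  have P0 : ∀ φ, 0 ≤ P φ := fun φ => prod_nonneg fun q _ => pr_nonneg z0 m _
  have W0 : ∀ d j φ, 0 ≤ W d j φ / Z d := fun d j φ =>
    div_nonneg (prod_nonneg fun q _ => (Real.exp_pos _).le) (Z0 d).le
  have P1 : ∑ φ, P φ = 1 := by
    have := sum_pr z m 0
    simp only [Nat.zero_le, if_true, mul_one, tl, pow_zero, inv_one] at this
    rw [← Fintype.piFinset_univ, ← prod_univ_sum (fun _ => univ) fun (_ : Q) (y : Fin (m + 1)) =>
      pr z m y]
    simp [this]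
  have E : ∀ d, ∀ j ∈ Icc 1 (h + 1), ∑ φ, P φ * W d j φ ≤ 3 := fun d j hj => by
    simp only [P, W, ← prod_mul_distrib]
    rw [← Fintype.piFinset_univ, ← prod_univ_sum (fun _ => univ) fun (q : Q) (y : Fin (m + 1)) =>
      pr z m y * wg (z / 2 ^ (j + 6)) (lo (th d q) j) (hi (th d q) j) y]
    refine (prod_le_prod (fun q _ => sum_nonneg fun y _ =>
      mul_nonneg (pr_nonneg z0 m _) (Real.exp_pos _).le) fun q _ =>
        mean hz hz' (mem_Icc.1 hj).2 (w1 _ _) (w2 _ _)).trans ?_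
    rw [prod_const, card_univ]
    exact pow_le3 (by positivity) (by exact_mod_cast hQ)
  have B : ∀ φ, 1 ≤ ∑ d ∈ DD, ∑ j ∈ Icc 1 (h + 1), W d j φ / Z d := fun φ => by
    obtain ⟨d, hd, j, hj, n, h1, h2, h3⟩ := con (fun q => φ q) fun q =>
      (Nat.lt_succ_iff.1 (φ q).2).trans hm'
    refine le_trans ?_ ((single_le_sum (fun j _ => W0 d j φ) hj).trans
      (single_le_sum (f := fun d => ∑ j ∈ Icc 1 (h + 1), W d j φ / Z d)
        (fun d _ => sum_nonneg fun j _ => W0 d j φ) hd))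
    obtain ⟨i, rfl⟩ : ∃ i, j = i + 1 := ⟨j - 1, by have := (mem_Icc.1 hj).1; omega⟩
    rw [one_le_div (Z0 d)]
    simp only [Z, W, wg]
    rw [Real.rpow_def_of_pos (by positivity), ← Real.exp_sum, Real.exp_le_exp, sum_sub_distrib,
      ← mul_sum, ← mul_sum, sum_boole, sum_boole]
    simp only [w3 _ (i + 1), w4 _ (i + 1)] at h2 h3
    exact big z1 i h1 h2 (Nat.cast_nonneg _) h3
  refine hs.not_ge ?_
  calc (1 : ℝ) = ∑ φ, P φ := P1.symm
    _ ≤ ∑ φ, P φ * ∑ d ∈ DD, ∑ j ∈ Icc 1 (h + 1), W d j φ / Z d :=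
        sum_le_sum fun φ _ => le_mul_of_one_le_right (P0 φ) (B φ)
    _ = ∑ d ∈ DD, ∑ j ∈ Icc 1 (h + 1), (∑ φ, P φ * W d j φ) / Z d := by
        simp only [mul_sum, sum_div, mul_div_assoc]
        rw [sum_comm]
        exact sum_congr rfl fun d _ => sum_comm
    _ ≤ _ := sum_le_sum fun d _ => by
        refine (sum_le_sum fun j hj => div_le_div_of_nonneg_right (E d j hj) (Z0 d).le).trans_eq ?_
        rw [sum_const, Nat.card_Icc, nsmul_eq_mul]
        push_cast [Z]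
        ring

end Pool.Agent.Lib.MP_7903c7_al.F
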