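import Mathlib

set_option autoImplicit false

/-!
Random rounding of soft maxima: some outcome of an unbiased estimator keeps half of the leading
names and promotes few others.
-/

namespace Pool.Agent.Lib.MP_7903c7_al.F

open Finset
open scoped Classical

/-- The soft maximum with a floor. -/
noncomputable def sm {C : Type} (b f : ℝ) (A : Finset C) (x : C → ℝ) : ℝ :=
  Real.log (f + ∑ c ∈ A, Real.exp (b * x c)) / b

namespace Round

theorem hoeff {W : Type} [Fintype W] (X : W → ℝ) (r t : ℝ) (h0 : ∑ x, X x = 0)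
    (hr : ∀ x, |X x| ≤ r) :
    ∑ x, Real.exp (t * X x) ≤ Fintype.card W * Real.exp (t ^ 2 * r ^ 2 / 2) := by
  have hc : Real.cosh (t * r) ≤ Real.exp (t ^ 2 * r ^ 2 / 2) := by
    simpa [mul_pow] using Real.cosh_le_exp_half_sq (t * r)
  have key : ∀ x, Real.exp (t * X x) ≤ Real.cosh (t * r) + X x * (Real.sinh (t * r) / r) := by
    intro x
    have h := abs_le.1 (hr x)
    rcases (abs_nonneg _).trans (hr x) |>.eq_or_lt with h1 | h1
    · have : X x = 0 := by linarith [h.1, h.2]
      simp [this, Real.one_le_cosh]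
    · have := convexOn_exp.2 (Set.mem_univ (t * r)) (Set.mem_univ (-(t * r)))
        (show 0 ≤ (r + X x) / (2 * r) from div_nonneg (by linarith [h.1]) (by linarith))
        (show 0 ≤ (r - X x) / (2 * r) from div_nonneg (by linarith [h.2]) (by linarith))
        (by field_simp; ring)
      simp only [smul_eq_mul] at this
      rw [show (r + X x) / (2 * r) * (t * r) + (r - X x) / (2 * r) * -(t * r) = t * X x by
        field_simp; ring] at this
      refine this.trans (le_of_eq ?_)
      rw [Real.cosh_eq, Real.sinh_eq]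
      field_simp
      ring
  refine (sum_le_sum fun x _ => key x).trans ?_
  rw [sum_add_distrib, ← sum_mul, h0, zero_mul, add_zero, sum_const, card_univ, nsmul_eq_mul]
  gcongr

theorem prod_le {I : Type} [Fintype I] (W : I → Type) [∀ i, Fintype (W i)]
    (X : ∀ i, W i → ℝ) (r : I → ℝ) (t : ℝ) (h0 : ∀ i, ∑ x, X i x = 0)
    (hr : ∀ i x, |X i x| ≤ r i) (ht : t ^ 2 * ∑ i, r i ^ 2 ≤ 1) :
    ∑ w : ∀ i, W i, Real.exp (t * ∑ i, X i (w i)) ≤
      Fintype.card (∀ i, W i) * Real.exp (1 / 2) := by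
  have e : ∑ w : ∀ i, W i, Real.exp (t * ∑ i, X i (w i)) =
      ∏ i, ∑ x, Real.exp (t * X i x) := by
    rw [prod_univ_sum, Fintype.piFinset_univ]
    refine sum_congr rfl fun w _ => ?_
    rw [mul_sum, Real.exp_sum]
  rw [e]
  refine (prod_le_prod (fun i _ => sum_nonneg fun x _ => (Real.exp_pos _).le)
    fun i _ => hoeff (X i) (r i) t (h0 i) (hr i)).trans ?_
  rw [prod_mul_distrib, ← Real.exp_sum, Fintype.card_pi, Nat.cast_prod]
  gcongr
  rw [← sum_div, ← mul_sum]
  linarith

/-- Markov. -/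
theorem markov {Ω : Type} [Fintype Ω] (Z : Ω → ℝ) (h0 : ∀ w, 0 ≤ Z w) (K B : ℝ) (hK : 0 < K)
    (h : ∑ w, Z w ≤ B) (p : Ω → Prop) (hp : ∀ w, p w → K ≤ Z w) :
    ((univ.filter p).card : ℝ) ≤ B / K := by
  rw [le_div_iff₀ hK]
  refine le_trans ?_ h
  calc ((univ.filter p).card : ℝ) * K = ∑ _w ∈ univ.filter p, K := by simp
    _ ≤ ∑ w ∈ univ.filter p, Z w := sum_le_sum fun w hw => hp w (mem_filter.1 hw).2
    _ ≤ _ := sum_le_sum_of_subset_of_nonneg (filter_subset _ _) fun w _ _ => h0 w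

/-- Both tails of the estimated soft maximum. -/
theorem tails {Ω C : Type} [Fintype Ω] (A : Finset C) (f b E : ℝ) (hf : 0 < f) (hb : 0 < b)
    (hE : 1 ≤ E) (x : C → ℝ) (y : Ω → C → ℝ)
    (h1 : ∀ c ∈ A, ∑ w, Real.exp (b * (y w c - x c)) ≤ Fintype.card Ω * E)
    (h2 : ∀ c ∈ A, ∑ w, Real.exp (-b * (y w c - x c)) ≤ Fintype.card Ω * E) (v : ℝ) :
    ((univ.filter fun w => sm b f A x + v < sm b f A (y w)).card : ℝ) ≤
      Fintype.card Ω * E / Real.exp (b * v) ∧
    ((univ.filter fun w => sm b f A (y w) < sm b f A x - v).card : ℝ) ≤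
      Fintype.card Ω * E / Real.exp (b * v) := by
  have pos : ∀ z : C → ℝ, 0 < f + ∑ c ∈ A, Real.exp (b * z c) := fun z =>
    add_pos_of_pos_of_nonneg hf (sum_nonneg fun c _ => (Real.exp_pos _).le)
  set Z := f + ∑ c ∈ A, Real.exp (b * x c) with hZ
  have Z0 : 0 < Z := pos x
  have mean : ∀ z : Ω → C → ℝ,
      (∀ c ∈ A, ∑ w, Real.exp (b * (z w c - x c)) ≤ Fintype.card Ω * E) →
      ∑ w, (f + ∑ c ∈ A, Real.exp (b * z w c)) ≤ Fintype.card Ω * E * Z := by
    intro z hz
    rw [sum_add_distrib, sum_comm, hZ, mul_add, mul_sum]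
    refine add_le_add ?_ (sum_le_sum fun c hc => ?_)
    · rw [sum_const, card_univ, nsmul_eq_mul]
      gcongr
      exact le_mul_of_one_le_right (Nat.cast_nonneg _) hE
    · refine le_trans (le_of_eq ?_) (mul_le_mul_of_nonneg_right (hz c hc) (Real.exp_pos _).le)
      rw [sum_mul]
      refine sum_congr rfl fun w _ => ?_
      rw [← Real.exp_add]
      congr 1
      ring
  have fin : Fintype.card Ω * E * Z / (Real.exp (b * v) * Z) =
      Fintype.card Ω * E / Real.exp (b * v) := by field_simp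
  have up : ∀ {P R : ℝ}, 0 < P → 0 < R → Real.log P / b + v < Real.log R / b →
      Real.exp (b * v) * P ≤ R := by
    intro P R hP hR h
    rw [div_add' _ _ _ hb.ne', div_lt_div_iff_of_pos_right hb] at h
    have := Real.exp_le_exp.2 h.le
    rwa [Real.exp_add, Real.exp_log hP, Real.exp_log hR, mul_comm, mul_comm v] at this
  constructor
  · rw [← fin]
    exact markov _ (fun w => (pos (y w)).le) _ _ (by positivity) (mean y h1) _
      fun w hw => up Z0 (pos _) hw
  · rw [← fin]
    refine markov (fun w => f + ∑ c ∈ A, Real.exp (b * (2 * x c - y w c)))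
      (fun w => (pos fun c => 2 * x c - y w c).le) _ _ (by positivity)
      (mean (fun w c => 2 * x c - y w c) fun c hc => ?_) _ fun w hw => ?_
    · refine le_trans (le_of_eq (sum_congr rfl fun w _ => ?_)) (h2 c hc)
      congr 1
      ring
    · have h := up (pos (y w)) Z0 (lt_sub_iff_add_lt.1 hw)
      set l := Real.exp (b * v)
      have l0 : 0 < l := Real.exp_pos _
      have am : ∀ p q : ℝ, 0 ≤ p → 0 ≤ q → 2 * l * (p * q) ≤ l ^ 2 * p ^ 2 + q ^ 2 :=
        fun p q _ _ => by nlinarith [sq_nonneg (l * p - q)]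
      have s : ∑ c ∈ A, 2 * l * Real.exp (b * x c) ≤ ∑ c ∈ A, (l ^ 2 * Real.exp (b * y w c) +
          Real.exp (b * (2 * x c - y w c))) := by
        refine sum_le_sum fun c _ => ?_
        have := am (Real.exp (b * y w c / 2)) (Real.exp (b * (2 * x c - y w c) / 2))
          (Real.exp_pos _).le (Real.exp_pos _).le
        rwa [← Real.exp_add, sq (Real.exp (_ / 2)), sq (Real.exp (_ / 2)), ← Real.exp_add,
          ← Real.exp_add, add_halves, add_halves,
          show b * y w c / 2 + b * (2 * x c - y w c) / 2 = b * x c by ring] at this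
      rw [sum_add_distrib, ← mul_sum, ← mul_sum] at s
      have h' := mul_le_mul_of_nonneg_left h l0.le
      rw [hZ] at h' ⊢
      nlinarith [mul_nonneg hf.le (sq_nonneg (l - 1))]

/-- The choice of the scale and of the outcome. -/
theorem select {Ω Q : Type} [Fintype Ω] [Nonempty Ω] [Fintype Q] (x : Q → ℝ) (y : Ω → Q → ℝ)
    (s : ℝ) (h : ℕ) (hs : 0 < s) (hQ : Fintype.card Q ≤ 2 ^ h) (hx : ∀ q, x q ≤ 0)
    (h1 : s ≤ (univ.filter fun q => -1 ≤ x q).card)
    (lo : ∀ q, ((univ.filter fun w => y w q < x q - 1).card : ℝ) ≤ Fintype.card Ω / 16)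
    (hi : ∀ q (i : ℕ), ((univ.filter fun w => x q + (i + 2) < y w q).card : ℝ) ≤
      Fintype.card Ω / 16 ^ (i + 2)) :
    ∃ w, ∃ j ∈ Icc 1 (h + 1), ∃ n : ℝ, s * 4 ^ (j - 1) ≤ n ∧
      n / 2 ≤ (univ.filter fun q => -((j : ℝ) + 1) ≤ y w q).card ∧
      ((univ.filter fun q => 2 < y w q).card : ℝ) ≤ n / 4 ^ (j + 1) := by
  set m : ℕ → ℝ := fun i => (univ.filter fun q => -(i : ℝ) ≤ x q).card with hm
  obtain ⟨j, hj, hmax⟩ := exists_max_image (Icc 1 (h + 1)) (fun i => m i / 4 ^ i) ⟨1, by simp⟩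
  have m1 : s ≤ m 1 := by simpa [hm] using h1
  have m1' : 1 ≤ m 1 := by
    have : 0 < m 1 := hs.trans_le m1
    simp only [hm] at this ⊢
    exact_mod_cast this
  have a1 := hmax 1 (by simp)
  have all : ∀ i, 1 ≤ i → m i / 4 ^ i ≤ m j / 4 ^ j := by
    intro i hi1
    by_cases hi2 : i ≤ h + 1
    · exact hmax i (mem_Icc.2 ⟨hi1, hi2⟩)
    · refine le_trans ?_ a1
      have c : m i ≤ 2 ^ h := by
        simp only [hm]
        exact_mod_cast (card_filter_le _ _).trans (by simpa using hQ)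
      have d : (2 : ℝ) ^ h * 4 ≤ 4 ^ i := by
        calc (2 : ℝ) ^ h * 4 ≤ 4 ^ h * 4 := by gcongr; norm_num
          _ = 4 ^ (h + 1) := by ring
          _ ≤ 4 ^ i := pow_le_pow_right₀ (by norm_num) (by omega)
      rw [div_le_div_iff₀ (by positivity) (by positivity)]
      nlinarith [pow_pos (show (0 : ℝ) < 4 by norm_num) i]
  obtain ⟨k, rfl⟩ : ∃ k, j = k + 1 := ⟨j - 1, by have := (mem_Icc.1 hj).1; omega⟩
  have hn : s * 4 ^ k ≤ m (k + 1) := by
    rw [div_le_div_iff₀ (by positivity) (by positivity), pow_succ 4 k] at a1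
    nlinarith [pow_pos (show (0 : ℝ) < 4 by norm_num) k]
  set n := m (k + 1) with hn'
  have n0 : 0 < n := lt_of_lt_of_le (by positivity) hn
  set N : ℝ := (Fintype.card Ω : ℝ)
  have N0 : 0 < N := Nat.cast_pos.2 Fintype.card_pos
  set T := univ.filter fun q => -((k + 1 : ℕ) : ℝ) ≤ x q
  set lost : Ω → ℝ := fun w => (T.filter fun q => y w q < x q - 1).card with hlost
  set ab : Ω → ℝ := fun w => (univ.filter fun q => 2 < y w q).card with hab
  have L : ∑ w, lost w ≤ n * (N / 16) := by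
    simp only [hlost, card_filter, Nat.cast_sum] at lo ⊢
    rw [sum_comm]
    exact (sum_le_sum fun q _ => lo q).trans (by simp [hn', hm, T])
  have A : ∑ w, ab w ≤ n / 4 ^ (k + 2) * (N / 12) := by
    have b1 : ∑ w, ab w ≤ ∑ q, N / 16 ^ (⌊-x q⌋₊ + 2) := by
      have : ∑ w, ab w = ∑ q, ((univ.filter fun w => 2 < y w q).card : ℝ) := by
        simp only [hab, card_filter, Nat.cast_sum]
        exact sum_comm
      rw [this]
      refine sum_le_sum fun q _ => le_trans ?_ (hi q ⌊-x q⌋₊)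
      refine Nat.cast_le.2 (card_le_card fun w hw => ?_)
      have := Nat.floor_le (neg_nonneg.2 (hx q))
      simp only [mem_filter, mem_univ, true_and] at hw ⊢
      linarith
    refine b1.trans ?_
    set B := univ.sup (fun q => ⌊-x q⌋₊) + 1
    rw [← sum_fiberwise_of_maps_to (t := range B) (g := fun q => ⌊-x q⌋₊)
      (fun q hq => mem_range.2 (Nat.lt_succ_of_le (le_sup (f := fun q => ⌊-x q⌋₊) hq)))]
    have b2 : ∀ i ∈ range B, ∑ q ∈ univ.filter (fun q => ⌊-x q⌋₊ = i), N / 16 ^ (⌊-x q⌋₊ + 2) ≤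
        n / 4 ^ (k + 2) * (N / 16) * (1 / 4) ^ i := by
      intro i _
      rw [sum_congr rfl (g := fun _ => N / 16 ^ (i + 2)) fun q hq => by rw [(mem_filter.1 hq).2],
        sum_const, nsmul_eq_mul]
      have c : ((univ.filter fun q => ⌊-x q⌋₊ = i).card : ℝ) ≤ m (i + 1) := by
        refine Nat.cast_le.2 (card_le_card fun q hq => ?_)
        have := Nat.lt_floor_add_one (-x q)
        simp only [mem_filter, mem_univ, true_and] at hq ⊢
        rw [hq] at this
        push_cast
        linarith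
      have d := all (i + 1) (by omega)
      rw [div_le_iff₀ (by positivity)] at d
      refine (mul_le_mul_of_nonneg_right (c.trans d) (by positivity)).trans (le_of_eq ?_)
      rw [show (16 : ℝ) ^ (i + 2) = 4 ^ i * 4 ^ i * 256 by rw [← mul_pow]; ring, one_div, inv_pow]
      field_simp
      ring
    refine (sum_le_sum b2).trans ?_
    rw [← mul_sum]
    have g : ∑ i ∈ range B, (1 / 4 : ℝ) ^ i ≤ 4 / 3 := by
      rw [geom_sum_eq (by norm_num)]
      have : (0 : ℝ) ≤ (1 / 4) ^ B := by positivity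
      rw [div_le_iff_of_neg (by norm_num)]
      linarith
    refine (mul_le_mul_of_nonneg_left g (by positivity)).trans (le_of_eq (by ring))
  obtain ⟨w, -, hw⟩ : ∃ w ∈ (univ : Finset Ω), lost w / (n / 2) + ab w / (n / 4 ^ (k + 2)) ≤ 1 := by
    refine exists_le_of_sum_le univ_nonempty ?_
    rw [sum_add_distrib, ← sum_div, ← sum_div, sum_const, card_univ, nsmul_eq_mul, mul_one]
    have c : (∑ w, lost w) / (n / 2) ≤ N / 8 := by
      rw [div_le_iff₀ (by positivity)]; linarith
    have d : (∑ w, ab w) / (n / 4 ^ (k + 2)) ≤ N / 12 := by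
      rw [div_le_iff₀ (by positivity)]; linarith
    change _ ≤ N
    linarith
  have l0 : 0 ≤ lost w / (n / 2) := by simp only [hlost]; positivity
  have a0 : 0 ≤ ab w / (n / 4 ^ (k + 2)) := by simp only [hab]; positivity
  have l1 : lost w ≤ n / 2 := (div_le_one (by positivity)).1 (by linarith)
  have a2 : ab w ≤ n / 4 ^ (k + 2) := (div_le_one (by positivity)).1 (by linarith)
  refine ⟨w, k + 1, hj, n, by simpa using hn, ?_, a2⟩
  have c := card_filter_add_card_filter_not (s := T) fun q => y w q < x q - 1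
  have d : (T.filter fun q => ¬ y w q < x q - 1).card ≤
      (univ.filter fun q => -(((k + 1 : ℕ) : ℝ) + 1) ≤ y w q).card := by
    refine card_le_card fun q hq => ?_
    simp only [T, mem_filter, mem_univ, true_and, not_lt] at hq ⊢
    linarith [hq.1, hq.2]
  have c' : lost w + ((T.filter fun q => ¬ y w q < x q - 1).card : ℝ) = n := by
    have e : n = (T.card : ℝ) := rfl
    rw [e, ← c, Nat.cast_add]
  have d' := (Nat.cast_le (α := ℝ)).2 d
  linarith

end Round

/-- Random rounding. -/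
theorem round {Q I C V : Type} [Fintype Q] [Fintype I] (W : I → Type) [∀ i, Fintype (W i)]
    [∀ i, Nonempty (W i)] (net : Finset V) (hne : net.Nonempty) (A : Q → Finset C) (f : Q → ℝ)
    (hf : ∀ q, 0 < f q) (fit : Q → V → C → ℝ) (ft : (∀ i, W i) → Q → V → C → ℝ)
    (X : Q → V → C → ∀ i, W i → ℝ) (r : I → ℝ) (b u a a' s : ℝ) (h : ℕ) (Y : Q → ℝ)
    (hb : 0 < b) (hu : 0 < u) (hs : 0 < s) (hQ : Fintype.card Q ≤ 2 ^ h)
    (h0 : ∀ q, ∀ v ∈ net, ∀ c ∈ A q, ∀ i, ∑ x, X q v c i x = 0)
    (hX : ∀ q, ∀ v ∈ net, ∀ c ∈ A q, ∀ i x, |X q v c i x| ≤ r i)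
    (hr : b ^ 2 * ∑ i, r i ^ 2 ≤ 1)
    (he : ∀ w q, ∀ v ∈ net, ∀ c ∈ A q,
      |ft w q v c - fit q v c - ∑ i, X q v c i (w i)| ≤ 1 / b)
    (hbu : 16 * Real.exp (3 / 2) * net.card ≤ Real.exp (b * u)) (ha : a - u ≤ a') (ha' : a' ≤ a)
    (htop : ∀ q, ∀ v ∈ net, sm b (f q) (A q) (fit q v) + u * Y q ≤ a)
    (hmany : s ≤ (univ.filter fun q =>
      ∃ v ∈ net, a - u ≤ sm b (f q) (A q) (fit q v) + u * Y q).card) :
    ∃ w, ∃ j ∈ Icc 1 (h + 1), ∃ n : ℝ, s * 4 ^ (j - 1) ≤ n ∧
      n / 2 ≤ (univ.filter fun q =>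
        (a' - net.sup' hne fun v => sm b (f q) (A q) (ft w q v)) / u - (j + 1) ≤ Y q).card ∧
      ((univ.filter fun q =>
        (a' - net.sup' hne fun v => sm b (f q) (A q) (ft w q v)) / u + 3 < Y q).card : ℝ) ≤
        n / 4 ^ (j + 1) := by
  set N : ℝ := (Fintype.card (∀ i, W i) : ℝ)
  have mom : ∀ t : ℝ, |t| = b → ∀ q, ∀ v ∈ net, ∀ c ∈ A q,
      ∑ w, Real.exp (t * (ft w q v c - fit q v c)) ≤ N * Real.exp (3 / 2) := by
    intro t ht q v hv c hc
    have p := Round.prod_le W (X q v c) r t (h0 q v hv c hc) (hX q v hv c hc)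
      (by rwa [← sq_abs t, ht])
    calc _ ≤ ∑ w : ∀ i, W i, Real.exp (t * ∑ i, X q v c i (w i)) * Real.exp 1 := by
          refine sum_le_sum fun w _ => ?_
          rw [← Real.exp_add, Real.exp_le_exp]
          have e := mul_le_mul_of_nonneg_left (he w q v hv c hc) hb.le
          rw [mul_one_div_cancel hb.ne', ← ht, ← abs_mul] at e
          linarith [le_abs_self (t * (ft w q v c - fit q v c - ∑ i, X q v c i (w i)))]
      _ ≤ N * Real.exp (1 / 2) * Real.exp 1 := by rw [← sum_mul]; gcongr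
      _ = _ := by rw [mul_assoc, ← Real.exp_add]; norm_num
  have E1 : 1 ≤ Real.exp (3 / 2) := Real.one_le_exp (by norm_num)
  have tl := fun q v hv => Round.tails (A q) (f q) b _ (hf q) hb E1 (fit q v) (fun w => ft w q v)
    (mom b (abs_of_pos hb) q v hv) (mom (-b) (by rw [abs_neg, abs_of_pos hb]) q v hv)
  have c1 : (1 : ℝ) ≤ net.card := by exact_mod_cast hne.card_pos
  have N0 : 0 ≤ N := Nat.cast_nonneg _
  set M : Q → ℝ := fun q => net.sup' hne fun v => sm b (f q) (A q) (fit q v) with hM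
  set Mt : (∀ i, W i) → Q → ℝ := fun w q => net.sup' hne fun v => sm b (f q) (A q) (ft w q v)
    with hMt
  refine (Round.select (fun q => (M q + u * Y q - a) / u)
    (fun w q => (Mt w q + u * Y q - a) / u) s h hs hQ (fun q => ?_) (hmany.trans ?_) (fun q => ?_)
    fun q i => ?_).imp fun w ⟨j, hj, n, n1, n2, n3⟩ => ?_
  rotate_right
  · refine ⟨j, hj, n, n1, n2.trans ?_, le_trans ?_ n3⟩ <;>
      refine Nat.cast_le.2 (card_le_card fun q hq => ?_) <;>
      simp only [mem_filter, mem_univ, true_and] at hq ⊢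
    · rw [le_div_iff₀ hu] at hq
      rw [sub_le_iff_le_add, div_le_iff₀ hu]
      change a' - Mt w q ≤ _
      linarith
    · rw [lt_div_iff₀ hu]
      rw [← lt_sub_iff_add_lt, div_lt_iff₀ hu] at hq
      change a' - Mt w q < _ at hq
      linarith
  · obtain ⟨v, hv, e⟩ := exists_mem_eq_sup' hne fun v => sm b (f q) (A q) (fit q v)
    refine div_nonpos_of_nonpos_of_nonneg ?_ hu.le
    simp only [hM, e]
    linarith [htop q v hv]
  · refine Nat.cast_le.2 (card_le_card fun q hq => ?_)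
    simp only [mem_filter, mem_univ, true_and] at hq ⊢
    obtain ⟨v, hv, e⟩ := hq
    rw [le_div_iff₀ hu]
    linarith [le_sup' (fun v => sm b (f q) (A q) (fit q v)) hv]
  · obtain ⟨v, hv, e⟩ := exists_mem_eq_sup' hne fun v => sm b (f q) (A q) (fit q v)
    refine le_trans (Nat.cast_le.2 (card_le_card fun w hw => ?_)) ((tl q v hv u).2.trans ?_)
    · simp only [mem_filter, mem_univ, true_and] at hw ⊢
      rw [div_sub' hu.ne', div_lt_div_iff_of_pos_right hu] at hw
      simp only [hM, e] at hw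
      linarith [le_sup' (fun v => sm b (f q) (A q) (ft w q v)) hv]
    · rw [div_le_div_iff₀ (by positivity) (by positivity)]
      have : Real.exp (3 / 2) * 16 ≤ Real.exp (b * u) := by nlinarith
      change N * _ * 16 ≤ N * _
      rw [mul_assoc]
      gcongr
  · have sub : (univ.filter fun w => (M q + u * Y q - a) / u + (i + 2) <
        (Mt w q + u * Y q - a) / u) ⊆ net.biUnion fun v => univ.filter fun w =>
          sm b (f q) (A q) (fit q v) + (i + 2) * u < sm b (f q) (A q) (ft w q v) := by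
      intro w hw
      obtain ⟨v, hv, e⟩ := exists_mem_eq_sup' hne fun v => sm b (f q) (A q) (ft w q v)
      simp only [mem_filter, mem_univ, true_and, mem_biUnion] at hw ⊢
      rw [div_add' _ _ _ hu.ne', div_lt_div_iff_of_pos_right hu] at hw
      simp only [hMt, e] at hw
      exact ⟨v, hv, by linarith [le_sup' (fun v => sm b (f q) (A q) (fit q v)) hv]⟩
    refine (Nat.cast_le.2 ((card_le_card sub).trans card_biUnion_le)).trans ?_
    rw [Nat.cast_sum]
    refine (sum_le_sum fun v hv => (tl q v hv _).1).trans ?_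
    rw [sum_const, nsmul_eq_mul, ← mul_div_assoc, div_le_div_iff₀ (by positivity) (by positivity)]
    have e : Real.exp (b * ((i + 2) * u)) = Real.exp (b * u) ^ (i + 2) := by
      rw [← Real.exp_nat_mul]
      congr 1
      push_cast
      ring
    have k1 : 1 ≤ Real.exp (3 / 2) * net.card := one_le_mul_of_one_le_of_one_le E1 c1
    have k2 : 16 ^ (i + 2) * (Real.exp (3 / 2) * net.card) ≤ Real.exp (b * u) ^ (i + 2) := by
      calc _ ≤ 16 ^ (i + 2) * (Real.exp (3 / 2) * net.card) ^ (i + 2) := by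
            gcongr
            exact le_self_pow₀ k1 (by omega)
        _ = (16 * Real.exp (3 / 2) * net.card) ^ (i + 2) := by rw [← mul_pow, mul_assoc]
        _ ≤ _ := by gcongr
    rw [e]
    change _ * (N * _) * _ ≤ N * _
    nlinarith [mul_le_mul_of_nonneg_left k2 N0]

end Pool.Agent.Lib.MP_7903c7_al.F
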