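import Pool.Agent.Lib.MP_7903c7_al.RF.Loc
import Pool.Agent.Lib.MP_7903c7_al.F.Lab
import Pool.Agent.Lib.MP_7903c7_al.F.Round

set_option autoImplicit false

/-!
The count of names near the top, with the full entropy of a window.
-/

namespace Pool.Agent.Lib.MP_7903c7_al.F

open Finset
open scoped Classical Pointwise

namespace Cnt3

/-- The contribution of the letter `j` when it is read at the time `t`. -/
noncomputable def aj (U n0 : ℕ) (φ : ℕ → ℕ → ℝ) (j t : ℕ) : ℝ :=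
  (∑ τ ∈ range U, (φ τ (j + 1) - φ τ j) * if t < τ then 1 else 0) / n0

theorem aj_lip (U n0 : ℕ) (φ : ℕ → ℕ → ℝ) (j : ℕ) (h : ∀ τ, |φ τ (j + 1) - φ τ j| ≤ 1)
    {t t' d : ℕ} (h1 : t ≤ t') (h2 : t' ≤ t + d) :
    |aj U n0 φ j t' - aj U n0 φ j t| ≤ d / n0 := by
  rw [aj, aj, ← sub_div, abs_div, Nat.abs_cast, ← sum_sub_distrib]
  refine div_le_div_of_nonneg_right ((abs_sum_le_sum_abs _ _).trans ?_) (Nat.cast_nonneg _)
  refine (sum_le_sum (g := fun τ => if τ ∈ Ioc t t' then (1 : ℝ) else 0) fun τ _ => ?_).trans ?_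
  · have := h τ
    simp only [mem_Ioc]
    split_ifs <;> first | omega | simp [abs_sub_comm (φ τ j), this]
  · rw [sum_boole]
    have : ((range U).filter fun τ => τ ∈ Ioc t t').card ≤ d :=
      (card_le_card (t := Ioc t t') fun τ hτ => (mem_filter.1 hτ).2).trans (by simp; omega)
    exact_mod_cast this

theorem sum_groups (f : ℕ → ℝ) (n q : ℕ) :
    ∑ i : Fin n, ∑ x : Fin q, f (i * q + x) = ∑ j ∈ range (n * q), f j := by
  rw [Fin.sum_univ_eq_sum_range (fun i => ∑ x : Fin q, f (i * q + x))]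
  induction n with
  | zero => simp
  | succ n ih =>
    rw [sum_range_succ, ih, add_mul, one_mul, sum_range_add,
      Fin.sum_univ_eq_sum_range (fun x => f (n * q + x))]

/-- The correction from the coarse to the fine time. -/
noncomputable def bj (U n0 M E e : ℕ) (φ : ℕ → ℕ → ℝ) (cl : ℕ → ℕ) (j k : ℕ) : ℝ :=
  if j < M then aj U n0 φ j (cl j * E + k * e) - aj U n0 φ j (cl j * E) else 0

/-- The estimator. -/
noncomputable def est (U n0 M E e q F : ℕ) (φ : ℕ → ℕ → ℝ) (cl : ℕ → ℕ)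
    (w : Fin (M / q + 1) → Fin q × Fin F) : ℝ :=
  (∑ τ ∈ range U, φ τ 0) / n0 + ∑ j ∈ range M, aj U n0 φ j (cl j * E) +
    ∑ i, q * bj U n0 M E e φ cl (i * q + (w i).1) (w i).2

/-- The estimator is unbiased up to the fine grid. -/
theorem est_spec (U n0 M e q F : ℕ) (hq : 0 < q) (hF : 0 < F) (he : 0 < e) (φ : ℕ → ℕ → ℝ)
    (h : ∀ j < M, ∀ τ, |φ τ (j + 1) - φ τ j| ≤ 1) (t cl : ℕ → ℕ)
    (hcl : ∀ j < M, cl j = t j / (F * e)) (k : ℕ → Fin F)
    (hk : ∀ j, (k j : ℕ) = t j % (F * e) / e) :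
    ∃ X : Fin (M / q + 1) → Fin q → ℝ, (∀ i, ∑ x, X i x = 0) ∧
      (∀ i x, |X i x| ≤ 2 * q * (F * e : ℕ) / n0) ∧ ∀ w : Fin (M / q + 1) → Fin q,
        |est U n0 M (F * e) e q F φ cl (fun i => (w i, k (i * q + w i))) -
          ((∑ τ ∈ range U, φ τ 0) / n0 + ∑ j ∈ range M, aj U n0 φ j (t j)) -
          ∑ i, X i (w i)| ≤ M * (e / n0) := by
  set B : ℕ → ℝ := fun j => bj U n0 M (F * e) e φ cl j (k j) with hB
  have B1 : ∀ j, |B j| ≤ (F * e : ℕ) / n0 := by
    intro j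
    simp only [hB, bj]
    split_ifs with hj
    · exact aj_lip U n0 φ j (h j hj) (Nat.le_add_right _ _)
        (Nat.add_le_add_left (Nat.mul_le_mul_right _ (k j).2.le) _)
    · rw [abs_zero]; positivity
  refine ⟨fun i x => q * B (i * q + x) - ∑ x' : Fin q, B (i * q + x'), fun i => ?_,
    fun i x => ?_, fun w => ?_⟩
  · rw [sum_sub_distrib, ← mul_sum]
    simp
  · have a := (abs_sum_le_sum_abs _ _).trans
      (sum_le_sum fun (x' : Fin q) (_ : x' ∈ univ) => B1 (i * q + x'))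
    have b := mul_le_mul_of_nonneg_left (B1 (i * q + x)) (Nat.cast_nonneg (α := ℝ) q)
    rw [sum_const, card_univ, Fintype.card_fin, nsmul_eq_mul] at a
    refine (abs_sub _ _).trans ?_
    rw [abs_mul, Nat.abs_cast, mul_div_assoc]
    linarith
  · have s : ∑ j ∈ range ((M / q + 1) * q), B j = ∑ j ∈ range M, B j := by
      refine (sum_subset (range_subset_range.2 ?_) fun j _ hj => ?_).symm
      · rw [mul_comm]; exact (Nat.lt_mul_div_succ M hq).le
      · simp only [hB, bj, if_neg (mt mem_range.2 hj)]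
    rw [sum_sub_distrib, sum_groups, s, est]
    have e1 : ∀ a b c d f : ℝ, a + b + c - (a + d) - (c - f) = f + b - d := fun _ _ _ _ _ => by ring
    refine (congrArg abs (e1 _ _ _ _ _)).trans_le ?_
    rw [← sum_add_distrib, ← sum_sub_distrib]
    refine (abs_sum_le_sum_abs _ _).trans ((sum_le_card_nsmul _ _ ((e : ℝ) / n0) ?_).trans (by simp))
    intro j hj
    have hj' := mem_range.1 hj
    simp only [hB, bj, if_pos hj', sub_add_cancel]
    rw [abs_sub_comm, hcl j hj', hk]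
    have a := Nat.div_add_mod (t j) (F * e)
    have b := Nat.div_add_mod (t j % (F * e)) e
    have c := Nat.mod_lt (t j % (F * e)) he
    rw [mul_comm] at a b
    exact aj_lip U n0 φ j (h j hj') (by omega) (by omega)

end Cnt3

open Cnt3

variable {G : Type} [Group G]

/-- The estimators of all windows with `M` letters. -/
theorem high (S : Finset G) (k0 : ℕ) (hK : S.card ≤ 2 ^ k0) {Q V : Type}
    (Φ : Q → V → ℕ → G → ℝ) (lip : ∀ q v τ y, ∀ s ∈ S, |Φ q v τ (y * s) - Φ q v τ y| ≤ 1)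
    (W n0 F qq M : ℕ) (hq : 0 < qq) (hqW : qq ≤ W) (hF : 0 < F) (hqF : qq * F ≤ 2 ^ qq)
    (hn0 : F * (M + W) ≤ W * n0) :
    ∃ (DD : Finset ((ℕ → G) × (Q → V → G → ℝ))) (r : ℝ), DD.card ≤ 2 ^ ((k0 + 3) * (M + W)) ∧
      ∑ _i : Fin (M / qq + 1), r ^ 2 ≤ 16 * qq * W ∧
      ∀ (γ : ℤ → G) (ℓ : ℤ → ℕ) (lo : ℤ), (∀ t, (γ t)⁻¹ * γ (t + 1) ∈ (S : Set G) ^ ℓ t) →
        ∑ u ∈ Ico lo (lo + (W * n0 : ℕ)), ℓ u = M →
        ∃ p : ℕ → G, (∀ t, lo ≤ t → t ≤ lo + (W * n0 : ℕ) → ∃ j ≤ M, γ t = γ lo * p j) ∧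
          ∃ (ft : (Fin (M / qq + 1) → Fin qq) → Q → V → G → ℝ)
            (X : Q → V → G → Fin (M / qq + 1) → Fin qq → ℝ), (∀ w, (p, ft w) ∈ DD) ∧
            (∀ q v c i, ∑ x, X q v c i x = 0) ∧ (∀ q v c i x, |X q v c i x| ≤ r) ∧
            ∀ w q v c, |ft w q v c -
              (∑ τ ∈ range (W * n0), Φ q v τ ((γ lo * c)⁻¹ * γ (lo + τ))) / n0 -
              ∑ i, X q v c i (w i)| ≤ W / F + M / n0 := by
  have hW : 0 < W := hq.trans_le hqW
  have hMW : 0 < F * (M + W) := by positivity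
  have h0 : 0 < n0 := Nat.pos_of_mul_pos_left (a := W) (by omega)
  set e := W * n0 / (F * (M + W)) + 1 with he
  have e0 : 0 < e := Nat.succ_pos _
  have e1 : W * n0 < F * (M + W) * e := Nat.lt_mul_div_succ _ hMW
  have e2 : F * (M + W) * e ≤ 2 * (W * n0) := by
    have := Nat.mul_div_le (W * n0) (F * (M + W))
    rw [he, mul_add_one]
    omega
  have N0 : (0 : ℝ) < n0 := by exact_mod_cast h0
  have F0 : (0 : ℝ) < F := by exact_mod_cast hF
  have W0 : (0 : ℝ) < W := by exact_mod_cast hW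
  have M0 : (0 : ℝ) ≤ M := Nat.cast_nonneg _
  have e3 : (M + W : ℝ) * (F * (e / n0)) ≤ 2 * W := by
    rw [← mul_div_assoc, ← mul_div_assoc, div_le_iff₀ N0]
    have : ((F * (M + W) * e : ℕ) : ℝ) ≤ (2 * (W * n0) : ℕ) := Nat.cast_le.2 e2
    push_cast at this
    linarith
  obtain ⟨P, P1, P2⟩ := RF.Loc.paths S M
  refine ⟨(P ×ˢ ((Fintype.piFinset fun _ : Fin M => range (M + W)).filter Monotone) ×ˢ
    (univ : Finset (Fin (M / qq + 1) → Fin qq × Fin F))).image fun d => (d.1, fun q v c =>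
      est (W * n0) n0 M (F * e) e qq F (fun τ j => Φ q v τ (c⁻¹ * d.1 j))
        (fun j => if h : j < M then d.2.1 ⟨j, h⟩ else 0) d.2.2), 2 * qq * (F * e : ℕ) / n0,
    card_image_le.trans ?_, ?_, fun γ ℓ lo hγ hM => ?_⟩
  · rw [card_product, card_product, card_univ, Fintype.card_fun, Fintype.card_prod,
      Fintype.card_fin, Fintype.card_fin, Fintype.card_fin]
    have a : P.card ≤ 2 ^ (k0 * M) := P1.trans (by rw [pow_mul]; exact Nat.pow_le_pow_left hK M)
    have b : (qq * F) ^ (M / qq + 1) ≤ 2 ^ (M + W) := by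
      refine (Nat.pow_le_pow_left hqF _).trans ?_
      rw [← pow_mul]
      have := Nat.mul_div_le M qq
      exact Nat.pow_le_pow_right two_pos (by rw [mul_add_one]; omega)
    refine (Nat.mul_le_mul a (Nat.mul_le_mul (RF.Round.count M (M + W)) b)).trans ?_
    rw [← pow_add, ← pow_add]
    exact Nat.pow_le_pow_right two_pos (by nlinarith)
  · rw [sum_const, card_univ, Fintype.card_fin, nsmul_eq_mul]
    have a : ((M / qq + 1 : ℕ) : ℝ) * qq ≤ M + W := by
      have := Nat.div_mul_le_self M qq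
      have : (M / qq + 1) * qq ≤ M + W := by rw [add_one_mul]; omega
      exact_mod_cast this
    set x : ℝ := F * (e / n0) with hx
    have x0 : 0 ≤ x := by positivity
    have b : (M + W) * x ^ 2 ≤ 4 * W := by
      have c : W * x ≤ 2 * W := by nlinarith
      have d : x ≤ 2 := le_of_mul_le_mul_left (by linarith) W0
      nlinarith
    have c : (2 * qq * (F * e : ℕ) / n0 : ℝ) = 2 * qq * x := by rw [hx]; push_cast; ring
    have q0 : (0 : ℝ) ≤ qq := Nat.cast_nonneg _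
    rw [c]
    calc _ = 4 * qq * ((((M / qq + 1 : ℕ) : ℝ) * qq) * x ^ 2) := by ring
      _ ≤ 4 * qq * ((M + W) * x ^ 2) := by gcongr
      _ ≤ 4 * qq * (4 * W) := by gcongr
      _ = _ := by ring
  obtain ⟨Y, t, y1, y2, y3, -, y5⟩ := RF.Loc.unroll hγ lo (W * n0)
  rw [hM] at y1 y2 y3 y5
  obtain ⟨p, hp, hY⟩ := P2 Y y1
  have Y0 : γ lo = Y 0 := by
    obtain ⟨m, m1, m2, m3⟩ := y5 lo le_rfl (by omega)
    rcases m with _ | m
    · exact m2
    · have := (m3 0 (by omega)).2 (by omega)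
      have := (y3 0 (by omega)).1
      omega
  set tt : ℕ → ℕ := fun j => (t j - lo).toNat with htt
  have E0 : 0 < F * e := by positivity
  set k : ℕ → Fin F := fun j => ⟨tt j % (F * e) / e, Nat.div_lt_of_lt_mul (by
    rw [mul_comm e]; exact Nat.mod_lt _ E0)⟩
  have sp := fun q v c => est_spec (W * n0) n0 M e qq F hq hF e0
    (fun τ j => Φ q v τ (c⁻¹ * p j)) (fun j hj τ => by
      have := lip q v τ (c⁻¹ * p j) _ (y1 j hj)
      rwa [hY j hj.le, hY (j + 1) hj, show c⁻¹ * p j * ((Y 0 * p j)⁻¹ * (Y 0 * p (j + 1))) =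
        c⁻¹ * p (j + 1) by group] at this) tt
    (fun j => if h : j < M then (fun i : Fin M => tt i / (F * e)) ⟨j, h⟩ else 0)
    (fun j hj => dif_pos hj) k fun _ => rfl
  choose X X1 X2 X3 using sp
  refine ⟨p, fun u u1 u2 => ?_, _, X, fun w => mem_image.2
    ⟨(p, fun i : Fin M => tt i / (F * e), fun i => (w i, k (i * qq + w i))), ?_, rfl⟩, X1, X2,
    fun w q v c => ?_⟩
  · obtain ⟨m, m1, m2, -⟩ := y5 u u1 u2
    exact ⟨m, m1, by rw [m2, Y0, hY m m1]⟩
  · simp only [mem_product, mem_filter, Fintype.mem_piFinset, mem_range, mem_univ, and_true]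
    refine ⟨hp, fun j => Nat.div_lt_of_lt_mul ?_, fun i j hij => Nat.div_le_div_right ?_⟩
    · have := y3 j j.2
      have : tt j < W * n0 := by simp only [htt]; omega
      nlinarith
    · have := y2 i j hij j.2
      simp only [htt]
      omega
  · have f : (∑ τ ∈ range (W * n0), Φ q v τ ((γ lo * c)⁻¹ * γ (lo + τ))) / n0 =
        (∑ τ ∈ range (W * n0), Φ q v τ (c⁻¹ * p 0)) / n0 +
        ∑ j ∈ range M, aj (W * n0) n0 (fun τ j => Φ q v τ (c⁻¹ * p j)) j (tt j) := by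
      simp only [aj]
      rw [← sum_div, ← add_div, sum_comm, ← sum_add_distrib]
      congr 1
      refine sum_congr rfl fun τ hτ => ?_
      have := mem_range.1 hτ
      obtain ⟨m, m1, m2, m3⟩ := y5 (lo + τ) (by omega) (by omega)
      rw [m2, Y0, hY m m1, show (Y 0 * c)⁻¹ * (Y 0 * p m) = c⁻¹ * p m by group]
      refine RF.Loc.tele (fun j => Φ q v τ (c⁻¹ * p j)) m1 (fun j => tt j < τ) fun j hj => ?_
      rw [← m3 j hj]
      have := y3 j hj
      simp only [htt]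
      omega
    rw [f]
    refine (X3 q v c w).trans ?_
    have a : F * (M * (W * n0 / (F * (M + W)))) ≤ W * n0 := by
      refine le_trans ?_ (Nat.mul_div_le (W * n0) (F * (M + W)))
      rw [← mul_assoc]
      exact Nat.mul_le_mul_right _ (Nat.mul_le_mul_left _ (Nat.le_add_right _ _))
    have a' := (Nat.cast_le (α := ℝ)).2 a
    rw [he, Nat.cast_succ, add_div, mul_add, mul_one_div, add_le_add_iff_right, ← mul_div_assoc,
      div_le_div_iff₀ N0 F0]
    rw [Nat.cast_mul, Nat.cast_mul, Nat.cast_mul] at a'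
    linarith

/-- The count of names near the top. -/
theorem count3 (S : Finset G) (k0 : ℕ) (hK : S.card ≤ 2 ^ k0) {Q V : Type} [Fintype Q]
    (net : Finset V) (hne : net.Nonempty) (J : Q → Finset G) (Φ : Q → V → ℕ → G → ℝ)
    (lip : ∀ q v τ y, ∀ s ∈ S, |Φ q v τ (y * s) - Φ q v τ y| ≤ 1)
    (W n0 F qq h z na Mx : ℕ) (b u f θ : ℝ) (hz : 64 ≤ z) (hz' : z ≤ 2 ^ h)
    (hQ : Fintype.card Q ≤ 2 ^ h) (hq : 0 < qq) (hqW : qq ≤ W) (hqF : qq * F ≤ 2 ^ qq)
    (hb : 0 < b) (hu : 0 < u) (hf : 0 < f) (hF0 : 0 < F) (hF : b * (W / F + 1) ≤ 1)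
    (hr : b ^ 2 * (16 * qq * W) ≤ 1)
    (hbu : 16 * Real.exp (3 / 2) * net.card ≤ Real.exp (b * u)) (hθ0 : 0 < θ)
    (hθ : (2 : ℝ) ^ (k0 + 6) ≤ (1 + (z : ℝ) / 128) ^ (θ / 4))
    (hna : 6 * (h + 1) * na < 2 ^ (3 * W)) (hn0 : F * (Mx + W) ≤ W * n0) (hn0' : Mx ≤ n0) :
    ∃ Y : Q → ℕ, (∀ q, Y q ≤ 4 * z * h) ∧
      ∀ (γ : ℤ → G) (ℓ : ℤ → ℕ) (lo : ℤ), (∀ t, (γ t)⁻¹ * γ (t + 1) ∈ (S : Set G) ^ ℓ t) →
        ∀ M ≤ Mx, ∑ t ∈ Ico lo (lo + (W * n0 : ℕ)), ℓ t = M →
        ∃ A : Q → Finset G, (∀ q, (A q).card ≤ (M + 1) * (J q).card) ∧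
          (∀ q t, lo ≤ t → t ≤ lo + (W * n0 : ℕ) → ∀ j ∈ J q, γ t * j ∈ A q) ∧
          ∀ a : ℝ, 0 ≤ a → a < na * u →
            (∀ q, ∀ v ∈ net, sm b f (A q) (fun c =>
              (∑ τ ∈ range (W * n0), Φ q v τ (c⁻¹ * γ (lo + τ))) / n0) + u * Y q ≤ a) →
            ((univ.filter fun q => ∃ v ∈ net, a - u ≤ sm b f (A q) (fun c =>
              (∑ τ ∈ range (W * n0), Φ q v τ (c⁻¹ * γ (lo + τ))) / n0) + u * Y q).card : ℝ) <
              θ * (M + W) := by
  have hW : 0 < W := hq.trans_le hqW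
  have W0 : (0 : ℝ) < W := by exact_mod_cast hW
  have hi := fun M (hM : M ≤ Mx) => high S k0 hK Φ lip W n0 F qq M hq hqW hF0
    hqF ((Nat.mul_le_mul_left _ (by omega)).trans hn0)
  choose! DD r D1 D2 D3 using hi
  set Cd : ℕ → (ℕ → G) → Q → Finset G := fun M p q =>
    (range (M + 1) ×ˢ J q).image fun x => p x.1 * x.2 with hCd
  obtain ⟨Y, Y1, Y2⟩ := labels Q (Σ _ : ℕ, ((ℕ → G) × (Q → V → G → ℝ)) × ℕ) h z hz hz' hQ
    ((range (Mx + 1)).sigma fun M => DD M ×ˢ range na) (fun d => θ * (d.1 + W))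
    (fun d q => (u * d.2.2 - net.sup' hne fun v =>
      sm b f (Cd d.1 d.2.1.1 q) (d.2.1.2 q v)) / u) (by
      rw [sum_sigma]
      have two : (6 * (h + 1) * na : ℝ) < 2 ^ (3 * W) := by exact_mod_cast hna
      refine (sum_le_sum (g := fun M => 3 * ((h : ℝ) + 1) * na / 2 ^ (3 * W) * (1 / 2) ^ M)
        fun M hM => ?_).trans_lt ?_
      · dsimp only
        rw [sum_const, card_product, card_range, nsmul_eq_mul]
        have a : ((DD M).card : ℝ) ≤ 2 ^ ((k0 + 3) * (M + W)) := by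
          exact_mod_cast D1 M (Nat.lt_succ_iff.1 (mem_range.1 hM))
        have c : (2 : ℝ) ^ ((k0 + 3) * (M + W) + 3 * W + M) ≤
            (1 + (z : ℝ) / 128) ^ (θ * (M + W) / 4) := by
          refine (pow_le_pow_right₀ one_le_two (show _ ≤ (k0 + 6) * (M + W) by nlinarith)).trans ?_
          rw [show θ * (M + W) / 4 = θ / 4 * ((M + W : ℕ) : ℝ) by push_cast; ring,
            Real.rpow_mul_natCast (by positivity), pow_mul]
          gcongr
        calc _ ≤ (2 ^ ((k0 + 3) * (M + W)) * na : ℝ) *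
              (3 * ((h : ℝ) + 1) / 2 ^ ((k0 + 3) * (M + W) + 3 * W + M)) := by
              push_cast
              gcongr
          _ = _ := by
              rw [pow_add, pow_add, one_div, inv_pow]
              field_simp
      · rw [← mul_sum]
        refine (mul_le_mul_of_nonneg_left (RF.Lab.geo_le _) (by positivity)).trans_lt ?_
        rw [div_mul_eq_mul_div, div_lt_one (by positivity)]
        linarith)
  refine ⟨Y, Y1, fun γ ℓ lo hγ M hM hs => ?_⟩
  obtain ⟨p, hp, ft, X, x0, x1, x2, x3⟩ := D3 M hM γ ℓ lo hγ hs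
  refine ⟨fun q => (Cd M p q).image fun c => γ lo * c, fun q => ?_, fun q t t1 t2 j hj => ?_,
    fun a a0 a1 top => ?_⟩
  · exact card_image_le.trans (card_image_le.trans (by rw [card_product, card_range]))
  · obtain ⟨i, hi, e⟩ := hp t t1 t2
    exact mem_image.2 ⟨p i * j, mem_image.2 ⟨(i, j), mem_product.2
      ⟨mem_range.2 (Nat.lt_succ_of_le hi), hj⟩, rfl⟩, by rw [e, mul_assoc]⟩
  have e : ∀ q (x : G → ℝ), sm b f ((Cd M p q).image fun c => γ lo * c) x =
      sm b f (Cd M p q) fun c => x (γ lo * c) := fun q x => by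
    rw [sm, sm, sum_image fun _ _ _ _ h => mul_left_cancel h]
  simp only [e] at top ⊢
  by_contra con
  have : Nonempty (Fin qq) := ⟨⟨0, hq⟩⟩
  have fl := Nat.floor_le (div_nonneg a0 hu.le)
  have fl' := Nat.lt_floor_add_one (a / u)
  rw [le_div_iff₀ hu] at fl
  rw [div_lt_iff₀ hu] at fl'
  obtain ⟨w, j, hj, n, n1, n2, n3⟩ := round (fun _ : Fin (M / qq + 1) => Fin qq) net hne (Cd M p)
    (fun _ => f) (fun _ => hf) (fun q v c =>
      (∑ τ ∈ range (W * n0), Φ q v τ ((γ lo * c)⁻¹ * γ (lo + τ))) / n0) ft X (fun _ => r M) b u a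
    (u * ⌊a / u⌋₊) (θ * (M + W)) h (fun q => Y q) hb hu (by positivity) hQ
    (fun q v _ c _ => x1 q v c) (fun q v _ c _ => x2 q v c)
    ((mul_le_mul_of_nonneg_left (D2 M hM) (sq_nonneg b)).trans hr)
    (fun w q v _ c _ => (x3 w q v c).trans (by
      have : (M : ℝ) / n0 ≤ 1 :=
        div_le_one_of_le₀ (Nat.cast_le.2 (hM.trans hn0')) (Nat.cast_nonneg _)
      rw [le_div_iff₀ hb]
      nlinarith)) hbu
    (by linarith) (by linarith) top (not_lt.1 con)
  refine absurd (Y2 ⟨M, (p, ft w), ⌊a / u⌋₊⟩ ?_ j hj n n1 n2) (not_lt.2 n3)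
  simp only [mem_sigma, mem_product, mem_range]
  exact ⟨Nat.lt_succ_of_le hM, x0 w,
    (Nat.floor_lt (div_nonneg a0 hu.le)).2 (by rwa [div_lt_iff₀ hu])⟩

end Pool.Agent.Lib.MP_7903c7_al.F
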