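import Mathlib

set_option autoImplicit false

/-!
A sampling estimator described by few data.
-/

namespace Pool.Agent.Lib.MP_7903c7_al.F

open Finset
open scoped Classical

namespace Low

theorem greedy {P Y I : Type} [Fintype I] (PP : Finset P) (See : P → Finset Y) (y : I → Y)
    (m : ℕ) : ∃ B ⊆ PP, B.card * (m + 1) ≤ Fintype.card I ∧
      ∀ p ∈ PP, (univ.filter fun i => y i ∈ See p ∧ y i ∉ B.biUnion See).card ≤ m := by
  obtain ⟨B, hB, hmax⟩ := exists_max_image (PP.powerset.filter fun B : Finset P =>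
    B.card * (m + 1) ≤ (univ.filter fun i => y i ∈ B.biUnion See).card) card ⟨∅, by simp⟩
  rw [mem_filter, mem_powerset] at hB
  refine ⟨B, hB.1, hB.2.trans (card_le_univ _), fun p hp => ?_⟩
  by_contra con
  push Not at con
  have hpB : p ∉ B := fun h => by
    obtain ⟨i, hi⟩ := card_pos.1 (lt_of_le_of_lt (Nat.zero_le _) con)
    rw [mem_filter] at hi
    exact hi.2.2 (mem_biUnion.2 ⟨p, h, hi.2.1⟩)
  have k := hmax (insert p B) (by
    rw [mem_filter, mem_powerset, card_insert_of_notMem hpB]
    refine ⟨insert_subset hp hB.1, ?_⟩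
    have d : Disjoint (univ.filter fun i => y i ∈ B.biUnion See)
        (univ.filter fun i => y i ∈ See p ∧ y i ∉ B.biUnion See) :=
      disjoint_filter.2 fun i _ h h' => h'.2 h
    have s : (univ.filter fun i => y i ∈ B.biUnion See) ∪
        (univ.filter fun i => y i ∈ See p ∧ y i ∉ B.biUnion See) ⊆
        univ.filter fun i => y i ∈ (insert p B).biUnion See := fun i hi => by
      rw [biUnion_insert]
      simp only [mem_union, mem_filter, mem_univ, true_and] at hi ⊢
      tauto
    have c := card_le_card s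
    rw [card_union_of_disjoint d] at c
    nlinarith [hB.2])
  rw [card_insert_of_notMem hpB] at k
  omega

theorem card_small {P : Type} (PP : Finset P) (k : ℕ) :
    (PP.powerset.filter fun B => B.card ≤ k).card ≤ (PP.card + 1) ^ k := by
  have s : (PP.powerset.filter fun B => B.card ≤ k) ⊆
      (range (k + 1)).biUnion fun j => PP.powersetCard j := fun B hB => by
    rw [mem_filter, mem_powerset] at hB
    exact mem_biUnion.2 ⟨B.card, mem_range.2 (Nat.lt_succ_of_le hB.2),
      mem_powersetCard.2 ⟨hB.1, rfl⟩⟩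
  refine (card_le_card s).trans (card_biUnion_le.trans ?_)
  rw [add_pow]
  refine sum_le_sum fun j hj => ?_
  rw [card_powersetCard, one_pow, mul_one]
  exact (Nat.choose_le_pow _ _).trans (Nat.le_mul_of_pos_right _
    (Nat.choose_pos (Nat.lt_succ_iff.1 (mem_range.1 hj))))

theorem sum_blocks (n k : ℕ) (f : ℕ → ℝ) :
    ∑ t ∈ range (n * k), f t = ∑ i : Fin n, ∑ x : Fin k, f (i * k + x) := by
  rw [Fin.sum_univ_eq_sum_range (fun i => ∑ x : Fin k, f (i * k + x))]
  induction n with
  | zero => simp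
  | succ n ih =>
    rw [Nat.succ_mul, sum_range_add, ih, sum_range_succ,
      Fin.sum_univ_eq_sum_range (fun x => f (n * k + x))]

end Low

theorem low {Q V C Y : Type} [Fintype Q] (A : Q → Finset C) (See : Q → C → Finset Y)
    (val : Q → V → C → ℕ → Y → ℝ) (R : ℝ) (sg J nS qf F e m : ℕ) (hF : 0 < F) (he : 0 < e)
    (hA : ∀ q, (A q).card ≤ J) (hS : ∀ q c, (See q c).card ≤ sg)
    (h0 : ∀ q v c τ y, 0 ≤ val q v c τ y) (hR : ∀ q v c τ y, val q v c τ y ≤ R)
    (hv : ∀ q v c τ y, val q v c τ y ≠ 0 → y ∈ See q c) :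
    ∃ DD : Finset (Q → V → C → ℝ),
      DD.card ≤ (Fintype.card Q * J + 1) ^ (nS / (m + 1)) *
        ((nS / (m + 1) * sg + 1) * (nS * qf * F)) ^ nS ∧
      ∀ y : ℕ → Y, ∃ (ft : (Fin nS → Fin (qf * (F * e))) → Q → V → C → ℝ)
        (X : Q → V → C → Fin nS → Fin (qf * (F * e)) → ℝ),
        (∀ w, ft w ∈ DD) ∧ (∀ q v c i, ∑ x, X q v c i x = 0) ∧
        (∀ q v c i x, |X q v c i x| ≤ qf * R) ∧
        ∀ w q v, ∀ c ∈ A q, |ft w q v c -
          (∑ t ∈ range (nS * qf * (F * e)), val q v c (t / e) (y t)) / ((F * e : ℕ) : ℝ) -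
          ∑ i, X q v c i (w i)| ≤ m * qf * R := by
  set PP : Finset (Q × C) := univ.biUnion fun q => (A q).image fun c => (q, c) with hPP
  set Se : Q × C → Finset Y := fun p => See p.1 p.2 with hSe
  have cP : PP.card ≤ Fintype.card Q * J := by
    refine card_biUnion_le.trans ?_
    rw [← card_univ, ← smul_eq_mul]
    exact sum_le_card_nsmul _ _ _ fun q _ => card_image_le.trans (hA q)
  set ev : (Fin nS → Option Y × ℕ) → Q → V → C → ℝ :=
    fun d q v c => ∑ i, (qf : ℝ) * (d i).1.elim 0 (val q v c (d i).2) with hev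
  refine ⟨(PP.powerset.filter fun B => B.card ≤ nS / (m + 1)).biUnion fun B =>
    (Fintype.piFinset fun _ : Fin nS =>
      insertNone (B.biUnion Se) ×ˢ range (nS * qf * F)).image ev, ?_, fun y => ?_⟩
  · refine card_biUnion_le.trans ((sum_le_card_nsmul _ _
      (((nS / (m + 1) * sg + 1) * (nS * qf * F)) ^ nS) fun B hB => ?_).trans ?_)
    · refine card_image_le.trans ?_
      rw [Fintype.card_piFinset, prod_const, card_univ, Fintype.card_fin, card_product,
        card_insertNone, card_range]
      have c : (B.biUnion Se).card ≤ nS / (m + 1) * sg :=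
        card_biUnion_le.trans ((sum_le_card_nsmul _ _ sg fun p _ => hS _ _).trans
          (Nat.mul_le_mul_right _ (mem_filter.1 hB).2))
      gcongr
    · rw [smul_eq_mul]
      refine Nat.mul_le_mul_right _ ((Low.card_small _ _).trans ?_)
      gcongr
  have n0 : (0 : ℝ) < ((F * e : ℕ) : ℝ) := by positivity
  choose B hB hc hm using fun w : Fin nS → Fin (qf * (F * e)) =>
    Low.greedy PP Se (fun i : Fin nS => y (i * (qf * (F * e)) + w i)) m
  set vl : Q → V → C → ℕ → ℝ := fun q v c t => val q v c (t / e) (y t) with hvl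
  refine ⟨fun w => ev fun i => (if y (i * (qf * (F * e)) + w i) ∈ (B w).biUnion Se then
      some (y (i * (qf * (F * e)) + w i)) else none, (i * (qf * (F * e)) + w i) / e),
    fun q v c i x => qf * vl q v c (i * (qf * (F * e)) + x) -
      (∑ x' : Fin (qf * (F * e)), vl q v c (i * (qf * (F * e)) + x')) / ((F * e : ℕ) : ℝ),
    fun w => ?_, fun q v c i => ?_, fun q v c i x => ?_, fun w q v c hcA => ?_⟩
  · refine mem_biUnion.2 ⟨B w, mem_filter.2 ⟨mem_powerset.2 (hB w), ?_⟩,
      mem_image_of_mem _ (Fintype.mem_piFinset.2 fun i => mem_product.2 ⟨?_, ?_⟩)⟩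
    · have c := hc w
      rw [Fintype.card_fin] at c
      exact (Nat.le_div_iff_mul_le (Nat.succ_pos m)).2 c
    · rw [mem_insertNone]
      intro a ha
      dsimp only at ha
      split_ifs at ha with h
      · cases ha
        exact h
      · cases ha
    · rw [mem_range]
      refine (Nat.div_lt_iff_lt_mul he).2 ?_
      have a := (w i).2
      have b : (i + 1) * (qf * (F * e)) ≤ nS * (qf * (F * e)) := Nat.mul_le_mul_right _ i.2
      calc _ < (i + 1) * (qf * (F * e)) := by rw [Nat.succ_mul]; omega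
        _ ≤ _ := b
        _ = _ := by ring
  · rw [sum_sub_distrib, sum_const, card_univ, Fintype.card_fin, ← mul_sum, nsmul_eq_mul,
      Nat.cast_mul qf]
    field_simp
    ring
  · have a1 : (0 : ℝ) ≤ qf * vl q v c (i * (qf * (F * e)) + x) :=
      mul_nonneg (Nat.cast_nonneg _) (h0 _ _ _ _ _)
    have a2 : (qf : ℝ) * vl q v c (i * (qf * (F * e)) + x) ≤ qf * R :=
      mul_le_mul_of_nonneg_left (hR _ _ _ _ _) (Nat.cast_nonneg _)
    have a3 : 0 ≤ (∑ x' : Fin (qf * (F * e)), vl q v c (i * (qf * (F * e)) + x')) /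
        ((F * e : ℕ) : ℝ) := div_nonneg (sum_nonneg fun _ _ => h0 _ _ _ _ _) n0.le
    have a4 : (∑ x' : Fin (qf * (F * e)), vl q v c (i * (qf * (F * e)) + x')) /
        ((F * e : ℕ) : ℝ) ≤ qf * R := by
      rw [div_le_iff₀ n0]
      refine (sum_le_card_nsmul _ _ R fun _ _ => hR _ _ _ _ _).trans (le_of_eq ?_)
      rw [card_univ, Fintype.card_fin, nsmul_eq_mul, Nat.cast_mul qf]
      ring
    rw [abs_le]
    constructor <;> linarith
  · have sb := Low.sum_blocks nS (qf * (F * e)) (vl q v c)
    rw [← mul_assoc] at sb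
    have R0 : 0 ≤ R := (h0 q v c 0 (y 0)).trans (hR _ _ _ _ _)
    have k := hm w (q, c) (mem_biUnion.2 ⟨q, mem_univ _, mem_image_of_mem _ hcA⟩)
    rw [show (∑ t ∈ range (nS * qf * (F * e)), val q v c (t / e) (y t)) = _ from sb,
      sum_sub_distrib, sum_div, sub_sub, add_sub_cancel, hev]
    dsimp only
    rw [← sum_sub_distrib]
    refine (abs_sum_le_sum_abs _ _).trans ?_
    calc _ ≤ ∑ i : Fin nS, if y (i * (qf * (F * e)) + w i) ∈ Se (q, c) ∧
            y (i * (qf * (F * e)) + w i) ∉ (B w).biUnion Se then (qf : ℝ) * R else 0 := by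
          refine sum_le_sum fun i _ => ?_
          by_cases h1 : y (i * (qf * (F * e)) + w i) ∈ (B w).biUnion Se
          · simp [h1, hvl]
          · rw [if_neg h1, Option.elim_none, mul_zero, zero_sub, abs_neg,
              abs_of_nonneg (mul_nonneg (Nat.cast_nonneg _) (h0 _ _ _ _ _))]
            split_ifs with h2
            · exact mul_le_mul_of_nonneg_left (hR _ _ _ _ _) (Nat.cast_nonneg _)
            · have z : vl q v c (i * (qf * (F * e)) + w i) = 0 := by
                by_contra z
                exact h2 ⟨hv _ _ _ _ _ z, h1⟩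
              exact le_of_eq (mul_eq_zero_of_right _ z)
      _ ≤ _ := by
          rw [← sum_filter, sum_const, nsmul_eq_mul, mul_assoc]
          exact mul_le_mul_of_nonneg_right (by exact_mod_cast k)
            (mul_nonneg (Nat.cast_nonneg _) R0)

end Pool.Agent.Lib.MP_7903c7_al.F
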