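import Pool.Agent.Lib.MP_7903c7_al.RF.Win

set_option autoImplicit false

/-!
The score of a link along a path.
-/

namespace Pool.Agent.Lib.MP_7903c7_al.F

open Finset RF
open scoped Classical Pointwise

namespace SM

variable {G : Type} [Group G]

/-- The number of nearby times joined to `t` by the link `b`. -/
noncomputable def cn (W : Finset G) (U : ℕ) (γ : ℤ → G) (b : G) (t : ℤ) : ℕ :=
  ((range (2 * U + 1)).filter fun d : ℕ => (γ (t - U + d))⁻¹ * b * γ t ∈ W).card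

/-- The score of the link `b` on the window starting at `s`. -/
noncomputable def gg (W : Finset G) (n0 U V : ℕ) (γ : ℤ → G) (b : G) (s : ℤ) : ℝ :=
  ∑ i ∈ range V, min (n0 : ℝ) (4 * cn W U γ b (s + i))

variable (W : Finset G) (n0 U V : ℕ)

theorem gg_act (γ : ℤ → G) (c b : G) :
    gg W n0 U V (fun t => c * γ t) (c * b * c⁻¹) = gg W n0 U V γ b := by
  funext s
  unfold gg cn
  have e : ∀ x y : G, (c * x)⁻¹ * (c * b * c⁻¹) * (c * y) = x⁻¹ * b * y := fun x y => by group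
  simp only [e]

theorem gg_shift (γ : ℤ → G) (k : ℤ) (b : G) (s : ℤ) :
    gg W n0 U V (fun t => γ (t + k)) b s = gg W n0 U V γ b (s + k) := by
  unfold gg cn
  have e : ∀ i d : ℕ, s + i - U + d + k = s + k + i - U + d := fun i d => by ring
  have e' : ∀ i : ℕ, s + i + k = s + k + i := fun i => by ring
  simp only [e, e']

theorem gg_loop {g : G} {N : ℕ} {γ : ℤ → G} (h : IsLoop g N γ) (b : G) (s : ℤ) :
    gg W n0 U V γ (g * b * g⁻¹) (s + N) = gg W n0 U V γ b s := by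
  rw [← gg_shift, show (fun t => γ (t + N)) = fun t => g * γ t from funext h, gg_act]

theorem ps_nonneg (γ : ℤ → G) (b : G) (t : ℤ) : 0 ≤ min (n0 : ℝ) (4 * cn W U γ b t) :=
  le_min (by positivity) (by positivity)

theorem gg_nonneg (γ : ℤ → G) (b : G) (s : ℤ) : 0 ≤ gg W n0 U V γ b s :=
  sum_nonneg fun _ _ => ps_nonneg W n0 U γ b _

theorem gg_le (γ : ℤ → G) (b : G) (s : ℤ) : gg W n0 U V γ b s ≤ V * n0 := by
  refine (sum_le_card_nsmul _ _ (n0 : ℝ) fun _ _ => min_le_left _ _).trans ?_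
  rw [card_range, nsmul_eq_mul]

theorem gg_lip (γ : ℤ → G) (b : G) (s : ℤ) :
    |gg W n0 U V γ b (s + 1) - gg W n0 U V γ b s| ≤ n0 := by
  have h1 := sum_range_succ (fun i : ℕ => min (n0 : ℝ) (4 * cn W U γ b (s + i))) V
  have h2 := sum_range_succ' (fun i : ℕ => min (n0 : ℝ) (4 * cn W U γ b (s + i))) V
  have e : ∀ i : ℕ, s + ((i + 1 : ℕ) : ℤ) = s + 1 + i := fun i => by push_cast; ring
  simp only [e] at h2
  have h3 := ps_nonneg W n0 U γ b (s + V)
  have h4 := ps_nonneg W n0 U γ b (s + (0 : ℕ))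
  have h5 := min_le_left (n0 : ℝ) (4 * cn W U γ b (s + V))
  have h6 := min_le_left (n0 : ℝ) (4 * cn W U γ b (s + (0 : ℕ)))
  unfold gg
  rw [abs_le]
  constructor <;> linarith

theorem sum_cn (γ : ℤ → G) (B : Finset G) (t : ℤ) :
    ∑ b ∈ B, cn W U γ b t ≤ (2 * U + 1) * W.card := by
  unfold cn
  simp only [card_filter]
  rw [sum_comm]
  refine (sum_le_card_nsmul _ _ W.card fun d _ => ?_).trans (by rw [card_range, smul_eq_mul])
  rw [← card_filter]
  refine card_le_card_of_injOn (fun b => (γ (t - U + d))⁻¹ * b * γ t)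
    (fun b hb => (mem_filter.1 hb).2) fun b _ b' _ e => ?_
  exact mul_left_cancel (mul_right_cancel e)

theorem sum_gg (γ : ℤ → G) (B : Finset G) (s : ℤ) :
    ∑ b ∈ B, gg W n0 U V γ b s ≤ V * (4 * ((2 * U + 1) * W.card)) := by
  unfold gg
  rw [sum_comm]
  refine (sum_le_card_nsmul _ _ (4 * ((2 * U + 1) * W.card) : ℝ) fun i _ => ?_).trans
    (by rw [card_range, nsmul_eq_mul])
  refine (sum_le_sum fun b _ => min_le_right _ _).trans ?_
  rw [← mul_sum]
  have := sum_cn W U γ B (s + i)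
  exact mul_le_mul_of_nonneg_left (by exact_mod_cast this) (by norm_num)

theorem few_gg (γ : ℤ → G) {c : ℝ} (hc : 0 < c) {K1 : ℕ}
    (hK : (V : ℝ) * (4 * ((2 * U + 1) * W.card)) ≤ K1 * c) (s : ℤ) :
    ∃ A : Finset G, A.card ≤ K1 ∧ ∀ b, c ≤ gg W n0 U V γ b s → b ∈ A := by
  have key : ∀ B : Finset G, (∀ b ∈ B, c ≤ gg W n0 U V γ b s) → B.card ≤ K1 := by
    intro B hB
    have h1 := (card_nsmul_le_sum _ _ _ hB).trans ((sum_gg W n0 U V γ B s).trans hK)
    rw [nsmul_eq_mul] at h1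
    exact_mod_cast le_of_mul_le_mul_right h1 hc
  have hf : {b | c ≤ gg W n0 U V γ b s}.Finite := by
    by_contra hinf
    obtain ⟨B, hB, hc⟩ := Set.Infinite.exists_subset_card_eq hinf (K1 + 1)
    have := key B fun b hb => hB hb
    omega
  exact ⟨hf.toFinset, key _ fun b hb => hf.mem_toFinset.1 hb, fun b hb => hf.mem_toFinset.2 hb⟩

theorem near_window {g : G} {N m : ℕ} {γ γ' : ℤ → G} (h : IsLoop g N γ) (h' : IsLoop g N γ')
    (hn : Near N m γ γ') {M : ℕ} (hM : M ≤ N) (c : ℤ) :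
    ((range M).filter fun d : ℕ => γ (c + d) ≠ γ' (c + d)).card ≤ m := by
  have h1 := sum_window_le N M hM (fun t => if γ t ≠ γ' t then 1 else 0)
    (fun t => by simp only [h t, h' t, ne_eq, mul_right_inj]) c
  rw [Win.sum_Ico, ← card_filter, ← card_filter] at h1
  exact h1.trans hn

theorem gg_near {g : G} {N m : ℕ} {γ γ' : ℤ → G} (h : IsLoop g N γ) (h' : IsLoop g N γ')
    (hn : Near N m γ γ') (hU : 2 * U + 1 ≤ N) (hV : V ≤ N) (b : G) (s : ℤ) :
    |gg W n0 U V γ b s - gg W n0 U V γ' b s| ≤ m * n0 + V * (4 * m) := by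
  have key : ∀ (x y : ℤ → G) (t : ℤ), x t = y t → cn W U x b t ≤ cn W U y b t +
      ((range (2 * U + 1)).filter fun d : ℕ => x (t - U + d) ≠ y (t - U + d)).card := by
    intro x y t e
    refine le_trans (card_le_card fun d hd => ?_) (card_union_le _ _)
    rw [mem_filter] at hd
    by_cases e' : x (t - U + d) = y (t - U + d)
    · exact mem_union_left _ (mem_filter.2 ⟨hd.1, by rw [← e, ← e']; exact hd.2⟩)
    · exact mem_union_right _ (mem_filter.2 ⟨hd.1, e'⟩)
  have hterm : ∀ t : ℤ, |min (n0 : ℝ) (4 * cn W U γ b t) - min (n0 : ℝ) (4 * cn W U γ' b t)| ≤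
      (if γ t ≠ γ' t then (1 : ℝ) else 0) * n0 + 4 * m := by
    intro t
    by_cases e : γ t = γ' t
    · have w := near_window h h' hn hU (t - U)
      have k1 := key γ γ' t e
      have k2 := key γ' γ t e.symm
      simp only [ne_comm (a := γ' _)] at k2
      have k3 : (cn W U γ b t : ℝ) ≤ cn W U γ' b t + m := by exact_mod_cast k1.trans (by omega)
      have k4 : (cn W U γ' b t : ℝ) ≤ cn W U γ b t + m := by exact_mod_cast k2.trans (by omega)
      rw [if_neg (not_not.2 e), zero_mul, zero_add]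
      refine (abs_min_sub_min_le_max _ _ _ _).trans (max_le (by simp) ?_)
      rw [abs_le]
      constructor <;> linarith
    · rw [if_pos e, abs_le]
      have h3 := ps_nonneg W n0 U γ b t
      have h4 := ps_nonneg W n0 U γ' b t
      have h5 := min_le_left (n0 : ℝ) (4 * cn W U γ b t)
      have h6 := min_le_left (n0 : ℝ) (4 * cn W U γ' b t)
      have h7 : (0 : ℝ) ≤ m := by positivity
      constructor <;> linarith
  unfold gg
  rw [← sum_sub_distrib]
  refine (abs_sum_le_sum_abs _ _).trans ((sum_le_sum fun (i : ℕ) _ => hterm (s + i)).trans ?_)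
  rw [sum_add_distrib, ← sum_mul, sum_const, card_range, nsmul_eq_mul, sum_boole]
  have w : (((range V).filter fun d : ℕ => γ (s + d) ≠ γ' (s + d)).card : ℝ) ≤ m := by
    exact_mod_cast near_window h h' hn hV s
  have := mul_le_mul_of_nonneg_right w (show (0 : ℝ) ≤ n0 by positivity)
  linarith

theorem gg_pos {γ : ℤ → G} {b : G} {s : ℤ} (h : 0 < gg W n0 U V γ b s) :
    ∃ t t' : ℤ, s ≤ t ∧ t ≤ s + V ∧ t - U ≤ t' ∧ t' ≤ t + U ∧ (γ t')⁻¹ * b * γ t ∈ W := by
  obtain ⟨i, hi, hne⟩ := exists_ne_zero_of_sum_ne_zero h.ne'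
  have h1 : cn W U γ b (s + i) ≠ 0 := fun e => hne (by rw [e]; simp)
  obtain ⟨d, hd⟩ := card_ne_zero.1 h1
  rw [mem_filter, mem_range] at hd
  rw [mem_range] at hi
  exact ⟨s + i, s + i - U + d, by omega, by omega, by omega, by omega, hd.2⟩

/-- Two close alignments of one pattern give a strong link. -/
theorem gg_link {Sg D0 : ℕ} (γ : ℤ → G) (π : ℕ → G) (P : Set G)
    (hP : ∀ x ∈ P, ∀ y ∈ P, x * y⁻¹ ∈ W) {c c' : G} {s s' : ℤ} (hs : |s - s'| + n0 ≤ D0)
    (h : 5 * (Sg * n0) ≤ 6 * ((range Sg ×ˢ range n0).filter fun q : ℕ × ℕ =>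
      (γ (s + q.1 * n0 + q.2))⁻¹ * c * π q.1 ∈ P).card)
    (h' : 5 * (Sg * n0) ≤ 6 * ((range Sg ×ˢ range n0).filter fun q : ℕ × ℕ =>
      (γ (s' + q.1 * n0 + q.2))⁻¹ * c' * π q.1 ∈ P).card) :
    11 * ((Sg : ℝ) * n0 * n0) ≤ 18 * gg W n0 D0 (Sg * n0) γ (c' * c⁻¹) s := by
  set f : ℕ → ℕ := fun x => ((range n0).filter fun u : ℕ =>
    (γ (s + x * n0 + u))⁻¹ * c * π x ∈ P).card with hf
  set f' : ℕ → ℕ := fun x => ((range n0).filter fun u : ℕ =>
    (γ (s' + x * n0 + u))⁻¹ * c' * π x ∈ P).card with hf'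
  have e1 : 5 * (Sg * n0) ≤ 6 * ∑ x ∈ range Sg, f x := by
    rw [card_filter, sum_product] at h
    simpa only [hf, card_filter] using h
  have e2 : 5 * (Sg * n0) ≤ 6 * ∑ x ∈ range Sg, f' x := by
    rw [card_filter, sum_product] at h'
    simpa only [hf', card_filter] using h'
  have hfle : ∀ x, f x ≤ n0 := fun x => (card_filter_le _ _).trans (card_range _).le
  have hfle' : ∀ x, f' x ≤ n0 := fun x => (card_filter_le _ _).trans (card_range _).le
  have hcn : ∀ x u : ℕ, u < n0 → (γ (s + x * n0 + u))⁻¹ * c * π x ∈ P →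
      f' x ≤ cn W D0 γ (c' * c⁻¹) (s + (x * n0 + u : ℕ)) := by
    intro x u hu hx
    have hs' := abs_le.1 (show |s - s'| ≤ D0 - n0 by linarith)
    refine card_le_card_of_injOn (fun u' : ℕ => (s' - s + D0 - u + u').toNat) (fun u' hu' => ?_)
      fun a _ b _ e => ?_
    · rw [mem_coe, mem_filter, mem_range] at hu' ⊢
      beta_reduce
      refine ⟨by omega, ?_⟩
      have e3 : s + (x * n0 + u : ℕ) - D0 + ((s' - s + D0 - u + u').toNat : ℕ) =
          s' + x * n0 + u' := by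
        rw [Int.toNat_of_nonneg (by omega)]
        push_cast
        ring
      have e4 : s + (x * n0 + u : ℕ) = s + x * n0 + u := by push_cast; ring
      rw [e3, e4]
      have := hP _ hu'.2 _ hx
      convert this using 1
      group
    · simp only at e
      omega
  have hx : ∀ x ∈ range Sg, (n0 : ℝ) * f x - 4 / 3 * (n0 * (n0 - f' x)) ≤
      ∑ u ∈ range n0, min (n0 : ℝ) (4 * cn W D0 γ (c' * c⁻¹) (s + (x * n0 + u : ℕ))) := by
    intro x _
    have q1 : (f x : ℝ) ≤ n0 := by exact_mod_cast hfle x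
    have q2 : (f' x : ℝ) ≤ n0 := by exact_mod_cast hfle' x
    have q0 : (0 : ℝ) ≤ n0 := by positivity
    by_cases hq : (n0 : ℝ) ≤ 4 * f' x
    · have : (f x : ℝ) * n0 ≤ ∑ u ∈ range n0,
          min (n0 : ℝ) (4 * cn W D0 γ (c' * c⁻¹) (s + (x * n0 + u : ℕ))) := by
        refine le_trans ?_ (sum_le_sum_of_subset_of_nonneg (filter_subset (fun u : ℕ =>
          (γ (s + x * n0 + u))⁻¹ * c * π x ∈ P) _) fun _ _ _ => ps_nonneg W n0 D0 γ _ _)
        rw [← nsmul_eq_mul]
        refine card_nsmul_le_sum _ _ _ fun u hu => le_min le_rfl (hq.trans ?_)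
        rw [mem_filter, mem_range] at hu
        have : (f' x : ℝ) ≤ cn W D0 γ (c' * c⁻¹) (s + (x * n0 + u : ℕ)) := by
          exact_mod_cast hcn x u hu.1 hu.2
        linarith
      nlinarith [mul_nonneg q0 (sub_nonneg.2 q2)]
    · refine le_trans ?_ (sum_nonneg fun _ _ => ps_nonneg W n0 D0 γ _ _)
      nlinarith [mul_le_mul_of_nonneg_left q1 q0, mul_le_mul_of_nonneg_left (not_le.1 hq).le q0]
  have e5 : gg W n0 D0 (Sg * n0) γ (c' * c⁻¹) s = ∑ x ∈ range Sg, ∑ u ∈ range n0,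
      min (n0 : ℝ) (4 * cn W D0 γ (c' * c⁻¹) (s + (x * n0 + u : ℕ))) := by
    unfold gg
    generalize Sg = k
    induction k with
    | zero => simp
    | succ k ih => rw [add_mul, one_mul, sum_range_add, ih, sum_range_succ]
  have e6 := sum_le_sum hx
  rw [← e5, sum_sub_distrib, ← mul_sum, ← mul_sum, ← mul_sum, sum_sub_distrib, sum_const,
    card_range, nsmul_eq_mul] at e6
  have e7 : 5 * ((Sg : ℝ) * n0) ≤ 6 * ∑ x ∈ range Sg, (f x : ℝ) := by exact_mod_cast e1
  have e8 : 5 * ((Sg : ℝ) * n0) ≤ 6 * ∑ x ∈ range Sg, (f' x : ℝ) := by exact_mod_cast e2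
  have q0 : (0 : ℝ) ≤ n0 := by positivity
  nlinarith [mul_le_mul_of_nonneg_left e7 q0, mul_le_mul_of_nonneg_left e8 q0]

end SM

end Pool.Agent.Lib.MP_7903c7_al.F
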