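import Pool.Agent.Lib.MP_7903c7_al.F.SysM1
import Pool.Agent.Lib.MP_7903c7_al.F.SysM2
import Pool.Agent.Lib.MP_7903c7_al.RF.Xi

set_option autoImplicit false

/-!
A pattern that fits at all times: either a strong link is mortal, or the persistent links
generate a group that carries the loop.
-/

namespace Pool.Agent.Lib.MP_7903c7_al.F

open Finset RF
open scoped Classical Pointwise

namespace SM

theorem band {K : Type} (p : K → ℝ) {c h : ℝ} (hh : 0 < h) {K1 : ℕ} (A : Finset K)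
    (hA : A.card ≤ K1) (hA' : ∀ κ, c ≤ p κ → κ ∈ A) :
    ∃ b ≤ K1, ∀ κ, p κ < c + b * h ∨ c + (b + 1) * h ≤ p κ := by
  have hlt : (A.image fun κ => ⌊(p κ - c) / h⌋₊).card < (range (K1 + 1)).card := by
    rw [card_range]
    exact Nat.lt_succ_of_le (card_image_le.trans hA)
  obtain ⟨b, hb, hb'⟩ := exists_mem_notMem_of_card_lt_card hlt
  refine ⟨b, Nat.lt_succ_iff.1 (mem_range.1 hb), fun κ => ?_⟩
  by_contra hcon
  push Not at hcon
  have hb0 : (0 : ℝ) ≤ b * h := by positivity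
  refine hb' (mem_image.2 ⟨κ, hA' κ (by linarith [hcon.1]), ?_⟩)
  rw [Nat.floor_eq_iff (div_nonneg (by linarith [hcon.1]) hh.le), le_div_iff₀ hh, div_lt_iff₀ hh]
  constructor <;> linarith [hcon.1, hcon.2]

variable {G : Type} [Group G]

theorem inv_mem {S : Finset G} (hS : ∀ s ∈ S, s⁻¹ ∈ S) {n : ℕ} {y : G} (h : y ∈ (S : Set G) ^ n) :
    y⁻¹ ∈ (S : Set G) ^ n := by
  have e : (S : Set G)⁻¹ = S := by
    ext x
    exact ⟨fun hx => by simpa using hS _ hx, fun hx => hS _ hx⟩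
  rwa [← Set.mem_inv, ← inv_pow, e]

theorem mem3 {S : Finset G} (h1 : (1 : G) ∈ S) {a b c r : ℕ} {x y z : G}
    (hx : x ∈ (S : Set G) ^ a) (hy : y ∈ (S : Set G) ^ b) (hz : z ∈ (S : Set G) ^ c)
    (hr : a + b + c ≤ r) : x * y * z ∈ (S : Set G) ^ r := by
  refine Set.pow_subset_pow_right (Finset.mem_coe.2 h1) hr ?_
  rw [pow_add, pow_add]
  exact Set.mul_mem_mul (Set.mul_mem_mul hx hy) hz

theorem win_mem {S : Finset G} (h1 : (1 : G) ∈ S) (hS : ∀ s ∈ S, s⁻¹ ∈ S) {γ : ℤ → G}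
    {ℓ : ℤ → ℕ} (h : ∀ t, (γ t)⁻¹ * γ (t + 1) ∈ (S : Set G) ^ ℓ t) {a b : ℤ} {r : ℕ}
    (hr : ∑ u ∈ Ico a b, ℓ u ≤ r) {t t' : ℤ} (h2 : a ≤ t) (h3 : t ≤ b) (h4 : a ≤ t')
    (h5 : t' ≤ b) : (γ t)⁻¹ * γ t' ∈ (S : Set G) ^ r := by
  have key : ∀ t t' : ℤ, a ≤ t → t ≤ t' → t' ≤ b → (γ t)⁻¹ * γ t' ∈ (S : Set G) ^ r :=
    fun t t' q1 q2 q3 => Set.pow_subset_pow_right (Finset.mem_coe.2 h1)
      (le_trans (sum_le_sum_of_subset (Ico_subset_Ico q1 q3)) hr) (len_path h q2)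
  rcases le_total t t' with q | q
  · exact key t t' h2 q h5
  · simpa using inv_mem hS (key t' t h4 q h3)

theorem slow {N n0 L E : ℕ} (hN : N = L * n0) (hE : 0 < E) (ℓ : ℤ → ℕ)
    (hp : ∀ t, ℓ (t + N) = ℓ t) (hl : ∑ t ∈ range N, ℓ t ≤ L) :
    9 * N ≤ 10 * ((range N).filter fun t : ℕ =>
      ∑ u ∈ Ico ((t : ℤ) - (E * n0 : ℕ)) (t + (E * n0 : ℕ)), ℓ u ≤ 20 * E).card := by
  have hw := sum_window N (2 * (E * n0)) ℓ hp (-(E * n0 : ℕ))
  have e : ∀ t : ℕ, Ico ((t : ℤ) + -(E * n0 : ℕ)) (t + -(E * n0 : ℕ) + (2 * (E * n0) : ℕ)) =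
      Ico ((t : ℤ) - (E * n0 : ℕ)) (t + (E * n0 : ℕ)) := fun t => by
    congr 1
    push_cast
    ring
  simp only [e] at hw
  have h1 := card_filter_add_card_filter_not (s := range N) fun t : ℕ =>
    ∑ u ∈ Ico ((t : ℤ) - (E * n0 : ℕ)) (t + (E * n0 : ℕ)), ℓ u ≤ 20 * E
  have h2 := card_nsmul_le_sum ((range N).filter fun t : ℕ =>
    ¬ ∑ u ∈ Ico ((t : ℤ) - (E * n0 : ℕ)) (t + (E * n0 : ℕ)), ℓ u ≤ 20 * E)
    (fun t : ℕ => ∑ u ∈ Ico ((t : ℤ) - (E * n0 : ℕ)) (t + (E * n0 : ℕ)), ℓ u) (20 * E)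
    fun t ht => (not_le.1 (mem_filter.1 ht).2).le
  have h3 := (h2.trans (sum_le_sum_of_subset (filter_subset _ _))).trans
    (hw.le.trans (Nat.mul_le_mul_left _ hl))
  rw [card_range] at h1
  rw [smul_eq_mul] at h3
  generalize ((range N).filter fun t : ℕ =>
    ¬ ∑ u ∈ Ico ((t : ℤ) - (E * n0 : ℕ)) (t + (E * n0 : ℕ)), ℓ u ≤ 20 * E).card = y at h1 h3
  have h4 : E * (10 * y) ≤ E * N := by rw [hN]; nlinarith
  have h5 := Nat.le_of_mul_le_mul_left h4 hE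
  omega

/-- The links of persistence above a threshold. -/
noncomputable def AA (W : Finset G) (n0 U V : ℕ) (θ : ℝ) (γ : ℤ → G) : Finset G :=
  if h : {x | θ < pers (gg W n0 U V γ x)}.Finite then h.toFinset else ∅

theorem mem_AA {W : Finset G} {n0 U V K1 : ℕ} {c θ : ℝ} (hc : c ≤ θ) {γ : ℤ → G}
    (hK : ∀ s, ∃ A : Finset G, A.card ≤ K1 ∧ ∀ b, c ≤ gg W n0 U V γ b s → b ∈ A) (x : G) :
    x ∈ AA W n0 U V θ γ ↔ θ < pers (gg W n0 U V γ x) := by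
  obtain ⟨A, -, hA⟩ := hK 0
  have hf : {x | θ < pers (gg W n0 U V γ x)}.Finite := A.finite_toSet.subset fun x hx =>
    hA x (hc.trans ((le_of_lt hx).trans (pers_le (gg_nonneg W n0 U V γ x) 0)))
  rw [AA, dif_pos hf, hf.mem_toFinset]
  rfl

end SM

open SM in
theorem sysM {G : Type} [Group G] (g : G) (S : Finset G) (h1 : (1 : G) ∈ S)
    (hS : ∀ s ∈ S, s⁻¹ ∈ S) (R Sg gs D K1 r3 : ℕ) (hSg : 6 ≤ Sg) (hgs : 0 < gs)
    (hK : 192 * (6 * gs + 3) * S.card ^ (2 * R) ≤ K1)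
    (hr : 2 * R + D + 40 * (Sg + 3 * gs + 1) ≤ r3) (L n1 m : ℕ)
    (hL : 2 * (Sg + 3 * gs + 1) ≤ L) (hn1 : 13 * L * K1 ≤ Sg * n1) :
    ∃ n00 : ℕ, ∀ n0 ≥ n00, ∃ (F : ℤ → (ℤ → G) → ℂ) (A : ℕ → (ℤ → G) → Finset G),
      (∀ j, Equi g (Subgroup.centralizer {g}) (L * n0) (fun _ => j) (F j)) ∧
      (∀ b γ, (∀ c x, c * x * c⁻¹ ∈ A b (fun t => c * γ t) ↔ x ∈ A b γ) ∧
        A b (fun t => γ (t - 1)) = A b γ) ∧
      ∀ γ, Good g S (L * n0) L γ → ∀ π : ℕ → G, (∀ x, π x ∈ (S : Set G) ^ D) →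
        (∀ t : ℤ, ∃ (c : G) (s : ℤ), |s - t| ≤ gs * n0 ∧ 5 * (Sg * n0) ≤
          6 * ((range Sg ×ˢ range n0).filter fun q : ℕ × ℕ =>
            (γ (s + q.1 * n0 + q.2))⁻¹ * c * π q.1 ∈ (S : Set G) ^ R).card) →
        (∃ j ∈ Icc (1 : ℤ) (2 * n1 - 1), Fine g S (L * n0) L m (fun _ => j) (F j) γ) ∨
        ∃ b ≤ K1, (∀ γ2, Good g S (L * n0) L γ2 → Near (L * n0) m γ γ2 → A b γ2 = A b γ) ∧
          g ∈ Subgroup.closure (A b γ : Set G) ∧
          ∃ y0 : G, 9 * (L * n0) ≤ 10 * ((range (L * n0)).filter fun t : ℕ =>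
            (∀ x ∈ A b γ, (γ t)⁻¹ * x * γ t ∈ (S : Set G) ^ r3) ∧
              ∃ h ∈ Subgroup.closure (A b γ : Set G),
                (h * y0)⁻¹ * γ t ∈ (S : Set G) ^ r3).card := by
  obtain ⟨w, hw1, hw2, hw3⟩ : ∃ w : ℕ, 0 < w ∧ 6 * w ≤ Sg ∧ Sg ≤ 12 * w :=
    ⟨Sg / 6, by omega, by omega, by omega⟩
  have hL0 : 0 < L := by omega
  have hcard : 0 < S.card := card_pos.2 ⟨1, h1⟩
  have hK0 : 0 < K1 := lt_of_lt_of_le (by positivity) hK
  have hn10 : 0 < n1 := Nat.pos_of_mul_pos_left (lt_of_lt_of_le (by positivity) hn1)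
  have hnb : (L / w + 1) * K1 ≤ n1 := by
    refine Nat.le_of_mul_le_mul_left (le_trans ?_ hn1) (show 0 < Sg by omega)
    have h2 : L / w * w ≤ L := Nat.div_mul_le_self L w
    have h3 : Sg * (L / w + 1) ≤ 13 * L := by nlinarith
    rw [← mul_assoc]
    exact Nat.mul_le_mul_right _ h3
  obtain ⟨z, hz⟩ : ∃ z : ℝ, z = m * (1 + 4 * Sg) := ⟨_, rfl⟩
  have hz0 : 0 ≤ z := by rw [hz]; positivity
  obtain ⟨e, he⟩ : ∃ e : ℝ,
    e = L * (2 * K1) * (z * (w + Sg + 2 * Real.pi * (2 * n1) * (K1 + 1) * Sg)) := ⟨_, rfl⟩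
  have he0 : 0 ≤ e := by
    have := Real.pi_pos
    rw [he]
    positivity
  obtain ⟨n00, hn00⟩ := exists_nat_gt (192 * n1 * e + 8 * (K1 + 1) * z)
  refine ⟨n00 + 1, fun n0 hn0 => ?_⟩
  have hn0' : 0 < n0 := by omega
  have hn : (0 : ℝ) < n0 := by exact_mod_cast hn0'
  have hn0R : 192 * n1 * e + 8 * (K1 + 1) * z < n0 :=
    hn00.trans_le (by exact_mod_cast (by omega : n00 ≤ n0))
  have hwR : (1 : ℝ) ≤ w := by exact_mod_cast hw1
  obtain ⟨N, hN⟩ : ∃ N, N = L * n0 := ⟨_, rfl⟩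
  rw [← hN]
  have hN0 : 0 < N := hN ▸ Nat.mul_pos hL0 hn0'
  obtain ⟨U, hU⟩ : ∃ U, U = (3 * gs + 1) * n0 := ⟨_, rfl⟩
  obtain ⟨a, ha⟩ : ∃ a : ℝ, a = w * n0 * n0 := ⟨_, rfl⟩
  have ha0 : 0 < a := by rw [ha]; positivity
  obtain ⟨h, hh⟩ : ∃ h : ℝ, h = a / (4 * (K1 + 1)) := ⟨_, rfl⟩
  have hh0 : 0 < h := by rw [hh]; positivity
  have hh' : (K1 + 1) * h = a / 4 := by rw [hh]; field_simp
  have hUN : 2 * U + 1 ≤ N := by rw [hU, hN]; nlinarith
  have hVN : Sg * n0 ≤ N := by rw [hN]; exact Nat.mul_le_mul_right _ (by omega)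
  have hfew : ∀ (γ : ℤ → G) s, ∃ A : Finset G, A.card ≤ K1 ∧
      ∀ b, a / 4 ≤ gg (S ^ (2 * R)) n0 U (Sg * n0) γ b s → b ∈ A := by
    intro γ
    refine few_gg _ n0 U _ γ (by positivity) ?_
    have q1 : 2 * U + 1 ≤ (6 * gs + 3) * n0 := by rw [hU]; nlinarith
    have q2 : (S ^ (2 * R)).card ≤ S.card ^ (2 * R) := card_pow_le
    have q3 : 4 * (Sg * n0 * (4 * ((2 * U + 1) * (S ^ (2 * R)).card))) ≤ K1 * (w * n0 * n0) :=
      calc _ ≤ 4 * (12 * w * n0 * (4 * ((6 * gs + 3) * n0 * S.card ^ (2 * R)))) := by gcongr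
        _ = 192 * (6 * gs + 3) * S.card ^ (2 * R) * (w * n0 * n0) := by ring
        _ ≤ _ := Nat.mul_le_mul_right _ hK
    have q4 : 4 * (((Sg * n0 : ℕ) : ℝ) * (4 * ((2 * U + 1) * (S ^ (2 * R)).card))) ≤
        K1 * (w * n0 * n0) := by exact_mod_cast q3
    rw [ha]
    linarith
  have hthr : ∀ b : ℕ, a / 4 ≤ a / 4 + (b + 1 / 2) * h := fun b =>
    le_add_of_nonneg_right (by positivity)
  have hmem := fun (b : ℕ) (γ : ℤ → G) => mem_AA (hthr b) (hfew γ)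
  have hloop : ∀ γ, IsLoop g N γ → ∀ κ σ, gg (S ^ (2 * R)) n0 U (Sg * n0) γ
      ((MulAut.conj g).toEquiv κ) (σ + N) = gg (S ^ (2 * R)) n0 U (Sg * n0) γ κ σ :=
    fun γ hγ κ σ => gg_loop _ n0 U _ hγ κ σ
  have hsh : ∀ γ : ℤ → G, gg (S ^ (2 * R)) n0 U (Sg * n0) (fun t => γ (t - 1)) =
      fun κ σ => gg (S ^ (2 * R)) n0 U (Sg * n0) γ κ (σ - 1) := fun γ => by
    funext κ σ
    exact gg_shift _ n0 U _ γ (-1) κ σ
  have hnear : ∀ γ γ', IsLoop g N γ → IsLoop g N γ' → Near N m γ γ' → ∀ b s,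
      |gg (S ^ (2 * R)) n0 U (Sg * n0) γ b s - gg (S ^ (2 * R)) n0 U (Sg * n0) γ' b s| ≤
        z * n0 := fun γ γ' q1 q2 q3 b s => by
    refine (gg_near _ n0 U _ q1 q2 q3 hUN hVN b s).trans (le_of_eq ?_)
    rw [hz]
    push_cast
    ring
  refine ⟨fun j γ => nuM N ((K1 + 1) * N) a j (gg (S ^ (2 * R)) n0 U (Sg * n0) γ),
    fun b => AA (S ^ (2 * R)) n0 U (Sg * n0) (a / 4 + (b + 1 / 2) * h),
    fun j γ hγ => ⟨fun c _ => ⟨rfl, ?_⟩, rfl, ?_⟩, fun b γ => ⟨fun c x => ?_, ?_⟩,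
    fun γ hγ π hπ hwrap => ?_⟩
  · beta_reduce
    rw [← nuM_perm _ _ _ _ _ (MulAut.conj c).toEquiv]
    congr 1
    funext κ
    exact gg_act _ n0 U _ γ c κ
  · beta_reduce
    rw [hsh]
    exact nuM_shift hN0 _ a j _ _ (hloop γ hγ)
  · rw [hmem, hmem, gg_act]
  · ext x
    rw [hmem, hmem, hsh]
    exact Iff.of_eq (congrArg _ (pers_shift _ (-1)))
  by_cases hmort : ∃ κ σ, 7 * a / 2 ≤ gg (S ^ (2 * R)) n0 U (Sg * n0) γ κ σ ∧
      pers (gg (S ^ (2 * R)) n0 U (Sg * n0) γ κ) ≤ a / 2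
  · left
    obtain ⟨κ, σ, q1, q2⟩ := hmort
    have hJ : (n0 / 4 : ℕ) * 4 ≤ n0 := Nat.div_mul_le_self _ _
    have hJ1 : ((n0 / 4 : ℕ) : ℝ) * 4 ≤ n0 := by exact_mod_cast hJ
    have hJ2 : (n0 : ℝ) ≤ 4 * ((n0 / 4 : ℕ) + 1) := by
      exact_mod_cast (by omega : n0 ≤ 4 * (n0 / 4 + 1))
    obtain ⟨j, hj, hlow⟩ := lower (K1 := K1) (B := w * n0) (nb := L / w + 1) (J := n0 / 4)
      (lam := n0) hN0 hn10 (Nat.mul_pos hw1 hn0') ha0 hn.le (by rw [ha]; push_cast; exact le_rfl)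
      (by
        rw [hN, ← mul_assoc]
        exact Nat.mul_le_mul_right _ (by
          have := Nat.lt_div_mul_add (a := L) hw1
          rw [add_mul, one_mul]
          exact this.le))
      hnb (by rw [hN]; nlinarith) (by rw [ha]; nlinarith [mul_pos hn hn]) _ _ (hloop γ hγ.1)
      (gg_lip _ n0 U _ γ) (hfew γ) q1 q2
    refine ⟨j, hj, fun γ' γ'' h' h'' hn' hn'' => ⟨rfl, ?_⟩⟩
    have hjb : |(j : ℝ)| ≤ 2 * n1 := by
      rw [mem_Icc] at hj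
      have h2 : |j| ≤ 2 * n1 := abs_le.2 ⟨by omega, by omega⟩
      exact_mod_cast h2
    have hc : ∀ γ', Good g S N L γ' → Near N m γ γ' →
        ‖nuM N ((K1 + 1) * N) a j (gg (S ^ (2 * R)) n0 U (Sg * n0) γ) -
          nuM N ((K1 + 1) * N) a j (gg (S ^ (2 * R)) n0 U (Sg * n0) γ')‖ ≤ e * n0 ^ 4 := by
      intro γ' q3 q4
      refine (cont hN0 ha0 _ _ (gg_nonneg _ n0 U _ γ) (gg_nonneg _ n0 U _ γ') (by positivity)
        (gg_le _ n0 U _ γ) (by positivity) (hnear γ γ' hγ.1 q3.1 q4) (hfew γ) (hfew γ')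
        hjb).trans (le_of_eq ?_)
      rw [he, ha, hN]
      push_cast
      ring
    refine re_pos (e := e * n0 ^ 4) ?_ (hc γ' h' hn') (hc γ'' h'' hn'')
    have hn1R : (0 : ℝ) < n1 := by exact_mod_cast hn10
    refine lt_of_mul_lt_mul_left (lt_of_lt_of_le ?_ hlow) (by positivity : (0 : ℝ) ≤ 2 * n1)
    have q5 : (n0 : ℝ) ^ 4 ≤ a ^ 2 := by
      rw [ha, show (n0 : ℝ) ^ 4 = (1 * n0 * n0) ^ 2 by ring]
      gcongr
    have q6 : 192 * n1 * e < n0 := lt_of_le_of_lt (le_add_of_nonneg_right (by positivity)) hn0R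
    have q7 : (0 : ℝ) < (n0 : ℝ) ^ 4 := by positivity
    have q8 := mul_lt_mul_of_pos_right q6 q7
    have q9 := mul_le_mul hJ2 q5 q7.le (by positivity)
    linarith
  right
  push Not at hmort
  obtain ⟨A0, a1, a2⟩ := hfew γ 0
  obtain ⟨b, hb, hband⟩ := band (fun x => pers (gg (S ^ (2 * R)) n0 U (Sg * n0) γ x)) hh0 A0 a1
    fun x hx => a2 x (hx.trans (pers_le (gg_nonneg _ n0 U _ γ x) 0))
  have hzh : z * n0 < h / 2 := by
    have q6 : 8 * (K1 + 1) * z < n0 := lt_of_le_of_lt (le_add_of_nonneg_left (by positivity)) hn0R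
    have q7 : (n0 : ℝ) * n0 ≤ a := by rw [ha, mul_assoc]; exact le_mul_of_one_le_left (by positivity) hwR
    refine lt_of_mul_lt_mul_left (a := (K1 : ℝ) + 1) ?_ (by positivity)
    nlinarith [mul_lt_mul_of_pos_right q6 hn]
  choose c s hs hcs using hwrap
  have hbh : (b + 1 / 2) * h ≤ a / 4 := by
    have : (b : ℝ) ≤ K1 := by exact_mod_cast hb
    rw [← hh']
    exact mul_le_mul_of_nonneg_right (by linarith) hh0.le
  have hlink : ∀ (c c' : G) (s s' : ℤ), |s - s'| ≤ 3 * (gs * n0) →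
      5 * (Sg * n0) ≤ 6 * ((range Sg ×ˢ range n0).filter fun q : ℕ × ℕ =>
        (γ (s + q.1 * n0 + q.2))⁻¹ * c * π q.1 ∈ (S : Set G) ^ R).card →
      5 * (Sg * n0) ≤ 6 * ((range Sg ×ˢ range n0).filter fun q : ℕ × ℕ =>
        (γ (s' + q.1 * n0 + q.2))⁻¹ * c' * π q.1 ∈ (S : Set G) ^ R).card →
      c' * c⁻¹ ∈ Subgroup.closure ((AA (S ^ (2 * R)) n0 U (Sg * n0)
        (a / 4 + (b + 1 / 2) * h) γ : Finset G) : Set G) := by
    intro c c' s s' q1 q2 q3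
    refine Subgroup.subset_closure (mem_coe.2 ((hmem b γ _).2 ?_))
    have q4 := gg_link (S ^ (2 * R)) n0 (D0 := U) γ π ((S : Set G) ^ R) (fun x hx y hy => by
      rw [← mem_coe, coe_pow, two_mul, pow_add]
      exact Set.mul_mem_mul hx (inv_mem hS hy)) (by rw [hU]; push_cast; linarith) q2 q3
    have q5 : 6 * (w : ℝ) ≤ Sg := by exact_mod_cast hw2
    have q6 := hmort (c' * c⁻¹) s (by
      rw [ha]
      nlinarith [mul_le_mul_of_nonneg_right q5 (mul_pos hn hn).le, mul_pos hn hn])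
    linarith
  have hgn : (1 : ℤ) ≤ gs * n0 := by exact_mod_cast Nat.mul_pos hgs hn0'
  have hstep : ∀ t : ℤ, c (t + 1) * (c t)⁻¹ ∈ Subgroup.closure ((AA (S ^ (2 * R)) n0 U (Sg * n0)
      (a / 4 + (b + 1 / 2) * h) γ : Finset G) : Set G) := fun t => by
    have q1 := abs_le.1 (hs t)
    have q2 := abs_le.1 (hs (t + 1))
    exact hlink _ _ _ _ (abs_le.2 ⟨by linarith, by linarith⟩) (hcs t) (hcs (t + 1))
  have hchain : ∀ t : ℕ, c t * (c 0)⁻¹ ∈ Subgroup.closure ((AA (S ^ (2 * R)) n0 U (Sg * n0)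
      (a / 4 + (b + 1 / 2) * h) γ : Finset G) : Set G) := fun t => by
    induction t with
    | zero => simp
    | succ t ih =>
      have := mul_mem (hstep t) ih
      rw [mul_assoc, inv_mul_cancel_left] at this
      exact_mod_cast this
  refine ⟨b, hb, fun γ2 q1 q2 => ?_, ?_, c 0, ?_⟩
  · ext x
    rw [hmem, hmem]
    have q3 := abs_le.1 (pers_lip (gg_nonneg _ n0 U _ γ x) (gg_nonneg _ n0 U _ γ2 x)
      (hnear γ γ2 hγ.1 q1.1 q2 x))
    rcases hband x with q | q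
    · exact iff_of_false (by linarith [q3.1]) (by linarith)
    · exact iff_of_true (by linarith [q3.2]) (by linarith)
  · have q1 := abs_le.1 (hs 0)
    have q2 := abs_le.1 (hs N)
    have q3 := hlink (c N) (g * c 0) (s N) (s 0 + N) (abs_le.2 ⟨by linarith, by linarith⟩)
      (hcs N) (by
        refine (hcs 0).trans (le_of_eq ?_)
        congr 2
        refine filter_congr fun q _ => ?_
        rw [show s 0 + N + q.1 * n0 + q.2 = s 0 + q.1 * n0 + q.2 + N by ring, hγ.1]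
        exact Iff.of_eq (congrArg (· ∈ (S : Set G) ^ R) (by group)))
    have := mul_mem q3 (hchain N)
    rwa [mul_assoc, inv_mul_cancel_left, mul_inv_cancel_right] at this
  · obtain ⟨ℓ, l1, l2, l3⟩ := hγ.2
    refine (slow hN (show 0 < Sg + 3 * gs + 1 by omega) ℓ l1 l3).trans
      (Nat.mul_le_mul_left _ (card_le_card (monotone_filter_right _ fun t _ ht => ?_)))
    have hE : (((Sg + 3 * gs + 1) * n0 : ℕ) : ℤ) = (Sg * n0 : ℕ) + U := by
      rw [hU]; push_cast; ring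
    have hU' : (U : ℤ) = 3 * (gs * n0) + n0 := by rw [hU]; push_cast; ring
    rw [hE] at ht
    have hw := fun t' => win_mem h1 hS l2 ht (t := t) (t' := t') (by omega) (by omega)
    constructor
    · intro x hx
      have q1 := ((hthr b).trans_lt ((hmem b γ x).1 hx)).trans_le
        (pers_le (gg_nonneg _ n0 U _ γ x) t)
      obtain ⟨t1, t2, p1, p2, p3, p4, p5⟩ := gg_pos _ n0 U _ (lt_trans (by positivity) q1)
      rw [← mem_coe, coe_pow] at p5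
      have := mem3 h1 (hw t2 (by omega) (by omega)) p5 (inv_mem hS (hw t1 (by omega) (by omega)))
        (show _ ≤ r3 by omega)
      convert this using 1
      group
    · refine ⟨_, hchain t, ?_⟩
      have q0 : 0 < Sg * n0 := Nat.mul_pos (by omega) hn0'
      obtain ⟨q, hq⟩ := card_pos.1 (Nat.pos_of_mul_pos_left (lt_of_lt_of_le (by omega) (hcs t)))
      rw [mem_filter, mem_product, mem_range, mem_range] at hq
      have q1 := abs_le.1 (hs t)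
      have q2 : ((q.1 * n0 + q.2 : ℕ) : ℤ) ≤ (Sg * n0 : ℕ) := by
        have : (q.1 + 1) * n0 ≤ Sg * n0 := Nat.mul_le_mul_right _ hq.1.1
        exact_mod_cast (by nlinarith [hq.1.2] : q.1 * n0 + q.2 ≤ Sg * n0)
      have q3 : (0 : ℤ) ≤ q.1 * n0 + q.2 := by positivity
      have q4 : (0 : ℤ) ≤ (Sg * n0 : ℕ) := by positivity
      rw [Nat.cast_add, Nat.cast_mul] at q2
      have := mem3 h1 (hπ q.1) (inv_mem hS hq.2) (inv_mem hS
        (hw (s t + q.1 * n0 + q.2) (by linarith) (by linarith))) (show _ ≤ r3 by omega)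
      convert this using 1
      group

end Pool.Agent.Lib.MP_7903c7_al.F
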