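import Pool.Agent.Lib.MP_7903c7_al.RF.Nu
import Pool.Agent.Lib.MP_7903c7_al.RF.Grp
import Pool.Agent.Lib.MP_7903c7_al.RF.Win

set_option autoImplicit false

/-!
The system of mortal links, abstract part: scores `F κ` that are periodic up to a permutation
of the indices.
-/

namespace Pool.Agent.Lib.MP_7903c7_al.F

open Finset RF
open scoped Classical Pointwise

namespace SM

theorem pers_le {F : ℤ → ℝ} (h0 : ∀ σ, 0 ≤ F σ) (σ : ℤ) : pers F ≤ F σ :=
  ciInf_le ⟨0, by rintro _ ⟨σ, rfl⟩; exact h0 σ⟩ σ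

theorem pers_nonneg {F : ℤ → ℝ} (h0 : ∀ σ, 0 ≤ F σ) : 0 ≤ pers F := le_ciInf h0

theorem pers_le_add {F F' : ℤ → ℝ} {ζ : ℝ} (h0 : ∀ σ, 0 ≤ F σ) (h : ∀ σ, F σ ≤ F' σ + ζ) :
    pers F ≤ pers F' + ζ := by
  have : pers F - ζ ≤ pers F' := le_ciInf fun σ => by linarith [pers_le h0 σ, h σ]
  linarith

theorem pers_lip {F F' : ℤ → ℝ} {ζ : ℝ} (h0 : ∀ σ, 0 ≤ F σ) (h0' : ∀ σ, 0 ≤ F' σ)
    (h : ∀ σ, |F σ - F' σ| ≤ ζ) : |pers F - pers F'| ≤ ζ := by
  have h1 := pers_le_add (F' := F') h0 fun σ => (by linarith [(abs_le.1 (h σ)).2] : _ ≤ _ + ζ)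
  have h2 := pers_le_add (F' := F) h0' fun σ => (by linarith [(abs_le.1 (h σ)).1] : _ ≤ _ + ζ)
  rw [abs_le]
  constructor <;> linarith

theorem pers_shift (F : ℤ → ℝ) (c : ℤ) : pers (fun σ => F (σ + c)) = pers F :=
  (Equiv.addRight c).iInf_comp (g := F)

/-- The weight of a mortal link. -/
noncomputable def wM (a : ℝ) (F : ℤ → ℝ) (σ : ℤ) : ℝ :=
  max 0 (F σ - 3 * a) * max 0 (a - pers F)

/-- One term of the Fourier coefficient. -/
noncomputable def tM (N M : ℕ) (a : ℝ) (j : ℤ) (F : ℤ → ℝ) (σ : ℤ) : ℂ :=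
  (wM a F σ : ℂ) * ee (j * (tauf M a F σ / N))

/-- The Fourier coefficients. -/
noncomputable def nuM {K : Type} (N M : ℕ) (a : ℝ) (j : ℤ) (F : K → ℤ → ℝ) : ℂ :=
  ∑ σ ∈ range N, ∑ᶠ κ, tM N M a j (F κ) σ

theorem wM_nonneg (a : ℝ) (F : ℤ → ℝ) (σ : ℤ) : 0 ≤ wM a F σ :=
  mul_nonneg (le_max_left _ _) (le_max_left _ _)

theorem wM_shift (a : ℝ) (F : ℤ → ℝ) (c σ : ℤ) :
    wM a (fun t => F (t + c)) σ = wM a F (σ + c) := by
  unfold wM
  rw [pers_shift]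

theorem wM_pos {a : ℝ} {F : ℤ → ℝ} {σ : ℤ} (h : wM a F σ ≠ 0) : 3 * a < F σ ∧ pers F < a := by
  constructor
  · by_contra hc
    exact left_ne_zero_of_mul h (max_eq_left (by linarith [not_lt.1 hc]))
  · by_contra hc
    exact right_ne_zero_of_mul h (max_eq_left (by linarith [not_lt.1 hc]))

theorem tM_shift {N : ℕ} (M : ℕ) (a : ℝ) (j : ℤ) (F : ℤ → ℝ) (c σ : ℤ) :
    tM N M a j (fun t => F (t + c)) σ = ee (-(j * c / N)) * tM N M a j F (σ + c) := by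
  unfold tM
  rw [wM_shift, Nu.tauf_shift, mul_left_comm, ← Nu.ee_add]
  congr 2
  ring

theorem nuM_perm {K : Type} (N M : ℕ) (a : ℝ) (j : ℤ) (F : K → ℤ → ℝ) (π : Equiv.Perm K) :
    nuM N M a j (fun κ => F (π κ)) = nuM N M a j F :=
  sum_congr rfl fun σ _ => finsum_comp_equiv π (f := fun κ => tM N M a j (F κ) σ)

theorem nuM_shift {K : Type} {N : ℕ} (hN : 0 < N) (M : ℕ) (a : ℝ) (j : ℤ) (F : K → ℤ → ℝ)
    (π : Equiv.Perm K) (hp : ∀ κ σ, F (π κ) (σ + N) = F κ σ) :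
    nuM N M a j (fun κ σ => F κ (σ - 1)) = ee ((j : ℝ) / N) * nuM N M a j F := by
  have hN' : (N : ℝ) ≠ 0 := by positivity
  have hper : ∀ σ : ℤ, ∑ᶠ κ, tM N M a j (F κ) (σ + N) = ∑ᶠ κ, tM N M a j (F κ) σ := by
    intro σ
    rw [← finsum_comp_equiv π (f := fun κ => tM N M a j (F κ) (σ + N))]
    refine finsum_congr fun κ => ?_
    have h := tM_shift (N := N) M a j (F (π κ)) N σ
    have e : (fun t => F (π κ) (t + N)) = F κ := funext (hp κ)
    have e2 : -((j : ℝ) * (N : ℤ) / N) = ((-j : ℤ) : ℝ) := by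
      push_cast
      field_simp
    rw [e, e2, Nu.ee_int, one_mul] at h
    exact h.symm
  unfold nuM
  rw [← Nu.sum_per (fun σ => ∑ᶠ κ, tM N M a j (F κ) σ) N hper (-1), mul_sum]
  refine sum_congr rfl fun σ _ => ?_
  rw [mul_finsum]
  refine finsum_congr fun κ => ?_
  have h := tM_shift (N := N) M a j (F κ) (-1) σ
  simp only [← sub_eq_add_neg] at h
  rw [h, neg_add_eq_sub]
  congr 2
  push_cast
  ring

theorem tau_succ (M : ℕ) {a : ℝ} (ha : 0 < a) (F : ℤ → ℝ) (σ : ℤ)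
    (hl : ∃ i ≤ M, F (σ - i) ≤ a) (h1 : 2 * a ≤ F σ) (h2 : 2 * a ≤ F (σ + 1)) :
    tauf M a F (σ + 1) = tauf M a F σ := by
  obtain ⟨i, hi, h0⟩ := hl
  have e0 : clip ((mn F σ M - a) / a) = 0 := by
    have h3 := Grp.mn_le F σ M i hi
    have : (mn F σ M - a) / a ≤ 0 := div_nonpos_of_nonpos_of_nonneg (by linarith) ha.le
    exact max_eq_left ((min_le_right _ _).trans this)
  have e1 : clip ((mn F σ 0 - a) / a) = 1 := by
    have : 1 ≤ (mn F σ 0 - a) / a := by rw [le_div_iff₀ ha, mn]; linarith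
    rw [clip, min_eq_left this]; simp
  have e2 := sum_range_succ' (fun i => clip ((mn F σ i - a) / a)) M
  rw [sum_range_succ, e0, e1] at e2
  unfold tauf
  simp only [Grp.mn_succ, Grp.clip_min ha h2]
  push_cast
  linarith

theorem tau_block (M : ℕ) {a lam : ℝ} (ha : 0 < a) (hlam : 0 ≤ lam) (F : ℤ → ℝ)
    (hl : ∀ σ, ∃ i ≤ M, F (σ - i) ≤ a) (hlip : ∀ σ, |F (σ + 1) - F σ| ≤ lam)
    (σ : ℤ) (k : ℕ) (h : 2 * a + k * lam ≤ F (σ + k)) : tauf M a F (σ + k) = tauf M a F σ := by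
  induction k with
  | zero => simp
  | succ k ih =>
    push_cast at h ⊢
    rw [← add_assoc] at h ⊢
    have h1 := (abs_le.1 (hlip (σ + k))).2
    have h2 : 0 ≤ (k : ℝ) * lam := by positivity
    rw [tau_succ M ha F _ (hl _) (by linarith) (by linarith), ih (by linarith)]

/-- A link that is not persistent was weak not long ago. -/
theorem lookback {K : Type} {N K1 : ℕ} (hN : 0 < N) {a : ℝ} (ha : 0 < a) (F : K → ℤ → ℝ)
    (π : Equiv.Perm K) (hp : ∀ κ σ, F (π κ) (σ + N) = F κ σ)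
    (hK : ∀ σ, ∃ A : Finset K, A.card ≤ K1 ∧ ∀ κ, a / 4 ≤ F κ σ → κ ∈ A) {κ : K}
    (hκ : pers (F κ) < a) (σ : ℤ) : ∃ i ≤ (K1 + 1) * N, F κ (σ - i) ≤ a := by
  by_contra hc
  push Not at hc
  have hpow : ∀ (j : ℕ) κ σ, F ((π ^ j) κ) (σ + j * N) = F κ σ := by
    intro j
    induction j with
    | zero => simp
    | succ j ih =>
      intro κ σ
      have e : σ + ((j + 1 : ℕ) : ℤ) * N = σ + j * N + N := by push_cast; ring
      rw [pow_succ', Equiv.Perm.mul_apply, e, hp, ih]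
  obtain ⟨A, hA, hA'⟩ := hK σ
  have hmem : ∀ j ∈ range (K1 + 1), (π ^ j) κ ∈ A := by
    intro j hj
    refine hA' _ ?_
    have h1 := hpow j κ (σ - j * N)
    rw [sub_add_cancel] at h1
    have h2 := hc (j * N) (Nat.mul_le_mul_right _ (mem_range.1 hj).le)
    push_cast at h2
    linarith
  obtain ⟨x, hx, y, hy, hne, e⟩ := exists_ne_map_eq_of_card_lt_of_maps_to
    (by rw [card_range]; omega : A.card < (range (K1 + 1)).card) hmem
  have key : ∀ x y : ℕ, x < y → y < K1 + 1 → (π ^ x) κ = (π ^ y) κ → False := by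
    intro x y hxy hy e
    obtain ⟨d, rfl⟩ := Nat.exists_eq_add_of_lt hxy
    rw [add_assoc, pow_add, Equiv.Perm.mul_apply] at e
    have e' := (π ^ x).injective e
    have hper : ∀ t, F κ (t + ((d + 1 : ℕ) : ℤ) * N) = F κ t := fun t => by
      have := hpow (d + 1) κ t
      rwa [← e'] at this
    have hD : (0 : ℤ) < ((d + 1 : ℕ) : ℤ) * N := by positivity
    refine absurd (le_ciInf fun t => ?_) (not_le.2 hκ)
    have h3 := Int.emod_lt_of_pos (σ - t) hD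
    have h4 := Int.emod_nonneg (σ - t) hD.ne'
    have h5 := Int.emod_add_ediv_mul (σ - t) (((d + 1 : ℕ) : ℤ) * N)
    have h6 := hc ((σ - t) % (((d + 1 : ℕ) : ℤ) * N)).toNat (by
      have : (d + 1) * N ≤ (K1 + 1) * N := Nat.mul_le_mul_right _ (by omega)
      have h7 : (((d + 1 : ℕ) : ℤ) * N) = ((d + 1) * N : ℕ) := by push_cast; ring
      omega)
    rw [Int.toNat_of_nonneg h4, show σ - (σ - t) % (((d + 1 : ℕ) : ℤ) * N) =
      t + (σ - t) / (((d + 1 : ℕ) : ℤ) * N) * (((d + 1 : ℕ) : ℤ) * N) by linarith,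
      Grp.per_mul (F κ) _ hper] at h6
    exact h6.le
  rcases lt_or_gt_of_ne hne with h | h
  · exact key x y h (mem_range.1 hy) e
  · exact key y x h (mem_range.1 hx) e.symm

theorem fin_eq {K A : Type} [AddCommMonoid A] (f : K → A) (U : Finset K)
    (h : ∀ κ, κ ∉ U → f κ = 0) : ∑ᶠ κ, f κ = ∑ κ ∈ U, f κ :=
  finsum_eq_sum_of_support_subset _ fun κ hκ => by
    by_contra h'
    exact hκ (h κ h')

theorem tM_zero {N M : ℕ} {a : ℝ} {j : ℤ} {F : ℤ → ℝ} {σ : ℤ} (h : wM a F σ = 0) :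
    tM N M a j F σ = 0 := by
  unfold tM
  rw [h]
  simp

/-- The lower bound for one of the Fourier coefficients. -/
theorem lower {K : Type} {N K1 n1 B nb J : ℕ} (hN : 0 < N) (hn1 : 0 < n1) (hB : 0 < B)
    {a lam : ℝ} (ha : 0 < a) (hlam : 0 ≤ lam) (hBl : B * lam ≤ a) (hnb : N ≤ nb * B)
    (hn : nb * K1 ≤ n1) (hJ : J < N) (hJl : 4 * (J * lam) ≤ a) (F : K → ℤ → ℝ)
    (π : Equiv.Perm K) (hp : ∀ κ σ, F (π κ) (σ + N) = F κ σ)
    (hlip : ∀ κ σ, |F κ (σ + 1) - F κ σ| ≤ lam)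
    (hK : ∀ σ, ∃ A : Finset K, A.card ≤ K1 ∧ ∀ κ, a / 4 ≤ F κ σ → κ ∈ A) {κ0 : K} {σ0 : ℤ}
    (h1 : 7 * a / 2 ≤ F κ0 σ0) (h2 : pers (F κ0) ≤ a / 2) :
    ∃ j ∈ Icc (1 : ℤ) (2 * n1 - 1),
      (J + 1) * (a ^ 2 / 8) ≤ 2 * n1 * ‖nuM N ((K1 + 1) * N) a j F‖ := by
  have hlook := fun κ h σ => lookback hN ha F π hp hK (κ := κ) h σ
  choose A hA hA' using hK
  have hw : ∀ κ σ, κ ∉ A σ → wM a (F κ) σ = 0 := fun κ σ h => by
    by_contra hc
    exact h (hA' σ κ (by linarith [(wM_pos hc).1]))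
  set U : Finset K := (range N).biUnion fun σ : ℕ => A σ with hU
  have hU' : ∀ σ ∈ range N, ∀ κ, κ ∉ U → wM a (F κ) σ = 0 := fun σ hσ κ h =>
    hw κ σ fun h' => h (mem_biUnion.2 ⟨σ, hσ, h'⟩)
  obtain ⟨j, hj, h⟩ := few_points (range N ×ˢ U) (fun i => wM a (F i.2) i.1)
    (fun _ _ => wM_nonneg _ _ _) (fun i => tauf ((K1 + 1) * N) a (F i.2) i.1 / N) n1 hn1
    ((range nb).biUnion fun k => (A (k * B : ℕ)).image fun κ =>
      ee (tauf ((K1 + 1) * N) a (F κ) (k * B : ℕ) / N))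
    (by
      refine card_biUnion_le.trans (le_trans (sum_le_card_nsmul _ _ K1 fun k _ =>
        card_image_le.trans (hA _)) ?_)
      rwa [card_range, smul_eq_mul])
    (by
      rintro ⟨σ, κ⟩ hi hne
      have hσ : σ < N := mem_range.1 (mem_product.1 hi).1
      obtain ⟨p1, p2⟩ := wM_pos hne
      simp only at p1 p2 ⊢
      have e : ((σ / B * B : ℕ) : ℤ) + (σ % B : ℕ) = σ := by
        exact_mod_cast Nat.div_add_mod' σ B
      have hm : ((σ % B : ℕ) : ℝ) * lam ≤ a :=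
        (mul_le_mul_of_nonneg_right (by exact_mod_cast (Nat.mod_lt σ hB).le) hlam).trans hBl
      have h3 := tau_block ((K1 + 1) * N) ha hlam (F κ) (hlook κ p2) (hlip κ)
        (σ / B * B : ℕ) (σ % B) (by rw [e]; linarith)
      have h4 := (abs_le.1 (Grp.lip_iter (F κ) (hlip κ) (σ / B * B : ℕ) (σ % B))).2
      rw [e] at h3 h4
      refine mem_biUnion.2 ⟨σ / B, mem_range.2 ?_, mem_image.2 ⟨κ, hA' _ κ (by linarith), ?_⟩⟩
      · exact (Nat.div_lt_iff_lt_mul hB).2 (by omega)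
      · rw [h3])
  refine ⟨j, hj, ?_⟩
  have e1 : nuM N ((K1 + 1) * N) a j F = ∑ i ∈ range N ×ˢ U, (wM a (F i.2) i.1 : ℂ) *
      ee (j * (tauf ((K1 + 1) * N) a (F i.2) i.1 / N)) := by
    rw [sum_product]
    exact sum_congr rfl fun σ hσ => fin_eq _ U fun κ hκ => tM_zero (hU' σ hσ κ hκ)
  rw [e1]
  refine le_trans ?_ h
  have e2 : ∑ i ∈ range N ×ˢ U, wM a (F i.2) i.1 = ∑ σ ∈ range N, ∑ᶠ κ, wM a (F κ) σ := by
    rw [sum_product]
    exact sum_congr rfl fun σ hσ => (fin_eq _ U (hU' σ hσ)).symm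
  have hper : ∀ σ : ℤ, ∑ᶠ κ, wM a (F κ) (σ + N) = ∑ᶠ κ, wM a (F κ) σ := by
    intro σ
    rw [← finsum_comp_equiv π (f := fun κ => wM a (F κ) (σ + N))]
    refine finsum_congr fun κ => ?_
    rw [← wM_shift, show (fun t => F (π κ) (t + N)) = F κ from funext (hp κ)]
  rw [e2, ← Nu.sum_per (fun σ => ∑ᶠ κ, wM a (F κ) σ) N hper σ0]
  have hge : ∀ σ : ℤ, wM a (F κ0) σ ≤ ∑ᶠ κ, wM a (F κ) σ := fun σ => by
    rw [fin_eq _ (insert κ0 (A σ)) fun κ hκ => hw κ σ fun h' => hκ (mem_insert_of_mem h')]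
    exact single_le_sum (f := fun κ => wM a (F κ) σ) (fun _ _ => wM_nonneg _ _ _)
      (mem_insert_self _ _)
  refine le_trans ?_ (sum_le_sum fun σ _ => hge (σ0 + σ))
  refine le_trans ?_ (sum_le_sum_of_subset_of_nonneg (range_subset_range.2 hJ : range (J + 1) ⊆ _)
    fun _ _ _ => wM_nonneg _ _ _)
  have hb : ∀ i ∈ range (J + 1), a ^ 2 / 8 ≤ wM a (F κ0) (σ0 + i) := by
    intro i hi
    have h3 := (abs_le.1 (Grp.lip_iter (F κ0) (hlip κ0) σ0 i)).1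
    have h4 : (i : ℝ) * lam ≤ J * lam := mul_le_mul_of_nonneg_right
      (by exact_mod_cast Nat.lt_succ_iff.1 (mem_range.1 hi)) hlam
    calc a ^ 2 / 8 = a / 4 * (a / 2) := by ring
      _ ≤ _ := mul_le_mul (le_trans (by linarith) (le_max_right _ _))
          (le_trans (by linarith) (le_max_right _ _)) (by positivity) (le_max_left _ _)
  refine le_trans ?_ (card_nsmul_le_sum _ _ _ hb)
  rw [card_range, nsmul_eq_mul]
  push_cast
  exact le_rfl

/-- Continuity of the Fourier coefficients. -/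
theorem cont {K : Type} {N K1 : ℕ} (hN : 0 < N) {a B ζ b : ℝ} (ha : 0 < a) (F F' : K → ℤ → ℝ)
    (h0 : ∀ κ σ, 0 ≤ F κ σ) (h0' : ∀ κ σ, 0 ≤ F' κ σ) (hB0 : 0 ≤ B) (hB : ∀ κ σ, F κ σ ≤ B)
    (hζ0 : 0 ≤ ζ) (hζ : ∀ κ σ, |F κ σ - F' κ σ| ≤ ζ)
    (hK : ∀ σ, ∃ A : Finset K, A.card ≤ K1 ∧ ∀ κ, a / 4 ≤ F κ σ → κ ∈ A)
    (hK' : ∀ σ, ∃ A : Finset K, A.card ≤ K1 ∧ ∀ κ, a / 4 ≤ F' κ σ → κ ∈ A) {j : ℤ}
    (hj : |(j : ℝ)| ≤ b) :
    ‖nuM N ((K1 + 1) * N) a j F - nuM N ((K1 + 1) * N) a j F'‖ ≤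
      N * (2 * K1) * (ζ * (a + B + 2 * Real.pi * b * (K1 + 1) * B)) := by
  have hN' : (0 : ℝ) < N := by positivity
  have hb0 : 0 ≤ b := (abs_nonneg _).trans hj
  have hpi := Real.pi_pos
  set c : ℝ := ζ * (a + B + 2 * Real.pi * b * (K1 + 1) * B) with hc
  have hc0 : 0 ≤ c := by positivity
  have hterm : ∀ κ (σ : ℤ), ‖tM N ((K1 + 1) * N) a j (F κ) σ -
      tM N ((K1 + 1) * N) a j (F' κ) σ‖ ≤ c := by
    intro κ σ
    have q1 : max 0 (F κ σ - 3 * a) ≤ B := max_le hB0 (by linarith [hB κ σ])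
    have q2 : max 0 (a - pers (F κ)) ≤ a := max_le ha.le (by linarith [pers_nonneg (h0 κ)])
    have q2' : max 0 (a - pers (F' κ)) ≤ a := max_le ha.le (by linarith [pers_nonneg (h0' κ)])
    have q3 : |max 0 (F κ σ - 3 * a) - max 0 (F' κ σ - 3 * a)| ≤ ζ :=
      (abs_max_sub_max_le_max _ _ _ _).trans (max_le (by simpa using hζ0)
        (by simpa using hζ κ σ))
    have q4 : |max 0 (a - pers (F κ)) - max 0 (a - pers (F' κ))| ≤ ζ :=
      (abs_max_sub_max_le_max _ _ _ _).trans (max_le (by simpa using hζ0) (by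
        rw [sub_sub_sub_cancel_left, abs_sub_comm]
        exact pers_lip (h0 κ) (h0' κ) (hζ κ)))
    have q5 : |wM a (F κ) σ - wM a (F' κ) σ| ≤ ζ * (a + B) := by
      have e : wM a (F κ) σ - wM a (F' κ) σ =
          max 0 (F κ σ - 3 * a) * (max 0 (a - pers (F κ)) - max 0 (a - pers (F' κ))) +
          (max 0 (F κ σ - 3 * a) - max 0 (F' κ σ - 3 * a)) * max 0 (a - pers (F' κ)) := by
        unfold wM; ring
      rw [e]
      refine (abs_add_le _ _).trans ?_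
      rw [abs_mul, abs_mul, abs_of_nonneg (le_max_left _ _), abs_of_nonneg (le_max_left 0 (a - _))]
      have r1 := mul_le_mul q1 q4 (abs_nonneg _) hB0
      have r2 := mul_le_mul q3 q2' (le_max_left _ _) hζ0
      linarith
    have q6 : wM a (F κ) σ ≤ B * a := mul_le_mul q1 q2 (le_max_left _ _) hB0
    have e : tM N ((K1 + 1) * N) a j (F κ) σ - tM N ((K1 + 1) * N) a j (F' κ) σ =
        ((wM a (F κ) σ - wM a (F' κ) σ : ℝ) : ℂ) *
          ee (j * (tauf ((K1 + 1) * N) a (F' κ) σ / N)) + (wM a (F κ) σ : ℂ) *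
          (ee (j * (tauf ((K1 + 1) * N) a (F κ) σ / N)) -
            ee (j * (tauf ((K1 + 1) * N) a (F' κ) σ / N))) := by
      unfold tM
      push_cast
      ring
    have q7 : ‖ee (j * (tauf ((K1 + 1) * N) a (F κ) σ / N)) -
        ee (j * (tauf ((K1 + 1) * N) a (F' κ) σ / N))‖ ≤
        2 * Real.pi * (b * ((K1 + 1) * (ζ / a))) := by
      refine (Nu.ee_lip _ _).trans (mul_le_mul_of_nonneg_left ?_ (by positivity))
      rw [← mul_sub, ← sub_div, abs_mul, abs_div, abs_of_pos hN']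
      refine mul_le_mul hj ?_ (by positivity) hb0
      rw [div_le_iff₀ hN']
      refine (Nu.tauf_lip _ ha (hζ κ) σ).trans (le_of_eq ?_)
      push_cast
      ring
    rw [e]
    refine (norm_add_le _ _).trans ?_
    rw [norm_mul, norm_mul, Nu.norm_ee, mul_one, Complex.norm_real, Complex.norm_real,
      Real.norm_eq_abs, Real.norm_eq_abs, abs_of_nonneg (wM_nonneg _ _ _)]
    have q8 := mul_le_mul q6 q7 (norm_nonneg _) (by positivity)
    have e2 : B * a * (2 * Real.pi * (b * ((K1 + 1) * (ζ / a)))) =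
        ζ * (2 * Real.pi * b * (K1 + 1) * B) := by field_simp
    rw [e2] at q8
    rw [hc]
    linarith
  have hσ : ∀ σ ∈ range N, ‖∑ᶠ κ, tM N ((K1 + 1) * N) a j (F κ) σ -
      ∑ᶠ κ, tM N ((K1 + 1) * N) a j (F' κ) σ‖ ≤ 2 * K1 * c := by
    intro σ _
    obtain ⟨A, a1, a2⟩ := hK σ
    obtain ⟨A', b1, b2⟩ := hK' σ
    rw [fin_eq _ (A ∪ A') fun κ hκ => tM_zero (by
        by_contra h
        exact hκ (mem_union_left _ (a2 κ (by linarith [(wM_pos h).1])))),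
      fin_eq _ (A ∪ A') fun κ hκ => tM_zero (by
        by_contra h
        exact hκ (mem_union_right _ (b2 κ (by linarith [(wM_pos h).1])))), ← sum_sub_distrib]
    refine (norm_sum_le _ _).trans ((sum_le_card_nsmul _ _ c fun κ _ => hterm κ σ).trans ?_)
    rw [nsmul_eq_mul]
    refine mul_le_mul_of_nonneg_right ?_ hc0
    exact_mod_cast (card_union_le A A').trans (by omega)
  unfold nuM
  rw [← sum_sub_distrib]
  refine (norm_sum_le _ _).trans ((sum_le_card_nsmul _ _ _ hσ).trans (le_of_eq ?_))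
  rw [card_range, nsmul_eq_mul]
  ring

end SM

end Pool.Agent.Lib.MP_7903c7_al.F
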