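import Pool.Agent.Lib.MP_7903c7_al.RF.Nu
import Pool.Agent.Lib.MP_7903c7_al.RF.Grp
import Pool.Agent.Lib.MP_7903c7_al.RF.Xi
import Pool.Agent.Lib.MP_7903c7_al.RF.Anch

set_option autoImplicit false

/-!
The system of circle valued functions of one level.
-/

namespace Pool.Agent.Lib.MP_7903c7_al.F

open Finset RF RF.Nu
open scoped Classical Pointwise

namespace SysS

theorem ne_Icc (W : ℕ) : (Icc (-(W : ℤ)) W).Nonempty := ⟨0, mem_Icc.2 ⟨by omega, by omega⟩⟩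

/-- The maximum over a window. -/
noncomputable def hat (W : ℕ) (F : ℤ → ℝ) (σ : ℤ) : ℝ :=
  (Icc (-(W : ℤ)) W).sup' (ne_Icc W) fun d => F (σ + d)

theorem le_hat (W : ℕ) (F : ℤ → ℝ) (σ : ℤ) {d : ℤ} (hd : |d| ≤ W) : F (σ + d) ≤ hat W F σ :=
  le_sup' (fun d => F (σ + d)) (mem_Icc.2 (abs_le.1 hd))

theorem exists_hat (W : ℕ) (F : ℤ → ℝ) (σ : ℤ) : ∃ d : ℤ, |d| ≤ W ∧ hat W F σ = F (σ + d) := by
  obtain ⟨d, hd, h⟩ := exists_mem_eq_sup' (ne_Icc W) fun d => F (σ + d)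
  exact ⟨d, abs_le.2 (mem_Icc.1 hd), h⟩

theorem hat_shift (W : ℕ) (F : ℤ → ℝ) (σ c : ℤ) :
    hat W (fun t => F (t + c)) σ = hat W F (σ + c) := by
  unfold hat
  congr 1
  funext d
  rw [add_right_comm]

theorem hat_lip (W : ℕ) {F F' : ℤ → ℝ} {ζ : ℝ} (h : ∀ σ, |F σ - F' σ| ≤ ζ) (σ : ℤ) :
    |hat W F σ - hat W F' σ| ≤ ζ := by
  obtain ⟨d, hd, e⟩ := exists_hat W F σ
  obtain ⟨d', hd', e'⟩ := exists_hat W F' σ
  have h1 := le_hat W F' σ hd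
  have h2 := le_hat W F σ hd'
  have h3 := abs_le.1 (h (σ + d))
  have h4 := abs_le.1 (h (σ + d'))
  rw [abs_le]
  constructor <;> linarith [h3.1, h3.2, h4.1, h4.2]

variable {Q : Type}

theorem bdd [Fintype Q] {N : ℕ} (hN : 0 < N) (F : Q → ℤ → ℝ) (δ : Q → ℝ)
    (hp : ∀ q σ, F q (σ + N) = F q σ) : ∃ B, ∀ q σ, F q σ + δ q ≤ B := by
  refine ⟨∑ q, ∑ σ ∈ range N, |F q σ + δ q|, fun q => Anch.red hN _ (fun t => by rw [hp]) ?_⟩
  intro i hi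
  refine (le_abs_self _).trans (le_trans ?_ (single_le_sum
    (f := fun q => ∑ σ ∈ range N, |F q σ + δ q|) (fun _ _ => by positivity) (mem_univ q)))
  exact single_le_sum (f := fun σ : ℕ => |F q σ + δ q|) (fun _ _ => abs_nonneg _) (mem_range.2 hi)

theorem top_lip [Nonempty Q] {ζ B : ℝ} {F F' : Q → ℤ → ℝ} {δ : Q → ℝ}
    (hB : ∀ κ σ, F κ σ + δ κ ≤ B) (hζ : ∀ κ σ, |F κ σ - F' κ σ| ≤ ζ) :
    |top F δ - top F' δ| ≤ ζ := by
  have hB' : ∀ κ σ, F' κ σ + δ κ ≤ B + ζ := fun κ σ => by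
    have := hB κ σ
    have := (abs_le.1 (hζ κ σ)).1
    linarith
  have h1 : top F δ ≤ top F' δ + ζ := top_le fun κ σ => by
    have := le_top hB' κ σ
    have := (abs_le.1 (hζ κ σ)).2
    linarith
  have h2 : top F' δ ≤ top F δ + ζ := top_le fun κ σ => by
    have := le_top hB κ σ
    have := (abs_le.1 (hζ κ σ)).1
    linarith
  rw [abs_le]
  constructor <;> linarith

/-- The widened score. -/
noncomputable def Sh (W : ℕ) (ρ : ℝ) (F : Q → ℤ → ℝ) (δ : Q → ℝ) (q : Q) (σ : ℤ) : ℝ :=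
  hat W (F q) σ + δ q - top F δ + 4 * ρ

theorem Sh_per (W : ℕ) (ρ : ℝ) {F : Q → ℤ → ℝ} (δ : Q → ℝ) {N : ℕ}
    (hp : ∀ q σ, F q (σ + N) = F q σ) (q : Q) (σ : ℤ) :
    Sh W ρ F δ q (σ + N) = Sh W ρ F δ q σ := by
  unfold Sh
  rw [← hat_shift, show (fun t => F q (t + N)) = F q from funext (hp q)]

/-- The Fourier coefficients. -/
noncomputable def nu [Fintype Q] (N W : ℕ) (ρ : ℝ) (F : Q → ℤ → ℝ) (δ : Q → ℝ) (m : ℤ) : ℂ :=
  ∑ q, ∑ σ ∈ range N, (wt ρ F δ q σ : ℂ) * ee (m * (tauf N ρ (Sh W ρ F δ q) σ / N))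

theorem nu_shift [Fintype Q] {N : ℕ} (hN : 0 < N) (W : ℕ) (ρ : ℝ) (F : Q → ℤ → ℝ) (δ : Q → ℝ)
    (m : ℤ) (hp : ∀ κ σ, F κ (σ + N) = F κ σ) :
    nu N W ρ (fun κ σ => F κ (σ - 1)) δ m = ee ((m : ℝ) / N) * nu N W ρ F δ m := by
  have hN' : (N : ℝ) ≠ 0 := by positivity
  have ht : top (fun κ σ => F κ (σ - 1)) δ = top F δ :=
    ((Equiv.refl Q).prodCongr (Equiv.subRight (1 : ℤ))).iSup_comp
      (g := fun q : Q × ℤ => F q.1 q.2 + δ q.1)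
  unfold nu
  rw [mul_sum]
  refine sum_congr rfl fun κ _ => ?_
  have hper : ∀ t : ℤ,
      (wt ρ F δ κ (t + N) : ℂ) * ee (m * (tauf N ρ (Sh W ρ F δ κ) (t + N) / N)) =
      (wt ρ F δ κ t : ℂ) * ee (m * (tauf N ρ (Sh W ρ F δ κ) t / N)) := by
    intro t
    have e1 : wt ρ F δ κ (t + N) = wt ρ F δ κ t := by
      unfold wt
      rw [hp]
    have e2 : (m : ℝ) * ((tauf N ρ (Sh W ρ F δ κ) t + N) / N) =
        m * (tauf N ρ (Sh W ρ F δ κ) t / N) + m := by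
      field_simp
    rw [e1, tauf_per N ρ _ (Sh_per W ρ δ hp κ), e2, ee_add, ee_int, mul_one]
  rw [← sum_per (fun t : ℤ => (wt ρ F δ κ t : ℂ) * ee (m * (tauf N ρ (Sh W ρ F δ κ) t / N))) N
    hper (-1), mul_sum]
  refine sum_congr rfl fun σ _ => ?_
  have e1 : wt ρ (fun κ σ => F κ (σ - 1)) δ κ σ = wt ρ F δ κ (-1 + σ) := by
    unfold wt
    rw [ht, neg_add_eq_sub]
  have e0 : Sh W ρ (fun κ σ => F κ (σ - 1)) δ κ = fun t => Sh W ρ F δ κ (t + -1) := by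
    funext t
    unfold Sh
    rw [ht, ← hat_shift]
    rfl
  have e2 : tauf N ρ (Sh W ρ (fun κ σ => F κ (σ - 1)) δ κ) σ =
      tauf N ρ (Sh W ρ F δ κ) (-1 + σ) + 1 := by
    rw [e0, tauf_shift, add_comm (-1 : ℤ)]
    push_cast
    ring
  have e3 : (m : ℝ) * ((tauf N ρ (Sh W ρ F δ κ) (-1 + σ) + 1) / N) =
      m / N + m * (tauf N ρ (Sh W ρ F δ κ) (-1 + σ) / N) := by ring
  rw [e1, e2, e3, ee_add]
  ring

theorem nu_cont [Fintype Q] [Nonempty Q] {N : ℕ} (hN : 0 < N) (W : ℕ) {ρ ζ B : ℝ} (hρ : 0 < ρ)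
    (F F' : Q → ℤ → ℝ) (δ : Q → ℝ) (m : ℤ) (hB : ∀ κ σ, F κ σ + δ κ ≤ B)
    (hζ : ∀ κ σ, |F κ σ - F' κ σ| ≤ ζ) :
    ‖nu N W ρ F δ m - nu N W ρ F' δ m‖ ≤
      Fintype.card Q * (N * (ζ * (2 + 4 * Real.pi * |(m : ℝ)|))) := by
  have hN' : (0 : ℝ) < N := by positivity
  have hS : ∀ κ σ, |Sh W ρ F δ κ σ - Sh W ρ F' δ κ σ| ≤ 2 * ζ := by
    intro κ σ
    have h1 := abs_le.1 (hat_lip W (hζ κ) σ)
    have h2 := abs_le.1 (top_lip hB hζ)
    unfold Sh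
    rw [abs_le]
    constructor <;> linarith [h1.1, h1.2, h2.1, h2.2]
  have hterm : ∀ κ (σ : ℤ), ‖(wt ρ F δ κ σ : ℂ) * ee (m * (tauf N ρ (Sh W ρ F δ κ) σ / N)) -
      (wt ρ F' δ κ σ : ℂ) * ee (m * (tauf N ρ (Sh W ρ F' δ κ) σ / N))‖ ≤
        ζ * (2 + 4 * Real.pi * |(m : ℝ)|) := by
    intro κ σ
    have e : (wt ρ F δ κ σ : ℂ) * ee (m * (tauf N ρ (Sh W ρ F δ κ) σ / N)) -
        (wt ρ F' δ κ σ : ℂ) * ee (m * (tauf N ρ (Sh W ρ F' δ κ) σ / N)) =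
        ((wt ρ F δ κ σ - wt ρ F' δ κ σ : ℝ) : ℂ) * ee (m * (tauf N ρ (Sh W ρ F' δ κ) σ / N)) +
          (wt ρ F δ κ σ : ℂ) * (ee (m * (tauf N ρ (Sh W ρ F δ κ) σ / N)) -
            ee (m * (tauf N ρ (Sh W ρ F' δ κ) σ / N))) := by
      push_cast
      ring
    have e' : ζ * (2 + 4 * Real.pi * |(m : ℝ)|) =
        2 * ζ + ρ * (2 * Real.pi * (|(m : ℝ)| * (2 * ζ / ρ))) := by
      field_simp
      ring
    rw [e, e']
    refine (norm_add_le _ _).trans (add_le_add ?_ ?_)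
    · rw [norm_mul, norm_ee, mul_one, Complex.norm_real, Real.norm_eq_abs]
      exact wt_lip hB hζ κ σ
    · rw [norm_mul, Complex.norm_real, Real.norm_eq_abs, abs_of_nonneg (wt_nonneg _ _ _ _ _)]
      refine mul_le_mul (wt_le hρ.le hB κ σ) ((ee_lip _ _).trans ?_) (norm_nonneg _) hρ.le
      rw [← mul_sub, ← sub_div, abs_mul, abs_div, abs_of_pos hN']
      refine mul_le_mul_of_nonneg_left
        (mul_le_mul_of_nonneg_left ?_ (abs_nonneg _)) (by positivity)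
      rw [div_le_iff₀ hN', mul_comm]
      exact tauf_lip N hρ (hS κ) σ
  unfold nu
  rw [← sum_sub_distrib]
  refine (norm_sum_le _ _).trans ((sum_le_card_nsmul _ _
    (N * (ζ * (2 + 4 * Real.pi * |(m : ℝ)|))) fun κ _ => ?_).trans (le_of_eq ?_))
  · rw [← sum_sub_distrib]
    refine (norm_sum_le _ _).trans ((sum_le_card_nsmul _ _ _ fun (σ : ℕ) _ => hterm κ σ).trans
      (le_of_eq ?_))
    rw [card_range, nsmul_eq_mul]
  · rw [card_univ, nsmul_eq_mul]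

theorem wt_pos {ρ : ℝ} {F : Q → ℤ → ℝ} {δ : Q → ℝ} {q : Q} {σ : ℤ} (h : wt ρ F δ q σ ≠ 0) :
    top F δ - ρ < F q σ + δ q := by
  by_contra h'
  exact h (max_eq_left (by linarith [not_lt.1 h']))

theorem tau_const {N : ℕ} (hN : 0 < N) (W : ℕ) {ρ : ℝ} (hρ : 0 < ρ) {F : Q → ℤ → ℝ}
    {δ : Q → ℝ} (hp : ∀ κ σ, F κ (σ + N) = F κ σ) {q : Q} (hl : ∃ σ, Sh W ρ F δ q σ ≤ ρ)
    {σ : ℤ} (h : top F δ - ρ < F q σ + δ q) {σ' : ℤ} (hd : |σ' - σ| ≤ W) :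
    tauf N ρ (Sh W ρ F δ q) σ' = tauf N ρ (Sh W ρ F δ q) σ := by
  have h2 : ∀ t, |t - σ| ≤ W → 2 * ρ ≤ Sh W ρ F δ q t := by
    intro t ht
    have := le_hat W (F q) t (d := σ - t) (by rwa [abs_sub_comm])
    rw [add_sub_cancel] at this
    unfold Sh
    linarith
  have up : ∀ (a : ℤ) (k : ℕ), (∀ t, a ≤ t → t ≤ a + k → |t - σ| ≤ W) →
      tauf N ρ (Sh W ρ F δ q) (a + k) = tauf N ρ (Sh W ρ F δ q) a := by
    intro a k
    induction k with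
    | zero => simp
    | succ k ih =>
      intro hk
      push_cast at hk ⊢
      rw [← add_assoc, Grp.tau_succ N hN hρ _ (Sh_per W ρ δ hp q) hl _
        (h2 _ (hk _ (by omega) (by omega))) (h2 _ (hk _ (by omega) (by omega))),
        ih fun t h1 h3 => hk t h1 (by omega)]
  rw [abs_le] at hd
  rcases le_total σ σ' with h3 | h3
  · obtain ⟨k, rfl⟩ := Int.le.dest h3
    exact up σ k fun t h4 h5 => abs_le.2 ⟨by omega, by omega⟩
  · obtain ⟨k, rfl⟩ := Int.le.dest h3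
    exact (up σ' k fun t h4 h5 => abs_le.2 ⟨by omega, by omega⟩).symm

theorem lower [Fintype Q] [Nonempty Q] {N n1 W nb : ℕ} (hN : 0 < N) (hn : 0 < n1) (hW : 0 < W)
    (hnb : N ≤ nb * W) {ρ lam : ℝ} (hρ : 0 < ρ) (hl : 0 < lam) (hρN : ρ / (4 * lam) < N)
    (F : Q → ℤ → ℝ) (δ : Q → ℝ) (hp : ∀ κ σ, F κ (σ + N) = F κ σ)
    (hlip : ∀ κ σ, |F κ (σ + 1) - F κ σ| ≤ lam) (hpers : ∀ q, ∃ σ, Sh W ρ F δ q σ ≤ ρ)
    (cnt : ℕ → ℝ) (hs : ∑ k ∈ range nb, cnt k ≤ n1)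
    (hc : ∀ k < nb, ((univ.filter fun q => ∃ s ∈ Ico ((k * W : ℕ) : ℤ) (((k + 1) * W : ℕ) : ℤ),
      top F δ - ρ < F q s + δ q).card : ℝ) ≤ cnt k) :
    ∃ m ∈ Icc (1 : ℤ) (2 * n1 - 1), ρ ^ 2 / (8 * lam) ≤ 2 * n1 * ‖nu N W ρ F δ m‖ := by
  let A : ℕ → Finset Q := fun k => univ.filter fun q =>
    ∃ s ∈ Ico ((k * W : ℕ) : ℤ) (((k + 1) * W : ℕ) : ℤ), top F δ - ρ < F q s + δ q
  let Z : Finset ℂ := (range nb).biUnion fun k =>
    (A k).image fun q => ee (tauf N ρ (Sh W ρ F δ q) (k * W : ℕ) / N)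
  have hZ : Z.card ≤ n1 := by
    have h1 : Z.card ≤ ∑ k ∈ range nb, (A k).card :=
      card_biUnion_le.trans (sum_le_sum fun k _ => card_image_le)
    have h2 : ((∑ k ∈ range nb, (A k).card : ℕ) : ℝ) ≤ n1 := by
      push_cast
      exact (sum_le_sum fun k hk => hc k (mem_range.1 hk)).trans hs
    exact h1.trans (by exact_mod_cast h2)
  obtain ⟨κ0, hκ0⟩ := Nu.mass N hρ hl hρN F δ hp hlip
  obtain ⟨m, hm, h⟩ := few_points ((univ : Finset Q) ×ˢ range N) (fun i => wt ρ F δ i.1 i.2)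
    (fun _ _ => wt_nonneg _ _ _ _ _) (fun i => tauf N ρ (Sh W ρ F δ i.1) i.2 / N) n1 hn Z hZ
    (by
      rintro ⟨q, σ⟩ hi hne
      have hσ : σ < N := mem_range.1 (mem_product.1 hi).2
      have h1 := wt_pos hne
      have h2 : σ / W * W ≤ σ := Nat.div_mul_le_self σ W
      have h3 : σ < (σ / W + 1) * W := by
        rw [add_mul, one_mul]
        exact Nat.lt_div_mul_add hW
      have h4 : σ / W < nb := by
        rw [Nat.div_lt_iff_lt_mul hW]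
        omega
      have h5 : q ∈ A (σ / W) := by
        simp only [A, mem_filter]
        exact ⟨mem_univ _, σ, mem_Ico.2 ⟨by exact_mod_cast h2, by exact_mod_cast h3⟩, h1⟩
      refine mem_biUnion.2 ⟨σ / W, mem_range.2 h4, mem_image.2 ⟨q, h5, ?_⟩⟩
      rw [tau_const hN W hρ hp (hpers q) h1]
      rw [add_mul, one_mul] at h3
      rw [abs_le]
      constructor <;> omega)
  refine ⟨m, hm, ?_⟩
  rw [sum_product, sum_product] at h
  refine hκ0.trans (le_trans ?_ h)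
  exact single_le_sum (f := fun κ => ∑ σ ∈ range N, wt ρ F δ κ σ)
    (fun _ _ => sum_nonneg fun _ _ => wt_nonneg _ _ _ _ _) (mem_univ _)

end SysS

open SysS in
theorem sysS {G : Type} [Group G] (g : G) (C : Subgroup G) (S : Finset G) (L n1 m w nq : ℕ)
    (hL : 0 < L) (hn1 : 0 < n1) (hw : 0 < w) {ρ lam : ℝ} (hρ : 0 < ρ) (hlam : 0 < lam) :
    ∃ n00 : ℕ, ∀ n0 ≥ n00, ∀ (Q : Type) [Fintype Q] [Nonempty Q], Fintype.card Q ≤ nq →
      ∀ (Sc : Q → (ℤ → G) → ℤ → ℝ) (δ : Q → ℝ),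
      (∀ q γ, IsLoop g (L * n0) γ → ∀ c ∈ C, ∀ s, Sc q (fun t => c * γ t) s = Sc q γ s) →
      (∀ q γ, IsLoop g (L * n0) γ → ∀ s, Sc q (fun t => γ (t - 1)) s = Sc q γ (s - 1)) →
      (∀ q γ, IsLoop g (L * n0) γ → ∀ s, Sc q γ (s + (L * n0 : ℕ)) = Sc q γ s) →
      (∀ q γ, Good g S (L * n0) L γ → ∀ s, |Sc q γ (s + 1) - Sc q γ s| ≤ lam / n0) →
      (∀ q γ γ', Good g S (L * n0) L γ → Good g S (L * n0) L γ' → Near (L * n0) m γ γ' →
        ∀ s, |Sc q γ s - Sc q γ' s| ≤ lam / n0) →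
      ∃ F : ℤ → (ℤ → G) → ℂ, (∀ j, Equi g C (L * n0) (fun _ => j) (F j)) ∧
        ∀ γ, Good g S (L * n0) L γ → ∀ cnt : ℕ → ℝ, ∑ k ∈ range (L / w + 1), cnt k ≤ n1 →
          (∀ k ≤ L / w, ((univ.filter fun q =>
            ∃ s ∈ Ico ((k * (w * n0) : ℕ) : ℤ) (((k + 1) * (w * n0) : ℕ) : ℤ),
              top (fun q => Sc q γ) δ - ρ < Sc q γ s + δ q).card : ℝ) ≤ cnt k) →
          (∃ j ∈ Icc (1 : ℤ) (2 * n1 - 1), Fine g S (L * n0) L m (fun _ => j) (F j) γ) ∨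
            ∃ q, ∀ s, ∃ d : ℤ, |d| ≤ (w * n0 : ℕ) ∧
              top (fun q => Sc q γ) δ - 3 * ρ < Sc q γ (s + d) + δ q := by
  obtain ⟨e, he⟩ : ∃ e : ℝ, e = nq * (L * (lam * (2 + 4 * Real.pi * (2 * n1)))) := ⟨_, rfl⟩
  have he0 : 0 ≤ e := by rw [he]; positivity
  obtain ⟨n00, hn00⟩ := exists_nat_gt (3 * e * (2 * n1) * (8 * (lam + ρ)) / ρ ^ 2)
  refine ⟨n00, fun n0 hn0' Q _ _ hQ Sc δ h1 h2 h3 h4 h5 => ?_⟩
  have hn : 3 * e * (2 * n1) * (8 * (lam + ρ)) / ρ ^ 2 < n0 :=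
    lt_of_lt_of_le hn00 (by exact_mod_cast hn0')
  have hn0r : (0 : ℝ) < n0 := lt_of_le_of_lt (by positivity) hn
  have hn0 : 0 < n0 := by exact_mod_cast hn0r
  have hN : 0 < L * n0 := Nat.mul_pos hL hn0
  have hL1 : (1 : ℝ) ≤ L := by exact_mod_cast hL
  refine ⟨fun j γ => nu (L * n0) (w * n0) ρ (fun q => Sc q γ) δ j, fun j γ hγ => ?_, ?_⟩
  · refine ⟨fun c hc => ⟨rfl, ?_⟩, rfl, ?_⟩
    · have : (fun q => Sc q fun t => c * γ t) = fun q => Sc q γ :=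
        funext fun q => funext (h1 q γ hγ c hc)
      simp only [this]
    · have : (fun q => Sc q fun t => γ (t - 1)) = fun q s => Sc q γ (s - 1) :=
        funext fun q => funext (h2 q γ hγ)
      simp only [this]
      exact nu_shift hN _ ρ (fun q => Sc q γ) δ j fun q => h3 q γ hγ
  intro γ hγ cnt hs hc
  by_cases hpers : ∀ q, ∃ σ, Sh (w * n0) ρ (fun q => Sc q γ) δ q σ ≤ ρ
  · left
    obtain ⟨j, hj, hlow⟩ := lower (nb := L / w + 1) (lam := (lam + ρ) / n0) hN hn1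
      (Nat.mul_pos hw hn0)
      (by
        rw [← mul_assoc]
        refine Nat.mul_le_mul_right _ ?_
        rw [add_mul, one_mul]
        exact (Nat.lt_div_mul_add hw).le)
      hρ (by positivity)
      (by
        rw [div_lt_iff₀ (by positivity)]
        push_cast
        have : (L : ℝ) * n0 * (4 * ((lam + ρ) / n0)) = L * (4 * (lam + ρ)) := by field_simp
        rw [this]
        nlinarith)
      (fun q => Sc q γ) δ (fun q => h3 q γ hγ.1)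
      (fun q s => (h4 q γ hγ s).trans (div_le_div_of_nonneg_right (by linarith) hn0r.le))
      hpers cnt hs (fun k hk => hc k (Nat.lt_succ_iff.1 hk))
    refine ⟨j, hj, fun γ' γ'' hγ' hγ'' hn' hn'' => ⟨rfl, ?_⟩⟩
    obtain ⟨B, hB⟩ := bdd hN (fun q => Sc q γ) δ fun q => h3 q γ hγ.1
    have hj' : |(j : ℝ)| ≤ 2 * n1 := by
      obtain ⟨a1, a2⟩ := mem_Icc.1 hj
      have : |j| ≤ 2 * n1 := abs_le.2 ⟨by omega, by omega⟩
      exact_mod_cast this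
    have hcont : ∀ γ', Good g S (L * n0) L γ' → Near (L * n0) m γ γ' →
        ‖nu (L * n0) (w * n0) ρ (fun q => Sc q γ) δ j -
          nu (L * n0) (w * n0) ρ (fun q => Sc q γ') δ j‖ ≤ e := by
      intro γ' hγ' hnear
      refine (nu_cont hN _ hρ _ _ δ j hB fun q => h5 q γ γ' hγ hγ' hnear).trans ?_
      have hQ' : (Fintype.card Q : ℝ) ≤ nq := by exact_mod_cast hQ
      have e1 : ((L * n0 : ℕ) : ℝ) * (lam / n0 * (2 + 4 * Real.pi * |(j : ℝ)|)) =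
          L * (lam * (2 + 4 * Real.pi * |(j : ℝ)|)) := by
        push_cast
        field_simp
      rw [e1, he]
      gcongr
    refine re_pos ?_ (hcont γ' hγ' hn') (hcont γ'' hγ'' hn'')
    have hn1' : (0 : ℝ) < 2 * n1 := by positivity
    refine lt_of_mul_lt_mul_left (lt_of_lt_of_le ?_ hlow) hn1'.le
    rw [div_lt_iff₀ (by positivity)] at hn
    rw [lt_div_iff₀ (by positivity)]
    have : 2 * (n1 : ℝ) * (3 * e) * (8 * ((lam + ρ) / n0)) =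
        3 * e * (2 * n1) * (8 * (lam + ρ)) / n0 := by field_simp
    rw [this, div_lt_iff₀ hn0r]
    linarith
  · right
    push Not at hpers
    obtain ⟨q, hq⟩ := hpers
    refine ⟨q, fun s => ?_⟩
    obtain ⟨d, hd, e1⟩ := exists_hat (w * n0) (Sc q γ) s
    have := hq s
    unfold Sh at this
    exact ⟨d, hd, by rw [← e1]; linarith⟩

end Pool.Agent.Lib.MP_7903c7_al.F
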