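import Pool.Agent.Lib.MP_7903c7_al.RF.Geo
import Pool.Agent.Lib.MP_7903c7_al.RF.Cor

set_option autoImplicit false

/-!
Heights attached to a finite set normalised by an element of infinite order.
-/

namespace Pool.Agent.Lib.MP_7903c7_al.F

open Finset Pool.Agent.Lib.MP_7903c7_al.RF
open scoped Classical Pointwise

namespace Z0

/-- A real character from the transfer to an abelian subgroup of finite index. -/
theorem char_of_transfer {Γ : Type} [Group Γ] (Z : Subgroup Γ) [Z.FiniteIndex]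
    (hZ : ∀ a ∈ Z, ∀ b ∈ Z, a * b = b * a) (g : Γ) (hg : orderOf g = 0) {n : ℕ} (hn : 0 < n)
    (hc : ∀ c : Γ, c * g ^ n = g ^ n * c) :
    ∃ χ : Γ → ℝ, χ g = 1 ∧ ∀ a b, χ (a * b) = χ a + χ b := by
  have key : ∀ (k : ℕ) (g₀ : Γ), g₀⁻¹ * (g ^ n) ^ k * g₀ ∈ Z →
      g₀⁻¹ * (g ^ n) ^ k * g₀ = (g ^ n) ^ k := fun k g₀ _ => by
    have : Commute g₀ ((g ^ n) ^ k) := Commute.pow_right (hc g₀) k
    rw [mul_assoc, ← this.eq, inv_mul_cancel_left]
  let _ : CommGroup Z :=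
    { (inferInstance : Group Z) with
      mul_comm := fun a b => Subtype.ext (hZ a.1 a.2 b.1 b.2) }
  have ho : orderOf (⟨(g ^ n) ^ Z.index, MonoidHom.transfer_eq_pow_aux (g ^ n) key⟩ : Z) = 0 := by
    rw [orderOf_eq_zero_iff']
    intro m hm h
    have h' : ((g ^ n) ^ Z.index) ^ m = 1 := congrArg Subtype.val h
    rw [← pow_mul, ← pow_mul] at h'
    refine orderOf_eq_zero_iff'.1 hg _ ?_ h'
    exact Nat.mul_pos hn (Nat.mul_pos (Nat.pos_of_ne_zero Subgroup.FiniteIndex.index_ne_zero) hm)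
  obtain ⟨χ0, h1, h2⟩ := Cor.ext_char _ ho
  let ϕ : Z →* Multiplicative ℝ :=
    MonoidHom.mk' (fun z => Multiplicative.ofAdd (χ0 z)) fun a b => by
      rw [← ofAdd_add]; exact congrArg _ (h2 a b)
  have h3 := MonoidHom.transfer_eq_pow ϕ (g ^ n) key
  refine ⟨fun c => n * Multiplicative.toAdd (MonoidHom.transfer ϕ c), ?_, fun a b => ?_⟩
  · have h4 := congrArg Multiplicative.toAdd h3
    rw [map_pow, toAdd_pow, nsmul_eq_mul] at h4
    exact h4.trans h1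
  · simp only [map_mul, toAdd_mul, mul_add]

theorem finiteIndex_of {Γ V : Type} [Group Γ] [Finite V] (Z : Subgroup Γ) (φ : Γ → V)
    (h : ∀ c d, φ c = φ d → c⁻¹ * d ∈ Z) : Z.FiniteIndex := by
  have : Finite (Γ ⧸ Z) := by
    refine Finite.of_injective (fun q : Γ ⧸ Z => φ q.out) fun q q' e => ?_
    rw [← QuotientGroup.out_eq' q, ← QuotientGroup.out_eq' q']
    exact QuotientGroup.eq.2 (h _ _ e)
  exact Subgroup.finiteIndex_of_finite_quotient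

variable {G : Type} [Group G]

theorem cl_map {A A' : Set G} {c : G} (hA : ∀ a ∈ A, c * a * c⁻¹ ∈ A') {h : G}
    (hh : h ∈ Subgroup.closure A) : c * h * c⁻¹ ∈ Subgroup.closure A' := by
  induction hh using Subgroup.closure_induction with
  | mem x hx => exact Subgroup.subset_closure (hA x hx)
  | one => simp
  | mul x y _ _ hx hy =>
    have := Subgroup.mul_mem _ hx hy
    rwa [show c * x * c⁻¹ * (c * y * c⁻¹) = c * (x * y) * c⁻¹ by group] at this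
  | inv x _ hx =>
    have := Subgroup.inv_mem _ hx
    rwa [show (c * x * c⁻¹)⁻¹ = c * x⁻¹ * c⁻¹ by group] at this

theorem cl_comm {A : Set G} {c : G} (hA : ∀ a ∈ A, c * a = a * c) {h : G}
    (hh : h ∈ Subgroup.closure A) : c * h = h * c := by
  induction hh using Subgroup.closure_induction with
  | mem x hx => exact hA x hx
  | one => simp
  | mul x y _ _ hx hy => rw [← mul_assoc, hx, mul_assoc, hy, mul_assoc]
  | inv x _ hx => exact (Commute.inv_right hx).eq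

theorem exists_pow {A : Set G} (hA : A.Finite) {g : G} (hg : ∀ b, g * b * g⁻¹ ∈ A ↔ b ∈ A) :
    ∃ n : ℕ, 0 < n ∧ ∀ a ∈ A, g ^ n * a = a * g ^ n := by
  have := hA.to_subtype
  have hk : ∀ (k : ℕ) (a : G), a ∈ A → g ^ k * a * (g ^ k)⁻¹ ∈ A := by
    intro k
    induction k with
    | zero => intro a ha; simpa using ha
    | succ k ih =>
      intro a ha
      have := (hg _).2 (ih a ha)
      rwa [show g * (g ^ k * a * (g ^ k)⁻¹) * g⁻¹ = g ^ (k + 1) * a * (g ^ (k + 1))⁻¹ by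
        rw [pow_succ']; group] at this
  have key : ∀ i j : ℕ, i < j → (∀ a ∈ A, g ^ i * a * (g ^ i)⁻¹ = g ^ j * a * (g ^ j)⁻¹) →
      ∃ n : ℕ, 0 < n ∧ ∀ a ∈ A, g ^ n * a = a * g ^ n := by
    intro i j hij h
    obtain ⟨n, rfl⟩ := Nat.exists_eq_add_of_lt hij
    refine ⟨n + 1, Nat.succ_pos n, fun a ha => ?_⟩
    have e := h a ha
    rw [add_assoc, pow_add] at e
    calc g ^ (n + 1) * a
        = (g ^ i)⁻¹ * (g ^ i * g ^ (n + 1) * a * (g ^ i * g ^ (n + 1))⁻¹) * g ^ i * g ^ (n + 1) := by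
          group
      _ = a * g ^ (n + 1) := by rw [← e]; group
  obtain ⟨i, j, hij, e⟩ := Finite.exists_ne_map_eq_of_infinite
    (fun (k : ℕ) (a : A) => (⟨g ^ k * a.1 * (g ^ k)⁻¹, hk k a.1 a.2⟩ : A))
  have e' : ∀ a ∈ A, g ^ i * a * (g ^ i)⁻¹ = g ^ j * a * (g ^ j)⁻¹ := fun a ha =>
    congrArg Subtype.val (congrFun e ⟨a, ha⟩)
  rcases lt_or_gt_of_ne hij with h | h
  · exact key i j h e'
  · exact key j i h fun a ha => (e' a ha).symm

/-- The action on pairs of sets: conjugation on the first, translation on the second. -/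
def act (c : G) (κ : Set G × Set G) : Set G × Set G :=
  ({b | c⁻¹ * b * c ∈ κ.1}, {y | c⁻¹ * y ∈ κ.2})

theorem act_one (κ : Set G × Set G) : act 1 κ = κ := by
  simp [act]

theorem act_mul (c d : G) (κ : Set G × Set G) : act (c * d) κ = act c (act d κ) := by
  simp [act, mul_assoc]

theorem cl_act (c : G) (κ : Set G × Set G) (h : G) :
    h ∈ Subgroup.closure (act c κ).1 ↔ c⁻¹ * h * c ∈ Subgroup.closure κ.1 := by
  constructor
  · intro hh
    have := cl_map (c := c⁻¹) (A' := κ.1) (fun a ha => by rw [inv_inv]; exact ha) hh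
    rwa [inv_inv] at this
  · intro hh
    have := cl_map (c := c) (A' := (act c κ).1) (fun a ha => by
      change c⁻¹ * (c * a * c⁻¹) * c ∈ κ.1
      rwa [show c⁻¹ * (c * a * c⁻¹) * c = a by group]) hh
    rwa [show c * (c⁻¹ * h * c) * c⁻¹ = h by group] at this

/-- Admissible pairs. -/
structure Ok (g : G) (K3 : ℕ) (κ : Set G × Set G) : Prop where
  fin : κ.1.Finite
  conj : ∀ b, g * b * g⁻¹ ∈ κ.1 ↔ b ∈ κ.1
  mem : g ∈ Subgroup.closure κ.1
  ne : κ.2.Nonempty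
  inv : ∀ h ∈ Subgroup.closure κ.1, ∀ y ∈ κ.2, h * y ∈ κ.2
  cov : ∃ X : Finset G, X.card ≤ K3 ∧ ∀ y ∈ κ.2, ∃ x ∈ X, y * x⁻¹ ∈ Subgroup.closure κ.1

theorem Ok.act {g : G} {K3 : ℕ} {κ : Set G × Set G} (h : Ok g K3 κ) {c : G}
    (hc : c * g = g * c) : Ok g K3 (act c κ) := by
  have e1 : c⁻¹ * g * c = g := by rw [mul_assoc, ← hc, inv_mul_cancel_left]
  refine ⟨?_, fun b => ?_, ?_, ?_, fun x hx y hy => ?_, ?_⟩
  · refine (h.fin.image fun a => c * a * c⁻¹).subset fun b hb => ⟨c⁻¹ * b * c, hb, by group⟩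
  · change c⁻¹ * (g * b * g⁻¹) * c ∈ κ.1 ↔ c⁻¹ * b * c ∈ κ.1
    rw [← h.conj (c⁻¹ * b * c)]
    have : g * (c⁻¹ * b * c) * g⁻¹ = c⁻¹ * (g * b * g⁻¹) * c := by
      conv_lhs => rw [← e1]
      group
    rw [this]
  · rw [cl_act, e1]; exact h.mem
  · obtain ⟨y, hy⟩ := h.ne
    exact ⟨c * y, by change c⁻¹ * (c * y) ∈ κ.2; rwa [inv_mul_cancel_left]⟩
  · rw [cl_act] at hx
    have := h.inv _ hx _ hy
    change c⁻¹ * (x * y) ∈ κ.2
    rwa [show c⁻¹ * x * c * (c⁻¹ * y) = c⁻¹ * (x * y) by group] at this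
  · obtain ⟨X, hX, hX'⟩ := h.cov
    refine ⟨X.image fun x => c * x, card_image_le.trans hX, fun y hy => ?_⟩
    obtain ⟨x, hx, hx'⟩ := hX' _ hy
    refine ⟨c * x, mem_image_of_mem _ hx, ?_⟩
    rw [cl_act]
    rwa [show c⁻¹ * (y * (c * x)⁻¹) * c = c⁻¹ * y * x⁻¹ by group]

/-- The points moved little by the first set and close to the second set. -/
def Dom (S : Finset G) (r : ℕ) (κ : Set G × Set G) (z : G) : Prop :=
  (∀ b ∈ κ.1, z⁻¹ * b * z ∈ (S : Set G) ^ r) ∧ ∃ y ∈ κ.2, y⁻¹ * z ∈ (S : Set G) ^ r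

theorem Dom.act {S : Finset G} {r : ℕ} {κ : Set G × Set G} {z : G} (h : Dom S r κ z) (c : G) :
    Dom S r (act c κ) (c * z) := by
  obtain ⟨h1, y, hy, h2⟩ := h
  refine ⟨fun b hb => ?_, c * y, ?_, ?_⟩
  · have := h1 _ hb
    rwa [show z⁻¹ * (c⁻¹ * b * c) * z = (c * z)⁻¹ * b * (c * z) by group] at this
  · change c⁻¹ * (c * y) ∈ κ.2
    rwa [inv_mul_cancel_left]
  · rwa [show (c * y)⁻¹ * (c * z) = y⁻¹ * z by group]

theorem dom_act (S : Finset G) (r : ℕ) (κ : Set G × Set G) (z c : G) :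
    Dom S r (act c κ) (c * z) ↔ Dom S r κ z := by
  refine ⟨fun h => ?_, fun h => h.act c⟩
  have := h.act c⁻¹
  rwa [← act_mul, inv_mul_cancel, act_one, inv_mul_cancel_left] at this

/-- The stabiliser of a pair inside the centraliser of `z`. -/
def gam (κ : Set G × Set G) (z : G) : Subgroup G where
  carrier := {c | act c κ = κ ∧ c * z = z * c}
  mul_mem' := fun {a b} ha hb =>
    ⟨by rw [act_mul, hb.1, ha.1], by rw [mul_assoc, hb.2, ← mul_assoc, ha.2, mul_assoc]⟩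
  one_mem' := ⟨act_one κ, by simp⟩
  inv_mem' := fun {a} ha =>
    ⟨by
      have := congrArg (act a⁻¹) ha.1
      rw [← act_mul, inv_mul_cancel, act_one] at this
      exact this.symm, (Commute.inv_left ha.2).eq⟩

theorem act_eq {κ : Set G × Set G} {c : G} (h1 : ∀ b, c * b * c⁻¹ ∈ κ.1 ↔ b ∈ κ.1)
    (h2 : ∀ y, c * y ∈ κ.2 ↔ y ∈ κ.2) : act c κ = κ := by
  refine Prod.ext (Set.ext fun b => ?_) (Set.ext fun y => ?_)
  · change c⁻¹ * b * c ∈ κ.1 ↔ _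
    rw [← h1, show c * (c⁻¹ * b * c) * c⁻¹ = b by group]
  · change c⁻¹ * y ∈ κ.2 ↔ _
    rw [← h2, mul_inv_cancel_left]

theorem Ok.act_eq {g : G} {K3 : ℕ} {κ : Set G × Set G} (h : Ok g K3 κ) {c : G}
    (hc : c ∈ Subgroup.closure κ.1) (h1 : ∀ b, c * b * c⁻¹ ∈ κ.1 ↔ b ∈ κ.1) : Z0.act c κ = κ := by
  refine Z0.act_eq h1 fun y => ⟨fun hy => ?_, h.inv c hc y⟩
  have := h.inv _ (Subgroup.inv_mem _ hc) _ hy
  rwa [inv_mul_cancel_left] at this

/-- The character on the stabiliser. -/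
theorem exists_chi {g : G} (hg : orderOf g = 0) {K3 : ℕ} {κ : Set G × Set G} (h : Ok g K3 κ)
    {n : ℕ} (hn : 0 < n) :
    ∃ χ : G → ℝ, χ g = 1 ∧
      ∀ a ∈ gam κ (g ^ n), ∀ b ∈ gam κ (g ^ n), χ (a * b) = χ a + χ b := by
  have := h.fin.to_subtype
  have hgΓ : g ∈ gam κ (g ^ n) := ⟨h.act_eq h.mem h.conj, (Commute.self_pow g n).eq⟩
  obtain ⟨x0, hx0⟩ := h.ne
  obtain ⟨X, -, hX⟩ := h.cov
  let Z : Subgroup (gam κ (g ^ n)) :=
    (Subgroup.closure κ.1 ⊓ Subgroup.centralizer κ.1).subgroupOf (gam κ (g ^ n))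
  have m1 : ∀ c : gam κ (g ^ n), ∀ a ∈ κ.1, c.1 * a * c.1⁻¹ ∈ κ.1 := fun c a ha => by
    have : c.1 * a * c.1⁻¹ ∈ (act c.1 κ).1 := by
      change c.1⁻¹ * (c.1 * a * c.1⁻¹) * c.1 ∈ κ.1
      rwa [show c.1⁻¹ * (c.1 * a * c.1⁻¹) * c.1 = a by group]
    rwa [c.2.1] at this
  have m2 : ∀ c : gam κ (g ^ n), ∃ x : X, c.1⁻¹ * x0 * x.1⁻¹ ∈ Subgroup.closure κ.1 := fun c => by
    have : x0 ∈ (act c.1 κ).2 := by rw [c.2.1]; exact hx0
    obtain ⟨x, hx, hx'⟩ := hX _ this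
    exact ⟨⟨x, hx⟩, hx'⟩
  choose xx hxx using m2
  have : Z.FiniteIndex := by
    refine finiteIndex_of Z
      (fun c => ((fun a : κ.1 => (⟨c.1 * a.1 * c.1⁻¹, m1 c a.1 a.2⟩ : κ.1)), xx c))
      fun c d e => ?_
    have e1 := congrArg Prod.fst e
    have e2 : xx c = xx d := congrArg Prod.snd e
    refine Subgroup.mem_subgroupOf.2 ⟨?_, Subgroup.mem_centralizer_iff.2 fun a ha => ?_⟩
    · have k1 := hxx c
      have k2 := hxx d
      rw [← e2] at k2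
      have := Subgroup.mul_mem _ k1 (Subgroup.inv_mem _ k2)
      rw [show c.1⁻¹ * x0 * (xx c).1⁻¹ * (d.1⁻¹ * x0 * (xx c).1⁻¹)⁻¹ = c.1⁻¹ * d.1 by group] at this
      exact this
    · have e3 : c.1 * a * c.1⁻¹ = d.1 * a * d.1⁻¹ := congrArg Subtype.val (congrFun e1 ⟨a, ha⟩)
      change a * (c.1⁻¹ * d.1) = c.1⁻¹ * d.1 * a
      calc a * (c.1⁻¹ * d.1) = c.1⁻¹ * (c.1 * a * c.1⁻¹) * d.1 := by group
        _ = c.1⁻¹ * d.1 * a := by rw [e3]; group
  obtain ⟨χ, h1, h2⟩ := char_of_transfer Z (fun a ha b hb => by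
      obtain ⟨-, ha2⟩ := Subgroup.mem_subgroupOf.1 ha
      obtain ⟨hb1, -⟩ := Subgroup.mem_subgroupOf.1 hb
      exact Subtype.ext (cl_comm (fun x hx => (Subgroup.mem_centralizer_iff.1 ha2 x hx).symm) hb1))
    ⟨g, hgΓ⟩ (by rw [← Subgroup.orderOf_coe]; exact hg) hn (fun c => Subtype.ext c.2.2)
  refine ⟨fun y => if hy : y ∈ gam κ (g ^ n) then χ ⟨y, hy⟩ else 0, ?_, fun a ha b hb => ?_⟩
  · simp only [dif_pos hgΓ, h1]
  · simp only [dif_pos ha, dif_pos hb, dif_pos (Subgroup.mul_mem _ ha hb)]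
    rw [← h2]
    rfl

/-- A height function that is equivariant for a character of a subgroup. -/
theorem exists_eta (Γ : Subgroup G) (χ : G → ℝ)
    (hχ : ∀ a ∈ Γ, ∀ b ∈ Γ, χ (a * b) = χ a + χ b) :
    ∃ η : G → ℝ, ∀ c ∈ Γ, ∀ y, η (c * y) = χ c + η y := by
  let rep : G → G := fun y => (Quotient.mk (QuotientGroup.rightRel Γ) y).out
  have hrep : ∀ y, y * (rep y)⁻¹ ∈ Γ := fun y =>
    QuotientGroup.rightRel_apply.1 (Quotient.mk_out (s := QuotientGroup.rightRel Γ) y)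
  refine ⟨fun y => χ (y * (rep y)⁻¹), fun c hc y => ?_⟩
  have e : rep (c * y) = rep y := by
    have : Quotient.mk (QuotientGroup.rightRel Γ) (c * y) =
        Quotient.mk (QuotientGroup.rightRel Γ) y := by
      apply Quotient.sound
      change QuotientGroup.rightRel Γ (c * y) y
      rw [QuotientGroup.rightRel_apply]
      simpa using hc
    simp only [rep, this]
  simp only [e]
  rw [mul_assoc, hχ c hc _ (hrep y)]

/-- The height of one admissible pair. -/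
theorem one_pair {g : G} (hg : orderOf g = 0) (S : Finset G) (r r0 K3 : ℕ)
    (κ : Set G × Set G) :
    ∃ η : G → ℝ, (∀ c, c * g = g * c → act c κ = κ → ∀ y y', η (c * y) - η (c * y') = η y - η y') ∧
      (Ok g K3 κ → ∀ y, η (g * y) = η y + 1) ∧
      ∀ P : ℤ, ∃ i : ℕ, 1 ≤ i ∧ i ≤ 6 ^ (K3 * (S.card ^ r * 2 ^ (S.card ^ r)) * S.card ^ r0) ∧
        (Ok g K3 κ → ∀ y, Dom S r κ y → ∀ u ∈ (S : Set G) ^ r0,
          ∃ n : ℤ, |(i : ℝ) * P * (η y - η (y * u)) - n| ≤ 1 / 6) := by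
  by_cases h : Ok g K3 κ
  swap
  · exact ⟨fun _ => 0, fun _ _ _ _ _ => rfl, fun h' => absurd h' h,
      fun _ => ⟨1, le_rfl, Nat.one_le_pow _ _ (by norm_num), fun h' => absurd h' h⟩⟩
  obtain ⟨n, hn, hc⟩ := exists_pow h.fin h.conj
  obtain ⟨χ, hχ1, hχ⟩ := exists_chi hg h hn
  obtain ⟨η, hη⟩ := exists_eta _ χ hχ
  have hgΓ : g ∈ gam κ (g ^ n) := ⟨h.act_eq h.mem h.conj, (Commute.self_pow g n).eq⟩
  refine ⟨η, fun c hcg hcκ y y' => ?_, fun _ y => by rw [hη g hgΓ, hχ1, add_comm], fun P => ?_⟩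
  · have : c ∈ gam κ (g ^ n) := ⟨hcκ, (Commute.pow_right hcg n).eq⟩
    rw [hη c this, hη c this]
    ring
  obtain ⟨X, hX, hX'⟩ := h.cov
  let Rel : G → G × G × Finset G → Prop := fun z v =>
    (∀ b ∈ κ.1, z⁻¹ * b * z ∈ (S : Set G) ^ r) ∧
      z * v.2.1⁻¹ * v.1⁻¹ ∈ Subgroup.closure κ.1 ∧
      ∀ u ∈ (S : Set G) ^ r, u ∈ v.2.2 ↔ z * u * z⁻¹ ∈ κ.1
  let V : Finset (G × G × Finset G) := X ×ˢ (S ^ r) ×ˢ (S ^ r).powerset
  let rep : G × G × Finset G → G := fun v => Classical.epsilon fun z => Rel z v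
  have hV : (V ×ˢ (S ^ r0)).card ≤ K3 * (S.card ^ r * 2 ^ (S.card ^ r)) * S.card ^ r0 := by
    rw [card_product, card_product, card_product, card_powerset]
    have a1 : (S ^ r).card ≤ S.card ^ r := Finset.card_pow_le
    have a2 : (S ^ r0).card ≤ S.card ^ r0 := Finset.card_pow_le
    exact Nat.mul_le_mul (Nat.mul_le_mul hX
      (Nat.mul_le_mul a1 (Nat.pow_le_pow_right Nat.two_pos a1))) a2
  obtain ⟨i, hi1, hi2, hi3⟩ := GeoAux.dirichlet (V ×ˢ (S ^ r0))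
    (fun p => P * (η (rep p.1) - η (rep p.1 * p.2))) _ hV
  refine ⟨i, hi1, hi2, fun _ y hy u hu => ?_⟩
  obtain ⟨hy1, y1, hy2, hy3⟩ := hy
  obtain ⟨x, hx, hx'⟩ := hX' y1 hy2
  let v : G × G × Finset G := (x, y1⁻¹ * y, (S ^ r).filter fun u => y * u * y⁻¹ ∈ κ.1)
  have hv : v ∈ V := by
    simp only [V, v, mem_product, mem_powerset]
    exact ⟨hx, by rwa [← mem_coe, coe_pow], filter_subset _ _⟩
  have hRel : Rel y v := by
    refine ⟨hy1, ?_, fun w hw => ?_⟩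
    · change y * (y1⁻¹ * y)⁻¹ * x⁻¹ ∈ _
      rwa [show y * (y1⁻¹ * y)⁻¹ * x⁻¹ = y1 * x⁻¹ by group]
    · simp only [v, mem_filter]
      exact ⟨fun h' => h'.2, fun h' => ⟨by rwa [← mem_coe, coe_pow], h'⟩⟩
  have hRep : Rel (rep v) v := Classical.epsilon_spec (p := fun z => Rel z v) ⟨y, hRel⟩
  have step : ∀ z z', Rel z v → Rel z' v → ∀ b ∈ κ.1,
      z' * z⁻¹ * b * (z' * z⁻¹)⁻¹ ∈ κ.1 := by
    intro z z' hz hz' b hb
    have k1 := hz.1 b hb
    have k2 := (hz.2.2 _ k1).2 (by rwa [show z * (z⁻¹ * b * z) * z⁻¹ = b by group])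
    have k3 := (hz'.2.2 _ k1).1 k2
    rwa [show z' * (z⁻¹ * b * z) * z'⁻¹ = z' * z⁻¹ * b * (z' * z⁻¹)⁻¹ by group] at k3
  have hcH : y * (rep v)⁻¹ ∈ Subgroup.closure κ.1 := by
    have := Subgroup.mul_mem _ hRel.2.1 (Subgroup.inv_mem _ hRep.2.1)
    rwa [show y * v.2.1⁻¹ * v.1⁻¹ * (rep v * v.2.1⁻¹ * v.1⁻¹)⁻¹ = y * (rep v)⁻¹ by group] at this
  have hcΓ : y * (rep v)⁻¹ ∈ gam κ (g ^ n) := by
    refine ⟨h.act_eq hcH fun b => ⟨fun hb => ?_, step _ _ hRep hRel b⟩, (cl_comm hc hcH).symm⟩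
    have := step _ _ hRel hRep _ hb
    rwa [show rep v * y⁻¹ * (y * (rep v)⁻¹ * b * (y * (rep v)⁻¹)⁻¹) * (rep v * y⁻¹)⁻¹ = b by
      group] at this
  have hu' : u ∈ S ^ r0 := by rwa [← mem_coe, coe_pow]
  obtain ⟨k, hk⟩ := hi3 (v, u) (mem_product.2 ⟨hv, hu'⟩)
  refine ⟨k, ?_⟩
  have e1 := hη _ hcΓ (rep v)
  have e2 := hη _ hcΓ (rep v * u)
  rw [inv_mul_cancel_right] at e1
  rw [← mul_assoc, inv_mul_cancel_right] at e2
  rw [e1, e2]
  convert hk using 2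
  ring

/-- An equivariant family of heights. -/
theorem family {g : G} (hg : orderOf g = 0) (S : Finset G) (r r0 K3 : ℕ) :
    ∃ (I0 : ℕ) (η : Set G × Set G → G → ℝ),
      (∀ c, c * g = g * c → ∀ κ y y',
        η (act c κ) (c * y) - η (act c κ) (c * y') = η κ y - η κ y') ∧
      (∀ κ, Ok g K3 κ → ∀ y, η κ (g * y) = η κ y + 1) ∧
      ∀ P : ℤ, ∃ i : Set G × Set G → ℕ, (∀ κ, 1 ≤ i κ ∧ i κ ≤ I0) ∧
        (∀ c, c * g = g * c → ∀ κ, i (act c κ) = i κ) ∧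
        ∀ κ, Ok g K3 κ → ∀ y, Dom S r κ y → ∀ u ∈ (S : Set G) ^ r0,
          ∃ n : ℤ, |(i κ : ℝ) * P * (η κ y - η κ (y * u)) - n| ≤ 1 / 6 := by
  choose η0 h1 h2 h3 using one_pair hg S r r0 K3
  let s : Setoid (Set G × Set G) :=
    ⟨fun κ κ' => ∃ c, c * g = g * c ∧ act c κ = κ',
      fun κ => ⟨1, by simp, act_one κ⟩,
      fun ⟨c, hc, e⟩ => ⟨c⁻¹, (Commute.inv_left hc).eq, by
        rw [← e, ← act_mul, inv_mul_cancel, act_one]⟩,
      fun ⟨c, hc, e⟩ ⟨d, hd, e'⟩ => ⟨d * c, (Commute.mul_left hd hc).eq, by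
        rw [act_mul, e, e']⟩⟩
  let rep : Set G × Set G → Set G × Set G := fun κ => (Quotient.mk s κ).out
  have hrep : ∀ κ, ∃ c, c * g = g * c ∧ act c (rep κ) = κ := fun κ => Quotient.mk_out (s := s) κ
  choose τ hτ hτ' using hrep
  have hra : ∀ c, c * g = g * c → ∀ κ, rep (act c κ) = rep κ := fun c hc κ => by
    have : Quotient.mk s κ = Quotient.mk s (act c κ) := Quotient.sound ⟨c, hc, rfl⟩
    simp only [rep, this]
  have hinv : ∀ κ, act (τ κ)⁻¹ κ = rep κ := fun κ => by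
    have := congrArg (act (τ κ)⁻¹) (hτ' κ)
    rw [← act_mul, inv_mul_cancel, act_one] at this
    exact this.symm
  have hok : ∀ κ, Ok g K3 κ → Ok g K3 (rep κ) := fun κ h => by
    rw [← hinv]; exact h.act (Commute.inv_left (hτ κ)).eq
  refine ⟨6 ^ (K3 * (S.card ^ r * 2 ^ (S.card ^ r)) * S.card ^ r0),
    fun κ y => η0 (rep κ) ((τ κ)⁻¹ * y), fun c hc κ y y' => ?_, fun κ h y => ?_, fun P => ?_⟩
  · simp only [hra c hc]
    have k := h1 (rep κ) ((τ (act c κ))⁻¹ * c * τ κ)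
      (Commute.mul_left (Commute.mul_left (Commute.inv_left (hτ _)) hc) (hτ κ)).eq
      (by rw [act_mul, act_mul, hτ', hinv, hra c hc]) ((τ κ)⁻¹ * y) ((τ κ)⁻¹ * y')
    simpa only [mul_assoc, mul_inv_cancel_left] using k
  · have e : (τ κ)⁻¹ * (g * y) = g * ((τ κ)⁻¹ * y) := by
      rw [← mul_assoc, (Commute.inv_left (hτ κ)).eq, mul_assoc]
    simp only [e]
    exact h2 _ (hok κ h) _
  · choose i hi1 hi2 hi3 using fun κ => h3 κ P
    refine ⟨fun κ => i (rep κ), fun κ => ⟨hi1 _, hi2 _⟩, fun c hc κ => by simp only [hra c hc],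
      fun κ h y hy u hu => ?_⟩
    have hy' := hy.act (τ κ)⁻¹
    rw [hinv] at hy'
    have := hi3 (rep κ) (hok κ h) _ hy' u hu
    simpa only [mul_assoc] using this

end Z0

end Pool.Agent.Lib.MP_7903c7_al.F
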