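import Pool.Agent.Lib.MP_7903c7_al.RF.Sys3
import Pool.Agent.Lib.MP_7903c7_al.F.Z0

set_option autoImplicit false

/-!
The system of circle valued functions attached to a finite normalised set of links.
-/

namespace Pool.Agent.Lib.MP_7903c7_al.F

open Finset Pool.Agent.Lib.MP_7903c7_al.RF
open scoped Classical Pointwise

namespace Z0

variable {G : Type} [Group G]

/-- The point `z` is moved little by `A` and is close to the coset of `y`. -/
def See (S : Finset G) (r : ℕ) (A : Set G) (y z : G) : Prop :=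
  (∀ b ∈ A, z⁻¹ * b * z ∈ (S : Set G) ^ r) ∧
    ∃ h ∈ Subgroup.closure A, (h * y)⁻¹ * z ∈ (S : Set G) ^ r

/-- The time spent near the coset of `y`. -/
noncomputable def occ (S : Finset G) (r N : ℕ) (A : Set G) (γ : ℤ → G) (y : G) : ℕ :=
  ((range N).filter fun t : ℕ => See S r A y (γ t)).card

/-- The pair attached to a loop and a threshold. -/
def pr (g : G) (S : Finset G) (r N : ℕ) (θ : ℝ) (A : Set G) (γ : ℤ → G) : Set G × Set G :=
  (A, {y | g ∈ Subgroup.closure A ∧ θ < occ S r N A γ y})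

theorem See.conj {S : Finset G} {r : ℕ} {A A' : Set G} {c y z : G}
    (hA : ∀ b, c * b * c⁻¹ ∈ A' ↔ b ∈ A) (h : See S r A y z) : See S r A' (c * y) (c * z) := by
  obtain ⟨h1, x, hx, h2⟩ := h
  refine ⟨fun b hb => ?_, c * x * c⁻¹, cl_map (fun a ha => (hA a).2 ha) hx, ?_⟩
  · have := h1 (c⁻¹ * b * c) ((hA _).1 (by rwa [show c * (c⁻¹ * b * c) * c⁻¹ = b by group]))
    rwa [show z⁻¹ * (c⁻¹ * b * c) * z = (c * z)⁻¹ * b * (c * z) by group] at this
  · rwa [show (c * x * c⁻¹ * (c * y))⁻¹ * (c * z) = (x * y)⁻¹ * z by group]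

theorem see_conj {S : Finset G} {r : ℕ} {A A' : Set G} {c : G}
    (hA : ∀ b, c * b * c⁻¹ ∈ A' ↔ b ∈ A) (y z : G) :
    See S r A' (c * y) (c * z) ↔ See S r A y z := by
  refine ⟨fun h => ?_, fun h => h.conj hA⟩
  have := h.conj (c := c⁻¹) (A' := A) fun b => by
    rw [← hA, show c * (c⁻¹ * b * c⁻¹⁻¹) * c⁻¹ = b by group]
  rwa [inv_mul_cancel_left, inv_mul_cancel_left] at this

theorem see_mul {S : Finset G} {r : ℕ} {A : Set G} {c : G} (hc : c ∈ Subgroup.closure A)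
    (y z : G) : See S r A (c * y) z ↔ See S r A y z := by
  refine and_congr Iff.rfl ⟨fun ⟨x, hx, h⟩ => ⟨x * c, Subgroup.mul_mem _ hx hc, ?_⟩,
    fun ⟨x, hx, h⟩ => ⟨x * c⁻¹, Subgroup.mul_mem _ hx (Subgroup.inv_mem _ hc), ?_⟩⟩
  · rwa [mul_assoc]
  · rwa [show x * c⁻¹ * (c * y) = x * y by group]

theorem occ_mul {S : Finset G} {r N : ℕ} {A : Set G} {c : G} (hc : c ∈ Subgroup.closure A)
    (γ : ℤ → G) (y : G) : occ S r N A γ (c * y) = occ S r N A γ y := by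
  simp only [occ, see_mul hc]

theorem pr_act {g : G} (S : Finset G) (r N : ℕ) (θ : ℝ) {A A' : Set G} {c : G}
    (hc : c * g = g * c) (hA : ∀ b, c * b * c⁻¹ ∈ A' ↔ b ∈ A) (γ : ℤ → G) :
    pr g S r N θ A' (fun t => c * γ t) = act c (pr g S r N θ A γ) := by
  have e : A' = (act c (pr g S r N θ A γ)).1 := Set.ext fun b => by
    change _ ↔ c⁻¹ * b * c ∈ A
    rw [← hA, show c * (c⁻¹ * b * c) * c⁻¹ = b by group]
  refine Prod.ext e (Set.ext fun y => ?_)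
  change g ∈ Subgroup.closure A' ∧ θ < occ S r N A' (fun t => c * γ t) y ↔
    g ∈ Subgroup.closure A ∧ θ < occ S r N A γ (c⁻¹ * y)
  have e1 : g ∈ Subgroup.closure A' ↔ g ∈ Subgroup.closure A := by
    rw [e, cl_act, mul_assoc, ← hc, inv_mul_cancel_left]
    rfl
  have e2 : occ S r N A' (fun t => c * γ t) y = occ S r N A γ (c⁻¹ * y) := by
    unfold occ
    congr 1
    refine filter_congr fun t _ => ?_
    rw [← see_conj hA, mul_inv_cancel_left]
  rw [e1, e2]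

theorem pr_shift {g : G} (S : Finset G) (r N : ℕ) (θ : ℝ) {A : Set G}
    (hA : ∀ b, g * b * g⁻¹ ∈ A ↔ b ∈ A) {γ : ℤ → G} (hγ : IsLoop g N γ) :
    pr g S r N θ A (fun t => γ (t - 1)) = pr g S r N θ A γ := by
  refine Prod.ext rfl (Set.ext fun y => and_congr_right fun hg => ?_)
  have e : (occ S r N A (fun t => γ (t - 1)) y : ℤ) = occ S r N A γ y := by
    unfold occ
    rw [card_filter, card_filter]
    push_cast
    refine XiA.per_sum N (fun t => if See S r A y (γ t) then (1 : ℤ) else 0) ?_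
    have : See S r A y (γ (-1 + N)) ↔ See S r A y (γ (-1)) := by
      rw [hγ, ← see_mul hg y, see_conj hA]
    simp only [this]
  rw [Int.natCast_inj.1 e]

theorem occ_near {S : Finset G} {r N m : ℕ} (A : Set G) {γ γ' : ℤ → G} (h : Near N m γ γ')
    (y : G) : occ S r N A γ y ≤ occ S r N A γ' y + m ∧
      occ S r N A γ' y ≤ occ S r N A γ y + m := by
  unfold occ
  constructor
  · refine le_trans (card_le_card (t := _ ∪ (range N).filter fun t : ℕ => γ t ≠ γ' t) ?_)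
      ((card_union_le _ _).trans (Nat.add_le_add_left h _))
    intro t ht
    rw [mem_filter] at ht
    by_cases e : γ t = γ' t
    · exact mem_union_left _ (mem_filter.2 ⟨ht.1, e ▸ ht.2⟩)
    · exact mem_union_right _ (mem_filter.2 ⟨ht.1, e⟩)
  · refine le_trans (card_le_card (t := _ ∪ (range N).filter fun t : ℕ => γ t ≠ γ' t) ?_)
      ((card_union_le _ _).trans (Nat.add_le_add_left h _))
    intro t ht
    rw [mem_filter] at ht
    by_cases e : γ t = γ' t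
    · exact mem_union_left _ (mem_filter.2 ⟨ht.1, e ▸ ht.2⟩)
    · exact mem_union_right _ (mem_filter.2 ⟨ht.1, e⟩)

/-- Few cosets are seen during a quarter of the time. -/
theorem heavy (S : Finset G) (r : ℕ) {N : ℕ} (hN : 0 < N) (A : Set G) (γ : ℤ → G) :
    ∃ X : Finset G, X.card ≤ 4 * S.card ^ r ∧
      ∀ y, N ≤ 4 * occ S r N A γ y → ∃ x ∈ X, y * x⁻¹ ∈ Subgroup.closure A := by
  let H := Subgroup.closure A
  let cl : G → Quotient (QuotientGroup.rightRel H) := Quotient.mk _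
  have hout : ∀ y, y * ((cl y).out)⁻¹ ∈ H := fun y =>
    QuotientGroup.rightRel_apply.1 (Quotient.mk_out (s := QuotientGroup.rightRel H) y)
  let E : ℕ → Finset (Quotient (QuotientGroup.rightRel H)) := fun t =>
    (S ^ r).image fun s => cl (γ t * s⁻¹)
  have hE : ∀ (t : ℕ) (y : G), See S r A y (γ t) → cl y ∈ E t := by
    rintro t y ⟨-, h, hh, hs⟩
    refine mem_image.2 ⟨(h * y)⁻¹ * γ t, by rwa [← mem_coe, coe_pow], ?_⟩
    apply Quotient.sound
    change QuotientGroup.rightRel H _ y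
    rw [QuotientGroup.rightRel_apply,
      show y * (γ t * ((h * y)⁻¹ * γ t)⁻¹)⁻¹ = h⁻¹ by group]
    exact H.inv_mem hh
  let Q := ((range N).biUnion E).filter fun q => N ≤ 4 * occ S r N A γ q.out
  refine ⟨Q.image Quotient.out, card_image_le.trans ?_, fun y hy => ?_⟩
  · refine Nat.le_of_mul_le_mul_right ?_ hN
    calc Q.card * N = ∑ _q ∈ Q, N := by rw [sum_const, smul_eq_mul]
      _ ≤ ∑ q ∈ Q, 4 * occ S r N A γ q.out := sum_le_sum fun q hq => (mem_filter.1 hq).2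
      _ = 4 * ∑ t ∈ range N, (Q.filter fun q => See S r A q.out (γ t)).card := by
          rw [← mul_sum]
          simp only [occ, card_filter]
          rw [sum_comm]
      _ ≤ 4 * ∑ _t ∈ range N, S.card ^ r := by
          refine Nat.mul_le_mul_left _ (sum_le_sum fun t _ => ?_)
          refine le_trans (card_le_card (t := E t) fun q hq => ?_)
            (card_image_le.trans Finset.card_pow_le)
          have := hE t _ (mem_filter.1 hq).2
          rwa [show cl q.out = q from Quotient.out_eq q] at this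
      _ = 4 * S.card ^ r * N := by rw [sum_const, card_range, smul_eq_mul]; ring
  · refine ⟨(cl y).out, mem_image_of_mem _ (mem_filter.2 ⟨?_, ?_⟩), hout y⟩
    · have : 0 < occ S r N A γ y := by omega
      obtain ⟨t, ht⟩ := card_pos.1 this
      rw [mem_filter] at ht
      exact mem_biUnion.2 ⟨t, ht.1, hE t y ht.2⟩
    · rwa [← occ_mul (hout y), inv_mul_cancel_right]

/-- One of the bands contains no occupation time. -/
theorem band (S : Finset G) (r : ℕ) {N : ℕ} (hN : 0 < N) (A : Set G) (γ : ℤ → G) {h : ℝ}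
    (hh : 0 < h) : ∃ b ≤ 4 * S.card ^ r, ∀ y, (occ S r N A γ y : ℝ) < N / 4 + b * h ∨
      (N : ℝ) / 4 + (b + 1) * h ≤ occ S r N A γ y := by
  obtain ⟨X, hX, hX'⟩ := heavy S r hN A γ
  have hlt : (X.image fun x => ⌊((occ S r N A γ x : ℝ) - N / 4) / h⌋₊).card <
      (range (4 * S.card ^ r + 1)).card := by
    rw [card_range]
    exact Nat.lt_succ_of_le (card_image_le.trans hX)
  obtain ⟨b, hb, hb'⟩ := exists_mem_notMem_of_card_lt_card hlt
  refine ⟨b, Nat.lt_succ_iff.1 (mem_range.1 hb), fun y => ?_⟩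
  by_contra hcon
  push Not at hcon
  have hb0 : (0 : ℝ) ≤ b * h := by positivity
  obtain ⟨x, hx, hx'⟩ := hX' y (by
    have : (N : ℝ) ≤ 4 * occ S r N A γ y := by linarith [hcon.1]
    exact_mod_cast this)
  have e : occ S r N A γ x = occ S r N A γ y := by rw [← occ_mul hx', inv_mul_cancel_right]
  refine hb' (mem_image.2 ⟨x, hx, ?_⟩)
  rw [e, Nat.floor_eq_iff (div_nonneg (by linarith [hcon.1]) hh.le), le_div_iff₀ hh,
    div_lt_iff₀ hh]
  constructor <;> linarith [hcon.1, hcon.2]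

theorem path2 {g : G} {S : Finset G} (h1 : (1 : G) ∈ S) (hS : ∀ s ∈ S, s⁻¹ ∈ S) {N L : ℕ}
    {γ : ℤ → G} (hγ : Good g S N L γ) :
    (∀ t : ℤ, (γ t)⁻¹ * g * γ t ∈ (S : Set G) ^ L) ∧
      ∀ t ∈ range N, ∀ t' ∈ range N, (γ t)⁻¹ * γ t' ∈ (S : Set G) ^ L := by
  obtain ⟨hγ, ℓ, hp, hs, hℓ⟩ := hγ
  have hw := fun t => (sum_window_le N N le_rfl ℓ hp t).trans hℓ
  have key : ∀ t ∈ range N, ∀ t' ∈ range N, t ≤ t' → (γ t)⁻¹ * γ t' ∈ (S : Set G) ^ L :=
    fun t _ t' ht' htt => S3.path_mem h1 hs le_rfl (by exact_mod_cast htt)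
      (by have := mem_range.1 ht'; omega) (hw t)
  refine ⟨fun t => ?_, fun t ht t' ht' => ?_⟩
  · have := S3.path_mem h1 hs le_rfl (t' := t + N) (by omega) le_rfl (hw t)
    rwa [hγ t, ← mul_assoc] at this
  · rcases le_total t t' with h | h
    · exact key t ht t' ht' h
    · have := GeoAux.inv_mem_pow hS L _ (key t' ht' t ht h)
      rwa [mul_inv_rev, inv_inv] at this

/-- The pair described by two finite sets relative to a base point. -/
def mk2 (z : G) (W : Finset G × Finset G) : Set G × Set G :=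
  ({b | z⁻¹ * b * z ∈ W.1},
    {y | ∃ h ∈ Subgroup.closure {b | z⁻¹ * b * z ∈ W.1}, z⁻¹ * (h * y) ∈ W.2})

theorem act_mk2 (c z : G) (W : Finset G × Finset G) : act c (mk2 z W) = mk2 (c * z) W := by
  have e : (act c (mk2 z W)).1 = (mk2 (c * z) W).1 := Set.ext fun b => by
    change z⁻¹ * (c⁻¹ * b * c) * z ∈ W.1 ↔ (c * z)⁻¹ * b * (c * z) ∈ W.1
    rw [show z⁻¹ * (c⁻¹ * b * c) * z = (c * z)⁻¹ * b * (c * z) by group]
  refine Prod.ext e (Set.ext fun y => ?_)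
  change (∃ h ∈ Subgroup.closure (mk2 z W).1, z⁻¹ * (h * (c⁻¹ * y)) ∈ W.2) ↔
    ∃ h ∈ Subgroup.closure (mk2 (c * z) W).1, (c * z)⁻¹ * (h * y) ∈ W.2
  rw [← e]
  constructor
  · rintro ⟨h, hh, hy⟩
    refine ⟨c * h * c⁻¹, ?_, ?_⟩
    · rw [cl_act]
      rwa [show c⁻¹ * (c * h * c⁻¹) * c = h by group]
    · rwa [show (c * z)⁻¹ * (c * h * c⁻¹ * y) = z⁻¹ * (h * (c⁻¹ * y)) by group]
  · rintro ⟨h, hh, hy⟩
    refine ⟨c⁻¹ * h * c, (cl_act c _ h).1 hh, ?_⟩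
    rwa [show z⁻¹ * (c⁻¹ * h * c * (c⁻¹ * y)) = (c * z)⁻¹ * (h * y) by group]

/-- The heights vary boundedly along a period of a good loop. -/
theorem eta_bound (g : G) {S : Finset G} (h1 : (1 : G) ∈ S) (hS : ∀ s ∈ S, s⁻¹ ∈ S) (r L : ℕ)
    (η : Set G × Set G → G → ℝ)
    (hη : ∀ c, c * g = g * c → ∀ κ y y',
      η (act c κ) (c * y) - η (act c κ) (c * y') = η κ y - η κ y') :
    ∃ B : ℝ, 0 ≤ B ∧ ∀ (N : ℕ) (γ : ℤ → G), Good g S N L γ → ∀ (θ : ℝ) (A : Set G), 0 ≤ θ →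
      ∀ t ∈ range N, ∀ t' ∈ range N, Dom S r (pr g S r N θ A γ) (γ t) →
        |η (pr g S r N θ A γ) (γ t) - η (pr g S r N θ A γ) (γ t')| ≤ B := by
  obtain ⟨Y, hY, -⟩ := anchors g (Subgroup.centralizer {g})
    (fun c hc => Subgroup.mem_centralizer_singleton_iff.1 hc) (by simp) (S ^ L)
  refine ⟨∑ p ∈ (Y ×ˢ ((S ^ r).powerset ×ˢ (S ^ (L + r)).powerset)) ×ˢ (S ^ L),
    |η (mk2 p.1.1 p.1.2) p.1.1 - η (mk2 p.1.1 p.1.2) (p.1.1 * p.2)|, by positivity, ?_⟩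
  intro N γ hγ θ A hθ t ht t' ht' hD
  obtain ⟨hp1, hp2⟩ := path2 h1 hS hγ
  obtain ⟨c, hc, z, hz, he⟩ := hY (γ t) (by rw [← mem_coe, coe_pow]; exact hp1 t)
  rw [Subgroup.mem_centralizer_singleton_iff] at hc
  let W : Finset G × Finset G := ((S ^ r).filter fun u => γ t * u * (γ t)⁻¹ ∈ A,
    (S ^ (L + r)).filter fun u => γ t * u ∈ (pr g S r N θ A γ).2)
  have e1 : {b | (γ t)⁻¹ * b * γ t ∈ W.1} = A := Set.ext fun b => by
    change (γ t)⁻¹ * b * γ t ∈ (S ^ r).filter _ ↔ _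
    rw [mem_filter, show γ t * ((γ t)⁻¹ * b * γ t) * (γ t)⁻¹ = b by group]
    exact ⟨fun h => h.2, fun h => ⟨by rw [← mem_coe, coe_pow]; exact hD.1 b h, h⟩⟩
  have e : pr g S r N θ A γ = mk2 (γ t) W := by
    refine Prod.ext e1.symm (Set.ext fun y => ?_)
    change _ ↔ ∃ h ∈ Subgroup.closure {b | (γ t)⁻¹ * b * γ t ∈ W.1},
      (γ t)⁻¹ * (h * y) ∈ (S ^ (L + r)).filter _
    rw [e1]
    constructor
    · intro hy
      have : 0 < occ S r N A γ y := by exact_mod_cast lt_of_le_of_lt hθ hy.2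
      obtain ⟨s, hs⟩ := card_pos.1 this
      obtain ⟨hs1, -, h, hh, hs2⟩ := mem_filter.1 hs
      refine ⟨h, hh, mem_filter.2 ⟨?_, hy.1, ?_⟩⟩
      · have := GeoAux.mul_mem_pow (hp2 t ht s hs1) (GeoAux.inv_mem_pow hS r _ hs2)
        rw [← mem_coe, coe_pow]
        rwa [show (γ t)⁻¹ * γ s * ((h * y)⁻¹ * γ s)⁻¹ = (γ t)⁻¹ * (h * y) by group] at this
      · rw [mul_inv_cancel_left, occ_mul hh]
        exact hy.2
    · rintro ⟨h, hh, hy⟩
      obtain ⟨-, hy1, hy2⟩ := mem_filter.1 hy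
      rw [mul_inv_cancel_left, occ_mul hh] at hy2
      exact ⟨hy1, hy2⟩
  have hu : (γ t)⁻¹ * γ t' ∈ S ^ L := by rw [← mem_coe, coe_pow]; exact hp2 t ht t' ht'
  have he' : γ t' = c * (z * ((γ t)⁻¹ * γ t')) := by
    rw [← mul_assoc, ← he, mul_inv_cancel_left]
  have key : η (pr g S r N θ A γ) (γ t) - η (pr g S r N θ A γ) (γ t') =
      η (mk2 z W) z - η (mk2 z W) (z * ((γ t)⁻¹ * γ t')) := by
    rw [← hη c hc (mk2 z W), act_mk2, ← he, ← he', ← e]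
  rw [key]
  exact single_le_sum (f := fun p : (G × Finset G × Finset G) × G =>
    |η (mk2 p.1.1 p.1.2) p.1.1 - η (mk2 p.1.1 p.1.2) (p.1.1 * p.2)|) (fun _ _ => abs_nonneg _)
    (a := ((z, W), (γ t)⁻¹ * γ t')) (mem_product.2 ⟨mem_product.2 ⟨hz, mem_product.2
      ⟨mem_powerset.2 (filter_subset _ _), mem_powerset.2 (filter_subset _ _)⟩⟩, hu⟩)

/-- The indicator function of the domain of an admissible pair. -/
noncomputable def ind (g : G) (S : Finset G) (r K3 : ℕ) (κ : Set G × Set G) (z : G) : ℝ :=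
  if Ok g K3 κ ∧ Dom S r κ z then 1 else 0

theorem ind_nonneg (g : G) (S : Finset G) (r K3 : ℕ) (κ : Set G × Set G) (z : G) :
    0 ≤ ind g S r K3 κ z := by
  unfold ind; split_ifs <;> norm_num

theorem ind_le (g : G) (S : Finset G) (r K3 : ℕ) (κ : Set G × Set G) (z : G) :
    ind g S r K3 κ z ≤ 1 := by
  unfold ind; split_ifs <;> norm_num

theorem of_ind {g : G} {S : Finset G} {r K3 : ℕ} {κ : Set G × Set G} {z : G}
    (h : ind g S r K3 κ z ≠ 0) : Ok g K3 κ ∧ Dom S r κ z := by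
  by_contra hc
  exact h (if_neg hc)

theorem ind_act {g : G} (S : Finset G) (r K3 : ℕ) (κ : Set G × Set G) (z : G) {c : G}
    (hc : c * g = g * c) : ind g S r K3 (act c κ) (c * z) = ind g S r K3 κ z := by
  have : Ok g K3 (act c κ) ↔ Ok g K3 κ := ⟨fun h => by
    have := h.act (Commute.inv_left hc).eq
    rwa [← act_mul, inv_mul_cancel, act_one] at this, fun h => h.act hc⟩
  simp only [ind, this, dom_act]

theorem ind_g (g : G) (S : Finset G) (r K3 : ℕ) (κ : Set G × Set G) (z : G) :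
    ind g S r K3 κ (g * z) = ind g S r K3 κ z := by
  by_cases h : Ok g K3 κ
  · rw [← ind_act S r K3 κ z (c := g) rfl, h.act_eq h.mem h.conj]
  · simp only [ind, h, false_and]

/-- One of the Fourier coefficients is large. -/
theorem lower {g : G} {S : Finset G} (h1 : (1 : G) ∈ S) {T2 L M3 n0 : ℕ} (hn0 : 0 < n0)
    (hT2 : 0 < T2) (hL : 0 < L) (hM : 8 * L ≤ T2 * (M3 + 1)) (hM' : T2 * (M3 + 1) ≤ 16 * L)
    {γ : ℤ → G} (hγ : Good g S (L * n0) L γ) (f η : G → ℝ) (h0 : ∀ y, 0 ≤ f y)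
    (hR : ∀ y, f y ≤ 1) (hf : ∀ y, f (g * y) = f y) (hη : ∀ y, η (g * y) = η y + 1)
    (hs : 9 / 10 * ((L * n0 : ℕ) : ℝ) * 1 ≤ ∑ t ∈ range (L * n0), f (γ t)) (w : ℤ)
    (hw : ∀ y, ∀ u ∈ (S : Set G) ^ (1500 * T2), f y ≠ 0 →
      ∃ n : ℤ, |(w : ℝ) * (η y - η (y * u)) - n| ≤ 1 / 6) :
    ∃ j : ℤ, |j| ≤ M3 ∧ 9 / 10 * ((L * n0 : ℕ) : ℝ) * 1 ≤
      2 * (M3 + 1) * ‖xi (L * n0) (fun t => f (γ t)) (fun t => η (γ t)) w j‖ := by
  obtain ⟨hγ, ℓ, hp, hs', hℓ⟩ := hγ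
  set U := T2 * n0 with hU
  have hU0 : 0 < U := Nat.mul_pos hT2 hn0
  set B := (range (L * n0)).filter fun t : ℕ =>
    1500 * T2 < ∑ u ∈ Ico ((t : ℤ) + -(U : ℤ)) (t + -(U : ℤ) + (2 * U : ℕ)), ℓ u with hB
  have hBc : B.card * (1500 * T2) ≤ 2 * U * L := by
    calc B.card * (1500 * T2) = ∑ _t ∈ B, 1500 * T2 := by rw [sum_const, smul_eq_mul]
      _ ≤ ∑ t ∈ B, ∑ u ∈ Ico ((t : ℤ) + -(U : ℤ)) (t + -(U : ℤ) + (2 * U : ℕ)), ℓ u :=
          sum_le_sum fun t ht => (mem_filter.1 ht).2.le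
      _ ≤ ∑ t ∈ range (L * n0),
            ∑ u ∈ Ico ((t : ℤ) + -(U : ℤ)) (t + -(U : ℤ) + (2 * U : ℕ)), ℓ u :=
          sum_le_sum_of_subset (filter_subset _ _)
      _ = 2 * U * ∑ t ∈ range (L * n0), ℓ t := sum_window _ _ ℓ hp _
      _ ≤ 2 * U * L := Nat.mul_le_mul_left _ hℓ
  refine xi_lower (L * n0) U M3 (Nat.mul_pos hL hn0) hU0 _ _ w (by norm_num) (by norm_num)
    (fun t => h0 _) (fun t => hR _) (fun t => by rw [hγ t, hf]) (fun t _ => by rw [hγ t, hη])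
    hs B ?_ ?_ ?_
  · intro t ht htB s hs2 hf1 hf2
    have hslow : ∑ u ∈ Ico ((t : ℤ) + -(U : ℤ)) (t + -(U : ℤ) + (2 * U : ℕ)), ℓ u ≤
        1500 * T2 := by
      by_contra hcon
      exact htB (mem_filter.2 ⟨ht, not_le.1 hcon⟩)
    rw [abs_le] at hs2
    rcases le_total 0 s with h | h
    · have hu := S3.path_mem h1 hs' (t := t) (t' := t + s) (by omega) (by omega)
        (by push_cast; omega) hslow
      have := hw (γ t) _ hu hf1
      rwa [mul_inv_cancel_left] at this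
    · have hu := S3.path_mem h1 hs' (t := t + s) (t' := t) (by omega) (by omega)
        (by push_cast; omega) hslow
      obtain ⟨n, hn⟩ := hw (γ (t + s)) _ hu hf2
      rw [mul_inv_cancel_left] at hn
      refine ⟨-n, ?_⟩
      rw [← abs_neg]
      convert hn using 2
      push_cast
      ring
  · have : 8 * (L * n0) ≤ U * (M3 + 1) := by
      calc 8 * (L * n0) = 8 * L * n0 := by ring
        _ ≤ T2 * (M3 + 1) * n0 := Nat.mul_le_mul_right _ hM
        _ = U * (M3 + 1) := by rw [hU]; ring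
    have h' : (8 * ((L * n0 : ℕ) : ℝ)) ≤ U * (M3 + 1) := by exact_mod_cast this
    have h2 : (0 : ℝ) ≤ ((L * n0 : ℕ) : ℝ) := Nat.cast_nonneg _
    linarith
  · have hb : B.card * 1500 ≤ 2 * n0 * L := by
      refine Nat.le_of_mul_le_mul_right ?_ hT2
      calc B.card * 1500 * T2 = B.card * (1500 * T2) := by ring
        _ ≤ 2 * U * L := hBc
        _ = 2 * n0 * L * T2 := by rw [hU]; ring
    have hb2 : (2 * U + 1) * (M3 + 1) ≤ 3 * n0 * (16 * L) := by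
      calc (2 * U + 1) * (M3 + 1) ≤ 3 * U * (M3 + 1) := Nat.mul_le_mul_right _ (by omega)
        _ = 3 * n0 * (T2 * (M3 + 1)) := by rw [hU]; ring
        _ ≤ _ := Nat.mul_le_mul_left _ hM'
    have hb3 := Nat.mul_le_mul hb hb2
    have hb4 : 125 * (12 * B.card * (2 * U + 1) * (M3 + 1)) ≤ 96 * (L * n0) ^ 2 := by
      calc _ = B.card * 1500 * ((2 * U + 1) * (M3 + 1)) := by ring
        _ ≤ _ := hb3
        _ = _ := by ring
    have h' : (125 * (12 * (B.card : ℝ) * (2 * U + 1) * (M3 + 1))) ≤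
        96 * ((L * n0 : ℕ) : ℝ) ^ 2 := by exact_mod_cast hb4
    have h2 : (0 : ℝ) ≤ ((L * n0 : ℕ) : ℝ) ^ 2 := by positivity
    linarith

theorem conj_g {g : G} {N : ℕ} (A : (ℤ → G) → Set G)
    (hA : ∀ γ, IsLoop g N γ → (∀ c ∈ Subgroup.centralizer {g}, ∀ b,
      c * b * c⁻¹ ∈ A (fun t => c * γ t) ↔ b ∈ A γ) ∧ A (fun t => γ (t - 1)) = A γ)
    {γ : ℤ → G} (hγ : IsLoop g N γ) (b : G) : g * b * g⁻¹ ∈ A γ ↔ b ∈ A γ := by
  have hl : ∀ k : ℕ, IsLoop g N fun t => γ (t - k) := fun k t => by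
    simp only
    rw [← hγ]; congr 1; ring
  have hk : ∀ k : ℕ, A (fun t => γ (t - k)) = A γ := by
    intro k
    induction k with
    | zero => simp
    | succ k ih =>
      rw [← ih, ← (hA _ (hl k)).2]
      congr 1
      funext t
      congr 1
      push_cast
      ring
  have h2 := (hA _ (hl N)).1 g (Subgroup.mem_centralizer_singleton_iff.2 rfl) b
  have e : (fun t => g * γ (t - N)) = γ := funext fun t => by rw [← hγ, sub_add_cancel]
  rwa [e, hk] at h2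

end Z0

open Z0 in
theorem sysZ' {G : Type} [Group G] (g : G) (hg : orderOf g = 0) (S : Finset G)
    (h1 : (1 : G) ∈ S) (hS : ∀ s ∈ S, s⁻¹ ∈ S) (r3 T2 : ℕ) (hT2 : 0 < T2) :
    ∃ I0 : ℕ, ∀ (L M3 m : ℕ) (P : ℤ), 0 < L → 8 * L ≤ T2 * (M3 + 1) → T2 * (M3 + 1) ≤ 16 * L →
      ∃ n00 : ℕ, ∀ n0 ≥ n00, ∀ A : (ℤ → G) → Set G,
        (∀ γ, IsLoop g (L * n0) γ → (∀ c ∈ Subgroup.centralizer {g}, ∀ b,
          c * b * c⁻¹ ∈ A (fun t => c * γ t) ↔ b ∈ A γ) ∧ A (fun t => γ (t - 1)) = A γ) →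
        ∃ (i : ℕ → (ℤ → G) → ℕ) (F : ℕ × ℤ → (ℤ → G) → ℂ),
          (∀ b γ, 1 ≤ i b γ ∧ i b γ ≤ I0) ∧
          (∀ b j, Equi g (Subgroup.centralizer {g}) (L * n0) (fun γ => i b γ * P - j)
            (F (b, j))) ∧
          ∀ γ, Good g S (L * n0) L γ →
            (∀ γ', Good g S (L * n0) L γ' → Near (L * n0) m γ γ' → A γ' = A γ) →
            g ∈ Subgroup.closure (A γ) →
            (∃ y0, 9 * (L * n0) ≤ 10 * occ S r3 (L * n0) (A γ) γ y0) →
            ∃ b ≤ 4 * S.card ^ r3, ∃ j : ℤ, |j| ≤ M3 ∧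
              Fine g S (L * n0) L m (fun γ => i b γ * P - j) (F (b, j)) γ := by
  obtain ⟨K3, hK3⟩ : ∃ K3, K3 = 4 * S.card ^ r3 := ⟨_, rfl⟩
  obtain ⟨I0, η, hηc, hηg, hdir⟩ := family hg S r3 (1500 * T2) K3
  refine ⟨I0, fun L M3 m P hL hM hM' => ?_⟩
  obtain ⟨idir, hi1, hi2, hi3⟩ := hdir P
  obtain ⟨Cη, hCη, hη⟩ := eta_bound g h1 hS r3 L η hηc
  obtain ⟨e, he⟩ : ∃ e : ℝ, e = m * 1 *
    (2 + 6 * Real.pi * (I0 * |(P : ℝ)|) * (Cη + 1) / (9 / 10)) := ⟨_, rfl⟩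
  have he0 : 0 ≤ e := by rw [he]; positivity
  obtain ⟨n00, hn00⟩ := exists_nat_gt
    (max (4 * (K3 + 1) * m : ℝ) (3 * e * (2 * (M3 + 1)) * 2))
  refine ⟨n00, fun n0 hn0' A hA => ?_⟩
  have hn : (n00 : ℝ) ≤ n0 := by exact_mod_cast hn0'
  have ha : (4 * (K3 + 1) * m : ℝ) < n0 :=
    lt_of_lt_of_le (lt_of_le_of_lt (le_max_left _ _) hn00) hn
  have hd : 3 * e * (2 * (M3 + 1)) * 2 < n0 :=
    lt_of_lt_of_le (lt_of_le_of_lt (le_max_right _ _) hn00) hn
  have hn0r : (0 : ℝ) < n0 := lt_of_le_of_lt (by positivity) ha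
  have hn0 : 0 < n0 := by exact_mod_cast hn0r
  have hN : 0 < L * n0 := Nat.mul_pos hL hn0
  have hNn : (n0 : ℝ) ≤ ((L * n0 : ℕ) : ℝ) := by
    exact_mod_cast Nat.le_mul_of_pos_left n0 hL
  obtain ⟨h, hh, hh'⟩ : ∃ h : ℝ, 0 < h ∧ (K3 + 1) * h = ((L * n0 : ℕ) : ℝ) / 2 :=
    ⟨((L * n0 : ℕ) : ℝ) / 2 / (K3 + 1), by positivity, by field_simp⟩
  have hK0 : (0 : ℝ) ≤ K3 := Nat.cast_nonneg _
  have hm0 : (0 : ℝ) ≤ m := Nat.cast_nonneg _
  have hζ : (m : ℝ) < h / 2 := by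
    refine lt_of_mul_lt_mul_left (a := (K3 : ℝ) + 1) ?_ (by positivity)
    linarith
  let thr : ℕ → ℝ := fun b => ((L * n0 : ℕ) : ℝ) / 4 + (b + 1 / 2) * h
  let κ : ℕ → (ℤ → G) → Set G × Set G := fun b γ => pr g S r3 (L * n0) (thr b) (A γ) γ
  refine ⟨fun b γ => idir (κ b γ), fun bj γ => xi (L * n0)
    (fun t => ind g S r3 K3 (κ bj.1 γ) (γ t)) (fun t => η (κ bj.1 γ) (γ t))
    (idir (κ bj.1 γ) * P) bj.2, fun b γ => hi1 _, fun b j γ hγ => ?_, ?_⟩
  · have e2 : κ b (fun t => γ (t - 1)) = κ b γ := by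
      simp only [κ, (hA γ hγ).2]
      exact pr_shift S r3 _ _ (conj_g A hA hγ) hγ
    refine ⟨fun c hc => ?_, by simp only [e2], ?_⟩
    · have hc' := Subgroup.mem_centralizer_singleton_iff.1 hc
      have e1 : κ b (fun t => c * γ t) = act c (κ b γ) :=
        pr_act S r3 _ _ hc' ((hA γ hγ).1 c hc) γ
      refine ⟨by simp only [e1, hi2 c hc'], ?_⟩
      simp only [e1, hi2 c hc', ind_act S r3 K3 _ _ hc']
      exact xi_congr _ _ _ _ _ _ (fun t => ind_nonneg _ _ _ _ _ _)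
        (fun t t' _ _ => hηc c hc' _ _ _)
    · simp only [e2]
      exact xi_shift _ hN (fun t => ind g S r3 K3 (κ b γ) (γ t)) (fun t => η (κ b γ) (γ t)) _ j
        (fun t => ind_nonneg _ _ _ _ _ _) (fun t => by rw [hγ t, ind_g])
        (fun t ht => by rw [hγ t, hηg _ (of_ind ht).1])
  rintro γ hγ hnear hgH ⟨y0, hy0⟩
  obtain ⟨b, hbK, hband⟩ := band S r3 hN (A γ) γ hh
  have hb0 : (0 : ℝ) ≤ b * h := by positivity
  have hthr : thr b = ((L * n0 : ℕ) : ℝ) / 4 + (b + 1 / 2) * h := rfl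
  have hN0 : (0 : ℝ) < ((L * n0 : ℕ) : ℝ) := by exact_mod_cast hN
  have hthr0 : 0 ≤ thr b := by rw [hthr]; positivity
  have hsame : ∀ γ', Good g S (L * n0) L γ' → Near (L * n0) m γ γ' → κ b γ' = κ b γ := by
    intro γ' hγ' hn'
    simp only [κ, hnear γ' hγ' hn']
    refine Prod.ext rfl (Set.ext fun y => and_congr_right fun _ => ?_)
    have hk := occ_near (S := S) (r := r3) (A γ) hn' y
    have k1 : (occ S r3 (L * n0) (A γ) γ y : ℝ) ≤ occ S r3 (L * n0) (A γ) γ' y + m := by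
      exact_mod_cast hk.1
    have k2 : (occ S r3 (L * n0) (A γ) γ' y : ℝ) ≤ occ S r3 (L * n0) (A γ) γ y + m := by
      exact_mod_cast hk.2
    rw [hthr]
    rcases hband y with h' | h'
    · constructor <;> intro h'' <;> linarith
    · constructor <;> intro h'' <;> linarith
  have hy0' : 9 * ((L * n0 : ℕ) : ℝ) ≤ 10 * occ S r3 (L * n0) (A γ) γ y0 := by
    exact_mod_cast hy0
  have hy0U : y0 ∈ (κ b γ).2 := by
    refine ⟨hgH, ?_⟩
    have hbr : (b : ℝ) ≤ K3 := by rw [hK3]; exact_mod_cast hbK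
    have : (b : ℝ) * h ≤ K3 * h := mul_le_mul_of_nonneg_right hbr hh.le
    rw [hthr]
    linarith
  have hinv : ∀ x ∈ Subgroup.closure (A γ), ∀ y ∈ (κ b γ).2, x * y ∈ (κ b γ).2 :=
    fun x hx y hy => ⟨hgH, by rw [occ_mul hx]; exact hy.2⟩
  have hok : Ok g K3 (κ b γ) := by
    refine ⟨?_, conj_g A hA hγ.1, hgH, ⟨y0, hy0U⟩, hinv, ?_⟩
    · have : 0 < occ S r3 (L * n0) (A γ) γ y0 := by omega
      obtain ⟨t, ht⟩ := card_pos.1 this
      obtain ⟨-, ht2, -⟩ := mem_filter.1 ht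
      refine ((S ^ r3).finite_toSet.image fun u => γ t * u * (γ t)⁻¹).subset fun x hx => ?_
      exact ⟨(γ t)⁻¹ * x * γ t, by rw [coe_pow]; exact ht2 x hx, by group⟩
    · obtain ⟨X, hX, hX'⟩ := heavy S r3 hN (A γ) γ
      refine ⟨X, hK3 ▸ hX, fun y hy => hX' y ?_⟩
      have h2 := hy.2
      rw [hthr] at h2
      have : ((L * n0 : ℕ) : ℝ) ≤ 4 * occ S r3 (L * n0) (A γ) γ y := by linarith
      exact_mod_cast this
  have hmass : 9 / 10 * ((L * n0 : ℕ) : ℝ) * 1 ≤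
      ∑ t ∈ range (L * n0), ind g S r3 K3 (κ b γ) (γ t) := by
    have : (occ S r3 (L * n0) (A γ) γ y0 : ℝ) ≤
        ∑ t ∈ range (L * n0), ind g S r3 K3 (κ b γ) (γ t) := by
      unfold occ
      rw [card_filter]
      push_cast
      refine sum_le_sum fun t _ => ?_
      split_ifs with ht
      · obtain ⟨k1, x, hx, k2⟩ := ht
        exact (if_pos ⟨hok, k1, x * y0, hinv x hx y0 hy0U, k2⟩).ge
      · exact ind_nonneg _ _ _ _ _ _
    linarith
  obtain ⟨j, hj, hlow⟩ := lower h1 hn0 hT2 hL hM hM' hγ (ind g S r3 K3 (κ b γ)) (η (κ b γ))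
    (ind_nonneg _ _ _ _ _) (ind_le _ _ _ _ _) (ind_g _ _ _ _ _) (hηg _ hok) hmass
    (idir (κ b γ) * P) (fun y u hu hf => by
      have := hi3 _ hok y (of_ind hf).2 u hu
      push_cast
      exact this)
  refine ⟨b, hbK, j, hj, fun γ' γ'' hγ' hγ'' hn' hn'' => ⟨?_, ?_⟩⟩
  · simp only [hsame γ' hγ' hn', hsame γ'' hγ'' hn'']
  · have hcont : ∀ γ', Good g S (L * n0) L γ' → Near (L * n0) m γ γ' →
        ‖xi (L * n0) (fun t => ind g S r3 K3 (κ b γ) (γ t)) (fun t => η (κ b γ) (γ t))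
            (idir (κ b γ) * P) j -
          xi (L * n0) (fun t => ind g S r3 K3 (κ b γ) (γ' t)) (fun t => η (κ b γ) (γ' t))
            (idir (κ b γ) * P) j‖ ≤ e := by
      intro γ' hγ' hn'
      refine le_trans (xi_cont (L * n0) m _ _ _ _ _ j (R := 1) (c := 9 / 10)
        (Cη := Cη) (by norm_num) (by norm_num) hCη (fun t => ind_nonneg _ _ _ _ _ _)
        (fun t => ind_le _ _ _ _ _ _) (fun t => ind_nonneg _ _ _ _ _ _)
        (fun t => ind_le _ _ _ _ _ _) hmass (by nlinarith)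
        (S3.near_comp hn' fun y => (ind g S r3 K3 (κ b γ) y, η (κ b γ) y))
        (fun t ht t' ht' hf _ => hη _ γ hγ _ _ hthr0 t ht t' ht' (of_ind hf).2)
        (fun t ht t' ht' hf _ => ?_)) ?_
      · rw [← hsame γ' hγ' hn'] at hf ⊢
        exact hη _ γ' hγ' _ _ hthr0 t ht t' ht' (of_ind hf).2
      · have hw : |((idir (κ b γ) * P : ℤ) : ℝ)| ≤ I0 * |(P : ℝ)| := by
          push_cast
          rw [abs_mul, Nat.abs_cast]
          exact mul_le_mul_of_nonneg_right (by exact_mod_cast (hi1 _).2) (abs_nonneg _)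
        rw [he]
        gcongr
    simp only [hsame γ' hγ' hn', hsame γ'' hγ'' hn'']
    refine re_pos ?_ (hcont γ' hγ' hn') (hcont γ'' hγ'' hn'')
    have hM0 : (0 : ℝ) < 2 * (M3 + 1) := by positivity
    refine lt_of_mul_lt_mul_left (lt_of_lt_of_le ?_ hlow) hM0.le
    linarith

theorem sysZ {G : Type} [Group G] (g : G) (hg : orderOf g = 0) (S : Finset G)
    (h1 : (1 : G) ∈ S) (hS : ∀ s ∈ S, s⁻¹ ∈ S) (r3 T2 : ℕ) (hT2 : 0 < T2) :
    ∃ I0 : ℕ, ∀ (L M3 m : ℕ) (P : ℤ), 0 < L → 8 * L ≤ T2 * (M3 + 1) → T2 * (M3 + 1) ≤ 16 * L →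
      ∃ n00 : ℕ, ∀ n0 ≥ n00, ∀ A : (ℤ → G) → Finset G,
        (∀ γ, IsLoop g (L * n0) γ → (∀ c ∈ Subgroup.centralizer {g}, ∀ b,
          c * b * c⁻¹ ∈ A (fun t => c * γ t) ↔ b ∈ A γ) ∧ A (fun t => γ (t - 1)) = A γ) →
        ∃ (i : ℕ → (ℤ → G) → ℕ) (F : ℕ × ℤ → (ℤ → G) → ℂ),
          (∀ b γ, 1 ≤ i b γ ∧ i b γ ≤ I0) ∧
          (∀ b j, Equi g (Subgroup.centralizer {g}) (L * n0) (fun γ => i b γ * P - j)
            (F (b, j))) ∧
          ∀ γ, Good g S (L * n0) L γ →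
            (∀ γ', Good g S (L * n0) L γ' → Near (L * n0) m γ γ' → A γ' = A γ) →
            g ∈ Subgroup.closure (A γ : Set G) →
            (∃ y0, 9 * (L * n0) ≤ 10 * ((range (L * n0)).filter fun t : ℕ =>
              (∀ b ∈ A γ, (γ t)⁻¹ * b * γ t ∈ (S : Set G) ^ r3) ∧
                ∃ h ∈ Subgroup.closure (A γ : Set G),
                  (h * y0)⁻¹ * γ t ∈ (S : Set G) ^ r3).card) →
            ∃ b ≤ 4 * S.card ^ r3, ∃ j : ℤ, |j| ≤ M3 ∧
              Fine g S (L * n0) L m (fun γ => i b γ * P - j) (F (b, j)) γ := by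
  obtain ⟨I0, H⟩ := sysZ' g hg S h1 hS r3 T2 hT2
  refine ⟨I0, fun L M3 m P hL hM hM' => ?_⟩
  obtain ⟨n00, H⟩ := H L M3 m P hL hM hM'
  refine ⟨n00, fun n0 hn0 A hA => ?_⟩
  obtain ⟨i, F, hi, hF, H⟩ := H n0 hn0 (fun γ => (A γ : Set G)) fun γ hγ =>
    ⟨(hA γ hγ).1, congrArg _ (hA γ hγ).2⟩
  refine ⟨i, F, hi, hF, fun γ hγ hn hgH ⟨y0, hy0⟩ => H γ hγ
    (fun γ' hγ' hn' => congrArg _ (hn γ' hγ' hn')) hgH ⟨y0, hy0.trans (le_of_eq ?_)⟩⟩
  unfold Z0.occ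
  congr 2
  exact filter_congr_decidable _ _ _ |>.trans (filter_congr fun t _ => Iff.rfl)

end Pool.Agent.Lib.MP_7903c7_al.F
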